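import Mathlib

/-!
# MP_5f1228_co: definitions for the partition version (Q2)

Abstract part: a family of graphs `Γ i` on a finite set `V`, clique tuples `Q`, `Q`-good sets and
certificates (weights). Concrete part: monochromatic graphs of a coloured graph, strong adjacency.
-/

set_option autoImplicit false

namespace Pool.Agent.MP5f1228

open Finset

/-- `S` spans a connected (possibly empty) subgraph of `Γ`. -/
def Conn {V : Type} (Γ : SimpleGraph V) (S : Finset V) : Prop :=
  (Γ.induce (S : Set V)).Preconnected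

/-- `S` is a clique of `Γ`. -/
def Clq {V : Type} (Γ : SimpleGraph V) (S : Finset V) : Prop :=
  ∀ v ∈ S, ∀ w ∈ S, v ≠ w → Γ.Adj v w

/-- `Y` is `Q`-good for the colours in `σ`: it is the disjoint union of sets `W i` (`i ∈ σ`) such
that `W i` is connected in `Γ i` and is empty or meets `Q i`. -/
def Good {ι V : Type} [DecidableEq V] (Γ : ι → SimpleGraph V) (Q : ι → Finset V)
    (σ : Finset ι) (Y : Finset V) : Prop :=
  ∃ W : ι → Finset V, (∀ i ∈ σ, Conn (Γ i) (W i) ∧ (W i = ∅ ∨ (W i ∩ Q i).Nonempty)) ∧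
    (∀ i ∈ σ, ∀ j ∈ σ, i ≠ j → Disjoint (W i) (W j)) ∧ σ.biUnion W = Y

/-- admissible clique tuples: `Q i` is a clique of `Γ i` consisting of active vertices. -/
def Adm {ι V : Type} (Γ : ι → SimpleGraph V) (Act : ι → Finset V) (σ : Finset ι)
    (Q : ι → Finset V) : Prop :=
  ∀ i ∈ σ, Q i ⊆ Act i ∧ Clq (Γ i) (Q i)

/-- the vertices of `Y` not covered by the cliques `Q i`, `i ∈ σ`. -/
def unc {ι V : Type} [DecidableEq V] (Q : ι → Finset V) (σ : Finset ι) (Y : Finset V) : Finset V :=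
  Y.filter (fun v => ∀ i ∈ σ, v ∉ Q i)

/-- Certificates: for every set `Y` there are weights of total mass at most `c`, with support of
size at most `N`, such that every admissible clique tuple for which `Y` is not good misses weight
at least `1` in `Y`. -/
def Cert {ι V : Type} [Fintype V] [DecidableEq V] (Γ : ι → SimpleGraph V) (Act : ι → Finset V)
    (σ : Finset ι) (c : ℝ) (N : ℕ) : Prop :=
  ∀ Y : Finset V, ∃ w : V → ℝ, (∀ v, 0 ≤ w v) ∧ ∑ v, w v ≤ c ∧
    (univ.filter (fun v => w v ≠ 0)).card ≤ N ∧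
    ∀ Q : ι → Finset V, Adm Γ Act σ Q → ¬ Good Γ Q σ Y → 1 ≤ ∑ v ∈ unc Q σ Y, w v

/-- Chain certificates: the same for all initial segments `{v ∈ Y : o v < t}` at once. -/
def CCert {ι V : Type} [Fintype V] [DecidableEq V] (Γ : ι → SimpleGraph V) (Act : ι → Finset V)
    (σ : Finset ι) (c : ℝ) (N : ℕ) : Prop :=
  ∀ (Y : Finset V) (o : V → ℕ), ∃ w : V → ℝ, (∀ v, 0 ≤ w v) ∧ ∑ v, w v ≤ c ∧
    (univ.filter (fun v => w v ≠ 0)).card ≤ N ∧
    ∀ (t : ℕ) (Q : ι → Finset V), Adm Γ Act σ Q →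
      ¬ Good Γ Q σ (Y.filter (fun v => o v < t)) →
      1 ≤ ∑ v ∈ unc Q σ (Y.filter (fun v => o v < t)), w v

/-- the constants: 2, 4, 8, 26, 104, 416, ... (`T 0 = 1`). -/
def T : ℕ → ℕ
  | 0 => 1
  | 1 => 2
  | 2 => 4
  | 3 => 8
  | 4 => 26
  | (k + 5) => 4 * T (k + 4)

/-! ### coloured graphs -/

/-- the graph formed by the edges of colour `i`. -/
def mono {V : Type} {r : ℕ} (G : SimpleGraph V) (c : Sym2 V → Fin r) (i : Fin r) :
    SimpleGraph V where
  Adj v w := G.Adj v w ∧ c s(v, w) = i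
  symm := ⟨fun v w h => ⟨h.1.symm, by rw [Sym2.eq_swap]; exact h.2⟩⟩
  loopless := ⟨fun v h => G.loopless.irrefl v h.1⟩

/-- neighbours of `v` in colour `i`. -/
noncomputable def Nb {V : Type} [Fintype V] [DecidableEq V] {r : ℕ} (G : SimpleGraph V)
    (c : Sym2 V → Fin r) (i : Fin r) (v : V) : Finset V :=
  by classical exact univ.filter (fun w => (mono G c i).Adj v w)

/-- vertices with at least `b` neighbours in colour `i`. -/
noncomputable def ActG {V : Type} [Fintype V] [DecidableEq V] {r : ℕ} (G : SimpleGraph V)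
    (c : Sym2 V → Fin r) (b : ℕ) (i : Fin r) : Finset V :=
  univ.filter (fun v => b ≤ (Nb G c i v).card)

/-- strong adjacency in colour `i`: distinct active vertices with at least `t` common neighbours
in colour `i`. -/
def Str {V : Type} [Fintype V] [DecidableEq V] {r : ℕ} (G : SimpleGraph V)
    (c : Sym2 V → Fin r) (b t : ℕ) (i : Fin r) : SimpleGraph V where
  Adj v w := v ≠ w ∧ v ∈ ActG G c b i ∧ w ∈ ActG G c b i ∧ t ≤ (Nb G c i v ∩ Nb G c i w).card
  symm := ⟨fun v w h => ⟨h.1.symm, h.2.2.1, h.2.1, by rw [inter_comm]; exact h.2.2.2⟩⟩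
  loopless := ⟨fun v h => h.1 rfl⟩

end Pool.Agent.MP5f1228
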