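import Mathlib

/-!
# MP_5f1228_co: basic definitions for the 2^(-r)/poly(r) threshold (partition version)

`V` is the (finite) vertex set, `N i u v` says that `uv` is an edge of colour `i`.
Everything is classical.  We use predicates `P : V → Prop` for vertex subsets in
connectivity statements and `Finset V` for everything that is counted.
-/

open scoped Classical
open Finset

namespace Pool.Agent.MP5f1228B

/-- `Con A P u v`: there is an `A`-path from `u` to `v` all of whose vertices, except possibly the
starting vertex `u`, satisfy `P`. -/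
def Con {V : Type} (A : V → V → Prop) (P : V → Prop) (u v : V) : Prop :=
  Relation.ReflTransGen (fun a b => A a b ∧ P b) u v

namespace Con

variable {V : Type} {A A' : V → V → Prop} {P P' : V → Prop} {u v w : V}

theorem refl (u : V) : Con A P u u := Relation.ReflTransGen.refl

theorem trans (h : Con A P u v) (h' : Con A P v w) : Con A P u w :=
  Relation.ReflTransGen.trans h h'

theorem single (h : A u v) (hv : P v) : Con A P u v := Relation.ReflTransGen.single ⟨h, hv⟩

theorem tail (h : Con A P u v) (h' : A v w) (hw : P w) : Con A P u w :=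
  Relation.ReflTransGen.tail h ⟨h', hw⟩

theorem head (h : A u v) (hv : P v) (h' : Con A P v w) : Con A P u w :=
  Relation.ReflTransGen.head ⟨h, hv⟩ h'

theorem mono (hA : ∀ a b, A a b → A' a b) (hP : ∀ a, P a → P' a) (h : Con A P u v) :
    Con A' P' u v := by
  induction h with
  | refl => exact refl _
  | @tail b c hb hc ih => exact tail ih (hA _ _ hc.1) (hP _ hc.2)

theorem monoP (hP : ∀ a, P a → P' a) (h : Con A P u v) : Con A P' u v :=
  mono (fun _ _ h => h) hP h

/-- the end vertex of a path satisfies `P` unless it is the starting vertex -/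
theorem end_mem (h : Con A P u v) : v = u ∨ P v := by
  cases h with
  | refl => exact Or.inl rfl
  | tail _ h => exact Or.inr h.2

theorem end_mem' (h : Con A P u v) (hu : P u) : P v := by
  rcases end_mem h with h | h
  · exact h ▸ hu
  · exact h

theorem symm (hA : ∀ a b, A a b → A b a) (hu : P u) (h : Con A P u v) : Con A P v u := by
  induction h with
  | refl => exact refl _
  | @tail b c hb hc ih =>
    exact head (hA _ _ hc.1) (end_mem' (show Con A P u b from hb) hu) ih

/-- a path from inside `S` to outside `S` uses an exit edge -/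
theorem exit (S : V → Prop) (h : Con A P u v) (hu : S u) (hv : ¬ S v) :
    ∃ a b, S a ∧ ¬ S b ∧ A a b ∧ P b ∧ Con A P u a := by
  induction h with
  | refl => exact absurd hu hv
  | @tail b c hb hc ih =>
    by_cases hS : S b
    · exact ⟨b, c, hS, hv, hc.1, hc.2, hb⟩
    · exact ih hS

/-- a path inside `P` starting in the component of `u` stays in the component -/
theorem comp (h : Con A P u v) :
    Con A (fun w => P w ∧ Con A P u w) u v := by
  induction h with
  | refl => exact refl _
  | @tail b c hb hc ih =>
    exact tail ih hc.1 ⟨hc.2, tail hb hc.1 hc.2⟩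

end Con

section Data

variable {V : Type} [Fintype V] {r : ℕ} (N : Fin r → V → V → Prop) (T E : ℕ)

/-- the colour-`i` neighbourhood -/
noncomputable def nb (i : Fin r) (v : V) : Finset V := univ.filter (fun x => N i v x)

/-- vertices of colour-`i` degree at least `T` -/
def Zr (i : Fin r) (v : V) : Prop := T ≤ (nb N i v).card

/-- robust adjacency in colour `i`: at least `E` common colour-`i` neighbours -/
def Rob (i : Fin r) (u v : V) : Prop := u ≠ v ∧ E ≤ (nb N i u ∩ nb N i v).card

omit T E in
theorem mem_nb {i : Fin r} {v x : V} : x ∈ nb N i v ↔ N i v x := by simp [nb]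

omit T in
theorem Rob.symm {i : Fin r} {u v : V} (h : Rob N E i u v) : Rob N E i v u :=
  ⟨h.1.symm, by rw [inter_comm]; exact h.2⟩

end Data

/-- `J` is a set of pairwise non-`A`-adjacent vertices -/
def Indep {V : Type} (A : V → V → Prop) (J : Finset V) : Prop :=
  ∀ u ∈ J, ∀ v ∈ J, u ≠ v → ¬ A u v

/-- `K` is `lam`-robust: it stays connected after the removal of fewer than `lam` vertices -/
def Robust {V : Type} (A : V → V → Prop) (K : V → Prop) (lam : ℕ) : Prop :=
  ∀ F : Finset V, F.card < lam → ∀ u v, K u → u ∉ F → K v → v ∉ F →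
    Con A (fun w => K w ∧ w ∉ F) u v

/-- overwrite `g` on `p` with the value `a` -/
noncomputable def upd {V W : Type} (g : V → W) (p : Finset V) (a : W) : V → W :=
  fun v => if v ∈ p then a else g v

/-- the vertices of `K` outside `P` whose label is `(i, s)` with `s < t`, and the root `ρ`:
the set after `t` layers -/
def Yl {V : Type} {r ℓ : ℕ} (K : V → Prop) (P : Finset V) (ρ : V) (i : Fin r)
    (g : V → Fin r × Fin (ℓ + 1)) (t : ℕ) (v : V) : Prop :=
  v = ρ ∨ (K v ∧ v ∉ P ∧ (g v).1 = i ∧ ((g v).2 : ℕ) < t)

/-- `Y` dominates `K` -/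
def Dom {V : Type} (A : V → V → Prop) (K Y : V → Prop) : Prop :=
  ∀ v, K v → Y v ∨ ∃ y, Y y ∧ A v y

/-- some component of `Y` is not all of `Y` and is joined in `Y'` to no other vertex of `Y` -/
def Stuck {V : Type} (A : V → V → Prop) (Y Y' : V → Prop) : Prop :=
  ∃ u, Y u ∧ (∃ v, Y v ∧ ¬ Con A Y u v) ∧ ∀ v, Y v → ¬ Con A Y u v → ¬ Con A Y' u v

end Pool.Agent.MP5f1228B
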