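import Mathlib

/-!
# MP_5f1228_co: random order inequality (RO)

`tt A R S` is the probability that an additional vertex, inserted at a random place into a random
order of `R`, comes before the set of arrived vertices (with `S` present from the beginning) has the
property `A`. `ee att R S` is the probability that in a random order of `R` (with `S` present) every
vertex `z` satisfies `att (set before z) z`.

Main results: `one_le_sum_tt` (if `Y` is not good then the expected number of unattached vertices is
at least `1`) and `ee_le_half` (then all vertices are attached with probability at most `1 / 2`).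
-/

set_option autoImplicit false

namespace Pool.Agent.MP5f1228.RO

open Finset

variable {V : Type*} [DecidableEq V]

open Classical in
noncomputable def tt (A : Finset V → Prop) (R S : Finset V) : ℝ :=
  if A S then 0 else (1 + ∑ y ∈ R.attach, tt A (R.erase y.1) (insert y.1 S)) / (R.card + 1)
termination_by R.card
decreasing_by exact Finset.card_erase_lt_of_mem y.2

theorem tt_of (A : Finset V → Prop) (R : Finset V) {S : Finset V} (h : A S) : tt A R S = 0 := by
  rw [tt, if_pos h]

theorem tt_of_not (A : Finset V → Prop) (R : Finset V) {S : Finset V} (h : ¬ A S) :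
    ((R.card : ℝ) + 1) * tt A R S = 1 + ∑ y ∈ R, tt A (R.erase y) (insert y S) := by
  rw [tt, if_neg h, sum_attach R (fun y => tt A (R.erase y) (insert y S))]
  field_simp

theorem tt_nonneg (A : Finset V → Prop) (R S : Finset V) : 0 ≤ tt A R S := by
  induction hn : R.card using Nat.strong_induction_on generalizing R S with
  | _ n ih =>
    by_cases h : A S
    · rw [tt_of A R h]
    · have h1 := tt_of_not A R h
      have h2 : 0 ≤ ∑ y ∈ R, tt A (R.erase y) (insert y S) := by
        refine sum_nonneg fun y hy => ih _ ?_ _ _ rfl
        rw [← hn]
        exact card_erase_lt_of_mem hy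
      have h3 : (0 : ℝ) < (R.card : ℝ) + 1 := by positivity
      by_contra h4
      push Not at h4
      have := mul_neg_of_pos_of_neg h3 h4
      linarith

/-- a larger present set makes `tt` smaller -/
theorem tt_mono {A : Finset V → Prop} (hA : ∀ S T, S ⊆ T → A S → A T) (R : Finset V)
    {S S' : Finset V} (h : S ⊆ S') : tt A R S' ≤ tt A R S := by
  induction hn : R.card using Nat.strong_induction_on generalizing R S S' with
  | _ n ih =>
    by_cases h' : A S'
    · rw [tt_of A R h']
      exact tt_nonneg _ _ _
    · have h0 : ¬ A S := fun h1 => h' (hA _ _ h h1)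
      have h1 := tt_of_not A R h'
      have h2 := tt_of_not A R h0
      have h3 : ∑ y ∈ R, tt A (R.erase y) (insert y S') ≤
          ∑ y ∈ R, tt A (R.erase y) (insert y S) := by
        refine sum_le_sum fun y hy => ih _ ?_ _ (insert_subset_insert y h) rfl
        rw [← hn]
        exact card_erase_lt_of_mem hy
      have h4 : (0 : ℝ) < (R.card : ℝ) + 1 := by positivity
      nlinarith

theorem tt_congr_insert {A : Finset V → Prop} (hA : ∀ S T, S ⊆ T → A S → A T) (R : Finset V)
    (u : V) (S : Finset V) : tt A R (insert u S) ≤ tt A R S :=
  tt_mono hA R (subset_insert u S)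

/-- conditioning on the last vertex -/
theorem sum_tt_le (A : Finset V → Prop) (R S : Finset V) :
    ∑ y ∈ R, tt A (R.erase y) S ≤ ((R.card : ℝ) + 1) * tt A R S := by
  induction hn : R.card using Nat.strong_induction_on generalizing R S with
  | _ n ih =>
    by_cases h : A S
    · rw [tt_of A R h, mul_zero]
      exact le_of_eq (sum_eq_zero fun y _ => tt_of A _ h)
    · rw [← hn, tt_of_not A R h]
      rcases R.eq_empty_or_nonempty with rfl | hne
      · simp
      have hc : (0 : ℝ) < R.card := by exact_mod_cast hne.card_pos
      have h1 : ∀ y ∈ R, (R.card : ℝ) * tt A (R.erase y) S =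
          1 + ∑ z ∈ R.erase y, tt A ((R.erase y).erase z) (insert z S) := by
        intro y hy
        have := tt_of_not A (R.erase y) h
        rw [card_erase_of_mem hy, Nat.cast_sub (card_pos.2 ⟨y, hy⟩)] at this
        simpa using this
      have h2 : (R.card : ℝ) * ∑ y ∈ R, tt A (R.erase y) S =
          R.card + ∑ z ∈ R, ∑ y ∈ R.erase z, tt A ((R.erase z).erase y) (insert z S) := by
        rw [mul_sum, sum_congr rfl h1, sum_add_distrib, sum_const, nsmul_eq_mul, mul_one]
        congr 1
        rw [sum_comm' (s := R) (t := fun y => R.erase y) (t' := R) (s' := fun z => R.erase z)]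
        · refine sum_congr rfl fun z _ => sum_congr rfl fun y _ => ?_
          rw [erase_right_comm]
        · intro x y
          simp only [mem_erase]
          constructor
          · rintro ⟨h1, h2, h3⟩
            exact ⟨⟨fun e => h2 e.symm, h1⟩, h3⟩
          · rintro ⟨⟨h1, h2⟩, h3⟩
            exact ⟨h2, fun e => h1 e.symm, h3⟩
      have h3 : ∀ z ∈ R, ∑ y ∈ R.erase z, tt A ((R.erase z).erase y) (insert z S) ≤
          R.card * tt A (R.erase z) (insert z S) := by
        intro z hz
        have := ih (R.erase z).card (by rw [← hn]; exact card_erase_lt_of_mem hz) (R.erase z)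
          (insert z S) rfl
        rw [card_erase_of_mem hz, Nat.cast_sub (card_pos.2 ⟨z, hz⟩)] at this
        simpa using this
      have h4 := sum_le_sum h3
      rw [← mul_sum] at h4
      have h5 : (R.card : ℝ) * ∑ y ∈ R, tt A (R.erase y) S ≤
          R.card * (1 + ∑ z ∈ R, tt A (R.erase z) (insert z S)) := by
        rw [h2]
        linarith
      exact le_of_mul_le_mul_left h5 hc

/-- moving a vertex from the unseen to the present ones -/
theorem tt_shift {A : Finset V → Prop} (hA : ∀ S T, S ⊆ T → A S → A T) (R S : Finset V) {y : V}
    (hy : y ∈ R) : tt A (R.erase y) (insert y S) ≤ tt A R S := by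
  induction hn : R.card using Nat.strong_induction_on generalizing R S with
  | _ n ih =>
    by_cases h' : A (insert y S)
    · rw [tt_of A _ h']
      exact tt_nonneg _ _ _
    have h0 : ¬ A S := fun h1 => h' (hA _ _ (subset_insert y S) h1)
    have h1 := tt_of_not A R h0
    have h2 := tt_of_not A (R.erase y) h'
    rw [card_erase_of_mem hy, Nat.cast_sub (card_pos.2 ⟨y, hy⟩)] at h2
    rw [← add_sum_erase R _ hy] at h1
    have h3 : ∑ z ∈ R.erase y, tt A ((R.erase y).erase z) (insert z (insert y S)) ≤
        ∑ z ∈ R.erase y, tt A (R.erase z) (insert z S) := by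
      refine sum_le_sum fun z hz => ?_
      rw [mem_erase] at hz
      have := ih (R.erase z).card (by rw [← hn]; exact card_erase_lt_of_mem hz.2) (R.erase z)
        (insert z S) (mem_erase.2 ⟨fun e => hz.1 e.symm, hy⟩) rfl
      rwa [erase_right_comm, insert_comm] at this
    have h4 : (0 : ℝ) < (R.card : ℝ) + 1 := by positivity
    simp only [Nat.cast_one, sub_add_cancel] at h2
    nlinarith

/-! ### the packing argument -/

section packing

variable (G : Finset V → Prop)

/-- `v` is attached by `S` -/
def Att (v : V) (S : Finset V) : Prop := ∃ P ⊆ S.erase v, G P ∧ G (insert v P)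

variable {G}

theorem Att.mono {v : V} {S T : Finset V} (h : S ⊆ T) (hA : Att G v S) : Att G v T := by
  obtain ⟨P, hP, h1⟩ := hA
  exact ⟨P, hP.trans (erase_subset_erase v h), h1⟩

/-- the expected number of unattached vertices of `R` when `S` is present -/
noncomputable def rho (G : Finset V → Prop) (R S : Finset V) : ℝ :=
  ∑ u ∈ R, tt (Att G u) (R.erase u) S

theorem step_cur {u : V} {R S : Finset V} (h : ¬ Att G u S) :
    1 + ∑ y ∈ R, tt (Att G u) ((R.erase y).erase u) (insert y S) ≤
      ((R.card : ℝ) + 1) * tt (Att G u) (R.erase u) S := by
  by_cases hu : u ∈ R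
  · have h1 := tt_of_not (Att G u) (R.erase u) h
    rw [card_erase_of_mem hu, Nat.cast_sub (card_pos.2 ⟨u, hu⟩)] at h1
    simp only [Nat.cast_one, sub_add_cancel] at h1
    rw [← add_sum_erase R _ hu]
    have h2 : tt (Att G u) ((R.erase u).erase u) (insert u S) ≤ tt (Att G u) (R.erase u) S := by
      rw [erase_idem]
      exact tt_mono (fun _ _ => Att.mono) _ (subset_insert u S)
    have h3 : ∑ y ∈ R.erase u, tt (Att G u) ((R.erase y).erase u) (insert y S) =
        ∑ y ∈ R.erase u, tt (Att G u) ((R.erase u).erase y) (insert y S) :=
      sum_congr rfl fun y _ => by rw [erase_right_comm]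
    rw [h3]
    linarith
  · rw [erase_eq_of_notMem hu, tt_of_not (Att G u) R h]
    refine le_of_eq ?_
    congr 1
    refine sum_congr rfl fun y _ => ?_
    rw [erase_eq_of_notMem (fun h1 => hu (mem_of_mem_erase h1))]

theorem step_wait (v : V) (R S : Finset V) :
    ∑ y ∈ R, tt (Att G v) ((R.erase y).erase v) S ≤
      ((R.card : ℝ) + 1) * tt (Att G v) (R.erase v) S := by
  by_cases hu : v ∈ R
  · have h1 := sum_tt_le (Att G v) (R.erase v) S
    rw [card_erase_of_mem hu, Nat.cast_sub (card_pos.2 ⟨v, hu⟩)] at h1
    simp only [Nat.cast_one, sub_add_cancel] at h1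
    rw [← add_sum_erase R _ hu, erase_idem]
    have h3 : ∑ y ∈ R.erase v, tt (Att G v) ((R.erase y).erase v) S =
        ∑ y ∈ R.erase v, tt (Att G v) ((R.erase v).erase y) S :=
      sum_congr rfl fun y _ => by rw [erase_right_comm]
    rw [h3]
    linarith
  · rw [erase_eq_of_notMem hu]
    refine le_trans (le_of_eq ?_) (sum_tt_le (Att G v) R S)
    refine sum_congr rfl fun y _ => ?_
    rw [erase_eq_of_notMem (fun h1 => hu (mem_of_mem_erase h1))]

theorem packing (hU : ∀ S T, G S → G T → Disjoint S T → G (S ∪ T)) {Y : Finset V}
    (hY : ¬ G Y) (R S : Finset V) (u : V) (U I X : Finset V) (hRS : Disjoint R S)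
    (hI : Disjoint I (R ∪ S)) (hsv : ∀ X' ⊆ X, Disjoint X' I → G (I ∪ X'))
    (hcov : I ∪ X ∪ insert u U = Y) (hRY : S ⊆ Y) (hRY' : R ⊆ Y) :
    1 ≤ tt (Att G u) (R.erase u) S + ∑ v ∈ U, tt (Att G v) (R.erase v) ∅ := by
  induction hn : R.card + U.card using Nat.strong_induction_on
    generalizing R S u U I X with
  | _ n ih =>
    by_cases hA : Att G u S
    · -- the current vertex is served
      obtain ⟨P, hPS, hP, hPu⟩ := hA
      rw [tt_of (Att G u) _ ⟨P, hPS, hP, hPu⟩, zero_add]
      have huP : u ∉ P := fun h => (notMem_erase u S) (hPS h)
      have hPS' : P ⊆ S := hPS.trans (erase_subset u S)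
      have hPI : Disjoint I P := hI.mono_right (hPS'.trans subset_union_right)
      have hsv' : ∀ X' ⊆ insert u X, Disjoint X' (I ∪ P) → G (I ∪ P ∪ X') := by
        intro X' hX' hd
        rw [disjoint_union_right] at hd
        have hX'' : X'.erase u ⊆ X := by
          intro x hx
          rw [mem_erase] at hx
          exact (mem_insert.1 (hX' hx.2)).resolve_left hx.1
        have h1 : G (I ∪ X'.erase u) :=
          hsv _ hX'' (hd.1.mono_left (erase_subset u X'))
        by_cases hu : u ∈ X'
        · have h2 : I ∪ P ∪ X' = (I ∪ X'.erase u) ∪ insert u P := by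
            ext x
            simp only [mem_union, mem_erase, mem_insert]
            constructor
            · rintro ((h | h) | h)
              · exact Or.inl (Or.inl h)
              · exact Or.inr (Or.inr h)
              · by_cases hxu : x = u
                · exact Or.inr (Or.inl hxu)
                · exact Or.inl (Or.inr ⟨hxu, h⟩)
            · rintro ((h | ⟨_, h⟩) | (h | h))
              · exact Or.inl (Or.inl h)
              · exact Or.inr h
              · exact Or.inr (h ▸ hu)
              · exact Or.inl (Or.inr h)
          rw [h2]
          refine hU _ _ h1 hPu ?_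
          rw [disjoint_union_left, disjoint_insert_right, disjoint_insert_right]
          exact ⟨⟨fun h => disjoint_left.1 hd.1 hu h, hPI⟩, notMem_erase u X',
            hd.2.mono_left (erase_subset u X')⟩
        · rw [erase_eq_of_notMem hu] at h1
          have h2 : I ∪ P ∪ X' = (I ∪ X') ∪ P := by
            rw [union_assoc, union_comm P X', union_assoc]
          rw [h2]
          refine hU _ _ h1 hP ?_
          rw [disjoint_union_left]
          exact ⟨hPI, hd.2⟩
      by_cases hU' : (U \ P).Nonempty
      · obtain ⟨v, hv⟩ := hU'
        have hvU : v ∈ U := (mem_sdiff.1 hv).1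
        have h1 := ih (R.card + ((U \ P).erase v).card) (by
            rw [← hn]
            have : ((U \ P).erase v).card < U.card :=
              (card_erase_lt_of_mem hv).trans_le (card_le_card sdiff_subset)
            omega) R ∅ v ((U \ P).erase v) (I ∪ P) (insert u X) (disjoint_empty_right R)
            (by
              rw [union_empty, disjoint_union_left]
              exact ⟨hI.mono_right subset_union_left,
                (hRS.mono_right hPS').symm⟩) hsv'
            (by
              rw [insert_erase hv, ← hcov]
              ext x
              simp only [mem_union, mem_insert, mem_sdiff]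
              constructor
              · rintro (((h | h) | (h | h)) | h)
                · exact Or.inl (Or.inl h)
                · have h2 := hRY (hPS' h)
                  rw [← hcov] at h2
                  simpa only [mem_union, mem_insert] using h2
                · exact Or.inr (Or.inl h)
                · exact Or.inl (Or.inr h)
                · exact Or.inr (Or.inr h.1)
              · rintro ((h | h) | (h | h))
                · exact Or.inl (Or.inl (Or.inl h))
                · exact Or.inl (Or.inr (Or.inr h))
                · exact Or.inl (Or.inr (Or.inl h))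
                · by_cases hxP : x ∈ P
                  · exact Or.inl (Or.inl (Or.inr hxP))
                  · exact Or.inr ⟨h, hxP⟩)
            (empty_subset Y) hRY' rfl
        rw [add_sum_erase (U \ P) (fun v => tt (Att G v) (R.erase v) ∅) hv] at h1
        refine h1.trans (sum_le_sum_of_subset_of_nonneg sdiff_subset fun x _ _ => ?_)
        exact tt_nonneg _ _ _
      · exfalso
        rw [not_nonempty_iff_eq_empty, sdiff_eq_empty_iff_subset] at hU'
        refine hY ?_
        have h1 := hsv' (insert u X \ (I ∪ P)) sdiff_subset sdiff_disjoint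
        have h2 : I ∪ P ∪ (insert u X \ (I ∪ P)) = Y := by
          rw [union_sdiff_self_eq_union, ← hcov]
          ext x
          simp only [mem_union, mem_insert]
          constructor
          · rintro ((h | h) | (h | h))
            · exact Or.inl (Or.inl h)
            · have h2 := hRY (hPS' h)
              rw [← hcov] at h2
              simpa only [mem_union, mem_insert] using h2
            · exact Or.inr (Or.inl h)
            · exact Or.inl (Or.inr h)
          · rintro ((h | h) | (h | h))
            · exact Or.inl (Or.inl h)
            · exact Or.inr (Or.inr h)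
            · exact Or.inr (Or.inl h)
            · exact Or.inl (Or.inr (hU' h))
        rwa [h2] at h1
    · -- one more vertex is scanned
      have h1 : ∀ y ∈ R, 1 ≤ tt (Att G u) ((R.erase y).erase u) (insert y S) +
          ∑ v ∈ U, tt (Att G v) ((R.erase y).erase v) ∅ := by
        intro y hy
        have hRS' : (R.erase y) ∪ insert y S = R ∪ S := by
          ext x
          simp only [mem_union, mem_erase, mem_insert]
          constructor
          · rintro (⟨_, h⟩ | (h | h))
            · exact Or.inl h
            · exact Or.inl (h ▸ hy)
            · exact Or.inr h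
          · rintro (h | h)
            · by_cases hxy : x = y
              · exact Or.inr (Or.inl hxy)
              · exact Or.inl ⟨hxy, h⟩
            · exact Or.inr (Or.inr h)
        refine ih ((R.erase y).card + U.card) (by
            rw [← hn]
            have := card_erase_lt_of_mem hy
            omega) (R.erase y) (insert y S) u U I X ?_ (by rwa [hRS']) hsv hcov
            (insert_subset (hRY' hy) hRY) ((erase_subset y R).trans hRY') rfl
        rw [disjoint_insert_right]
        exact ⟨notMem_erase y R, hRS.mono_left (erase_subset y R)⟩
      have h2 := sum_le_sum h1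
      rw [sum_const, nsmul_eq_mul, mul_one, sum_add_distrib, sum_comm] at h2
      have h3 := step_cur (R := R) hA
      have h4 : ∑ v ∈ U, ∑ y ∈ R, tt (Att G v) ((R.erase y).erase v) ∅ ≤
          ((R.card : ℝ) + 1) * ∑ v ∈ U, tt (Att G v) (R.erase v) ∅ := by
        rw [mul_sum]
        exact sum_le_sum fun v _ => step_wait v R ∅
      have h5 : ((R.card : ℝ) + 1) * 1 ≤ ((R.card : ℝ) + 1) *
          (tt (Att G u) (R.erase u) S + ∑ v ∈ U, tt (Att G v) (R.erase v) ∅) := by
        rw [mul_add]
        linarith
      exact le_of_mul_le_mul_left h5 (by positivity)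

/-- If `Y` is not good then the expected number of unattached vertices is at least `1`. -/
theorem one_le_rho (h0 : G ∅) (hU : ∀ S T, G S → G T → Disjoint S T → G (S ∪ T))
    {Y : Finset V} (hY : ¬ G Y) : 1 ≤ rho G Y ∅ := by
  rcases Y.eq_empty_or_nonempty with rfl | ⟨u, hu⟩
  · exact absurd h0 hY
  have h := packing hU hY Y ∅ u (Y.erase u) ∅ ∅ (disjoint_empty_right Y)
    (disjoint_empty_left _) (by
      intro X' hX' _
      rw [subset_empty.1 hX', union_empty]
      exact h0) (by rw [insert_erase hu, empty_union, empty_union]) (empty_subset Y) Subset.rfl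
  rwa [add_sum_erase Y (fun v => tt (Att G v) (Y.erase v) ∅) hu] at h

/-! ### the probability that every vertex is attached at its arrival -/

open Classical in
/-- the probability that in a random order of `R`, with `S` present from the beginning, every
vertex `z` satisfies `att z (set before z)` -/
noncomputable def ee (att : V → Finset V → Prop) (R S : Finset V) : ℝ :=
  if R = ∅ then 1 else
    (∑ y ∈ R.attach, if att y.1 S then ee att (R.erase y.1) (insert y.1 S) else 0) / R.card
termination_by R.card
decreasing_by exact Finset.card_erase_lt_of_mem y.2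

theorem ee_empty (att : V → Finset V → Prop) (S : Finset V) : ee att ∅ S = 1 := by
  rw [ee, if_pos rfl]

open Classical in
theorem ee_eq (att : V → Finset V → Prop) {R : Finset V} (S : Finset V) (h : R.Nonempty) :
    (R.card : ℝ) * ee att R S =
      ∑ y ∈ R, if att y S then ee att (R.erase y) (insert y S) else 0 := by
  rw [ee, if_neg h.ne_empty,
    sum_attach R (fun y => if att y S then ee att (R.erase y) (insert y S) else 0)]
  have : (0 : ℝ) < R.card := by exact_mod_cast h.card_pos
  field_simp

theorem ee_nonneg (att : V → Finset V → Prop) (R S : Finset V) : 0 ≤ ee att R S := by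
  induction hn : R.card using Nat.strong_induction_on generalizing R S with
  | _ n ih =>
    rcases R.eq_empty_or_nonempty with rfl | hne
    · rw [ee_empty]
      exact zero_le_one
    · have h1 := ee_eq att S hne
      have h2 : (0 : ℝ) < R.card := by exact_mod_cast hne.card_pos
      have h3 : 0 ≤ (R.card : ℝ) * ee att R S := by
        rw [h1]
        refine sum_nonneg fun y hy => ?_
        split_ifs
        · exact ih _ (by rw [← hn]; exact card_erase_lt_of_mem hy) _ _ rfl
        · exact le_rfl
      exact nonneg_of_mul_nonneg_right h3 h2

theorem ee_mono {att att' : V → Finset V → Prop} (h : ∀ y S, att y S → att' y S)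
    (R S : Finset V) : ee att R S ≤ ee att' R S := by
  induction hn : R.card using Nat.strong_induction_on generalizing R S with
  | _ n ih =>
    rcases R.eq_empty_or_nonempty with rfl | hne
    · rw [ee_empty, ee_empty]
    · have h1 := ee_eq att S hne
      have h1' := ee_eq att' S hne
      have h2 : (0 : ℝ) < R.card := by exact_mod_cast hne.card_pos
      refine le_of_mul_le_mul_left ?_ h2
      rw [h1, h1']
      refine sum_le_sum fun y hy => ?_
      by_cases ha : att y S
      · rw [if_pos ha, if_pos (h _ _ ha)]
        exact ih _ (by rw [← hn]; exact card_erase_lt_of_mem hy) _ _ rfl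
      · rw [if_neg ha]
        split_ifs
        · exact ee_nonneg _ _ _
        · exact le_rfl

theorem rho_shift (R S : Finset V) {z : V} (hz : z ∈ R) :
    rho G (R.erase z) (insert z S) ≤ rho G R S := by
  unfold rho
  rw [← add_sum_erase R _ hz]
  have h1 : ∑ u ∈ R.erase z, tt (Att G u) ((R.erase z).erase u) (insert z S) ≤
      ∑ u ∈ R.erase z, tt (Att G u) (R.erase u) S := by
    refine sum_le_sum fun u hu => ?_
    rw [mem_erase] at hu
    rw [erase_right_comm]
    exact tt_shift (fun _ _ => Att.mono) _ _ (mem_erase.2 ⟨fun e => hu.1 e.symm, hz⟩)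
  have h2 := tt_nonneg (Att G z) (R.erase z) S
  linarith

open Classical in
theorem rho_step (R S : Finset V) :
    (R.card : ℝ) * rho G R S ≤
      ∑ z ∈ R, ((if Att G z S then 0 else 1) + rho G (R.erase z) (insert z S)) := by
  have h1 : ∀ u ∈ R, (R.card : ℝ) * tt (Att G u) (R.erase u) S ≤ (if Att G u S then 0 else 1) +
      ∑ z ∈ R.erase u, tt (Att G u) ((R.erase u).erase z) (insert z S) := by
    intro u hu
    by_cases h : Att G u S
    · rw [tt_of _ _ h, mul_zero, if_pos h, zero_add]
      exact sum_nonneg fun z _ => tt_nonneg _ _ _
    · have h1 := tt_of_not (Att G u) (R.erase u) h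
      rw [card_erase_of_mem hu, Nat.cast_sub (card_pos.2 ⟨u, hu⟩)] at h1
      simp only [Nat.cast_one, sub_add_cancel] at h1
      rw [h1, if_neg h]
  unfold rho
  rw [mul_sum, sum_add_distrib]
  refine (sum_le_sum h1).trans (le_of_eq ?_)
  rw [sum_add_distrib]
  congr 1
  rw [sum_comm' (s := R) (t := fun u => R.erase u) (t' := R) (s' := fun z => R.erase z)]
  · refine sum_congr rfl fun z _ => sum_congr rfl fun y _ => ?_
    rw [erase_right_comm]
  · intro x y
    simp only [mem_erase]
    constructor
    · rintro ⟨h1, h2, h3⟩
      exact ⟨⟨fun e => h2 e.symm, h1⟩, h3⟩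
    · rintro ⟨⟨h1, h2⟩, h3⟩
      exact ⟨h2, fun e => h1 e.symm, h3⟩

open Classical in
/-- the first failure argument -/
theorem rho_le (R S : Finset V) {r : ℝ} (hr : rho G R S ≤ r) :
    rho G R S ≤ (1 - ee (Att G) R S) * (1 + r) := by
  induction hn : R.card using Nat.strong_induction_on generalizing R S with
  | _ n ih =>
    rcases R.eq_empty_or_nonempty with rfl | hne
    · rw [ee_empty]
      simp [rho]
    · have h2 : (0 : ℝ) < R.card := by exact_mod_cast hne.card_pos
      refine le_of_mul_le_mul_left ?_ h2
      refine (rho_step R S).trans ?_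
      have h3 : (R.card : ℝ) * ((1 - ee (Att G) R S) * (1 + r)) =
          ∑ z ∈ R, (1 + r) * (1 - (if Att G z S then ee (Att G) (R.erase z) (insert z S)
            else 0)) := by
        rw [← mul_sum, sum_sub_distrib, ← ee_eq (Att G) S hne, sum_const, nsmul_eq_mul]
        ring
      rw [h3]
      refine sum_le_sum fun z hz => ?_
      have h4 := (rho_shift (G := G) R S hz).trans hr
      by_cases h : Att G z S
      · rw [if_pos h, if_pos h, zero_add]
        have := ih _ (by rw [← hn]; exact card_erase_lt_of_mem hz) _ _ h4 rfl
        linarith
      · rw [if_neg h, if_neg h]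
        linarith

/-- **(RO)** If `Y` is not good then in a random order of `Y` all vertices are attached at their
arrival with probability at most `1 / 2`. -/
theorem ee_le_half (h0 : G ∅) (hU : ∀ S T, G S → G T → Disjoint S T → G (S ∪ T))
    {Y : Finset V} (hY : ¬ G Y) : ee (Att G) Y ∅ ≤ 1 / 2 := by
  have h1 := one_le_rho h0 hU hY
  have h2 := rho_le (G := G) Y ∅ le_rfl
  nlinarith

end packing

end Pool.Agent.MP5f1228.RO
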