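import Mathlib
import Pool.Agent.Lib.MP_5f1228_co.DefsB

/-!
# MP_5f1228_co, module BCore: removing few vertices makes all components robust
-/

open scoped Classical
open Finset

namespace Pool.Agent.MP5f1228B

/-- `u` and `v` are linked: there is a path from `u` to `v` with interior in `Z \ D`. -/
def BCore_Lk {V : Type} (A : V → V → Prop) (Z : V → Prop) (D : Finset V) (u v : V) : Prop :=
  ∃ w, Con A (fun w => Z w ∧ w ∉ D) u w ∧ A w v

theorem BCore_Lk_symm {V : Type} {A : V → V → Prop} (hA : ∀ a b, A a b → A b a) {Z : V → Prop}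
    {D : Finset V} {u v : V} (h : BCore_Lk A Z D u v) : BCore_Lk A Z D v u := by
  obtain ⟨w, hw, hwv⟩ := h
  have key : ∀ w, Con A (fun w => Z w ∧ w ∉ D) u w → ∀ v, A w v → BCore_Lk A Z D v u := by
    intro w hw
    induction hw with
    | refl => exact fun v hv => ⟨v, Con.refl v, hA _ _ hv⟩
    | @tail b c hb hc ih =>
      intro v hv
      obtain ⟨w', hw', hw'u⟩ := ih c hc.1
      exact ⟨w', Con.head (hA _ _ hv) hc.2 hw', hw'u⟩
  exact key w hw v hwv

theorem BCore_Lk_mono {V : Type} {A : V → V → Prop} {Z : V → Prop} {D D' : Finset V}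
    (hD : D ⊆ D') {u v : V} (h : BCore_Lk A Z D' u v) : BCore_Lk A Z D u v := by
  obtain ⟨w, hw, hwv⟩ := h
  exact ⟨w, Con.monoP (fun a ha => ⟨ha.1, fun h => ha.2 (hD h)⟩) hw, hwv⟩

theorem BCore_Lk_of_con {V : Type} {A : V → V → Prop} {Z : V → Prop} {D : Finset V} {u v : V}
    (hne : u ≠ v) (h : Con A (fun w => Z w ∧ w ∉ D) u v) : BCore_Lk A Z D u v := by
  cases h with
  | refl => exact absurd rfl hne
  | tail h1 h2 => exact ⟨_, h1, h2.1⟩

/-- scattered sets -/
def BCore_sc {V : Type} (A : V → V → Prop) (Z : V → Prop) (D R : Finset V) : Prop :=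
  (∀ u ∈ R, Z u) ∧ ∀ u ∈ R, ∀ v ∈ R, u ≠ v → ¬ BCore_Lk A Z D u v

/-- maximal size of a scattered set -/
noncomputable def BCore_beta {V : Type} [Fintype V] (A : V → V → Prop) (Z : V → Prop)
    (D : Finset V) : ℕ :=
  (univ.filter (fun R : Finset V => BCore_sc A Z D R)).sup card

theorem BCore_le_beta {V : Type} [Fintype V] {A : V → V → Prop} {Z : V → Prop}
    {D R : Finset V} (h : BCore_sc A Z D R) : R.card ≤ BCore_beta A Z D := by
  unfold BCore_beta
  exact le_sup (f := card) (mem_filter.2 ⟨mem_univ _, h⟩)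

theorem BCore_exists {V : Type} [Fintype V] (A : V → V → Prop) (Z : V → Prop) (D : Finset V) :
    ∃ R, BCore_sc A Z D R ∧ R.card = BCore_beta A Z D := by
  have hne : (univ.filter (fun R : Finset V => BCore_sc A Z D R)).Nonempty := by
    refine ⟨∅, mem_filter.2 ⟨mem_univ _, ?_, ?_⟩⟩
    · intro u hu
      exact absurd hu (notMem_empty u)
    · intro u hu
      exact absurd hu (notMem_empty u)
  obtain ⟨R, hR, hRe⟩ := exists_mem_eq_sup _ hne card
  exact ⟨R, (mem_filter.1 hR).2, hRe.symm⟩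

theorem BCore_mono {V : Type} [Fintype V] {A : V → V → Prop} {Z : V → Prop} {D D' : Finset V}
    (hD : D ⊆ D') : BCore_beta A Z D ≤ BCore_beta A Z D' := by
  obtain ⟨R, hR, hRe⟩ := BCore_exists A Z D
  rw [← hRe]
  exact BCore_le_beta ⟨hR.1, fun u hu v hv huv h => hR.2 u hu v hv huv (BCore_Lk_mono hD h)⟩

theorem BCore_step {V : Type} [Fintype V] {A : V → V → Prop} (hA : ∀ a b, A a b → A b a)
    {Z : V → Prop} {D F : Finset V} {u v : V} (hu : Z u) (huD : u ∉ D) (huF : u ∉ F)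
    (hv : Z v) (hvD : v ∉ D) (hvF : v ∉ F)
    (h : Con A (fun w => Z w ∧ w ∉ D) u v)
    (hn : ¬ Con A (fun w => (Z w ∧ w ∉ D) ∧ w ∉ F) u v) :
    BCore_beta A Z D + 1 ≤ BCore_beta A Z (D ∪ F) := by
  obtain ⟨R, hR, hRe⟩ := BCore_exists A Z D
  have huv : u ≠ v := by
    rintro rfl
    exact hn (Con.refl _)
  have hvu : Con A (fun w => Z w ∧ w ∉ D) v u := Con.symm hA ⟨hu, huD⟩ h
  obtain ⟨R', hR'⟩ : ∃ R' : Finset V, R' = R.filter (fun ρ => ρ ≠ u ∧ ¬ BCore_Lk A Z D ρ u) :=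
    ⟨_, rfl⟩
  have hR'1 : ∀ ρ ∈ R', ρ ∈ R ∧ ρ ≠ u ∧ ¬ BCore_Lk A Z D ρ u := by
    intro ρ hρ
    rw [hR', mem_filter] at hρ
    exact hρ
  -- at most one element is removed
  have hcard : R.card ≤ R'.card + 1 := by
    have h1 : (R.filter (fun ρ => ¬ (ρ ≠ u ∧ ¬ BCore_Lk A Z D ρ u))).card ≤ 1 := by
      rw [card_le_one]
      intro a ha b hb
      rw [mem_filter] at ha hb
      by_contra hab
      have ha2 : a = u ∨ BCore_Lk A Z D a u := by
        by_contra hc
        push Not at hc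
        exact ha.2 hc
      have hb2 : b = u ∨ BCore_Lk A Z D b u := by
        by_contra hc
        push Not at hc
        exact hb.2 hc
      rcases ha2 with rfl | ha2
      · rcases hb2 with rfl | hb2
        · exact hab rfl
        · exact hR.2 b hb.1 a ha.1 (Ne.symm hab) hb2
      · rcases hb2 with rfl | hb2
        · exact hR.2 a ha.1 b hb.1 hab ha2
        · obtain ⟨w1, hw1, hw1u⟩ := ha2
          obtain ⟨w2, hw2, hw2b⟩ := BCore_Lk_symm hA hb2
          refine hR.2 a ha.1 b hb.1 hab ⟨w2, ?_, hw2b⟩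
          exact (Con.tail hw1 hw1u ⟨hu, huD⟩).trans hw2
    have h2 := card_filter_add_card_filter_not (s := R)
      (fun ρ => ρ ≠ u ∧ ¬ BCore_Lk A Z D ρ u)
    rw [hR']
    omega
  have hvR' : v ∉ R' := by
    intro hc
    exact (hR'1 v hc).2.2 (BCore_Lk_symm hA (BCore_Lk_of_con huv h))
  have huR' : u ∉ insert v R' := by
    intro hc
    rcases mem_insert.1 hc with hc | hc
    · exact huv hc
    · exact (hR'1 u hc).2.1 rfl
  have hN : (insert u (insert v R')).card = R'.card + 2 := by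
    rw [card_insert_of_notMem huR', card_insert_of_notMem hvR']
  have hsub : D ⊆ D ∪ F := subset_union_left
  -- the pairs
  have p1 : ¬ BCore_Lk A Z (D ∪ F) u v := by
    rintro ⟨w, hw, hwv⟩
    apply hn
    refine Con.tail (Con.monoP (fun a ha => ?_) hw) hwv ⟨⟨hv, hvD⟩, hvF⟩
    rw [mem_union, not_or] at ha
    exact ⟨⟨ha.1, ha.2.1⟩, ha.2.2⟩
  have p2 : ∀ ρ ∈ R', ¬ BCore_Lk A Z (D ∪ F) ρ u := fun ρ hρ hc =>
    (hR'1 ρ hρ).2.2 (BCore_Lk_mono hsub hc)
  have p3 : ∀ ρ ∈ R', ¬ BCore_Lk A Z (D ∪ F) ρ v := by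
    intro ρ hρ hc
    obtain ⟨w, hw, hwv⟩ := BCore_Lk_mono hsub hc
    refine (hR'1 ρ hρ).2.2 (BCore_Lk_of_con (hR'1 ρ hρ).2.1 ?_)
    exact (Con.tail hw hwv ⟨hv, hvD⟩).trans hvu
  have hsc : BCore_sc A Z (D ∪ F) (insert u (insert v R')) := by
    refine ⟨?_, ?_⟩
    · intro a ha
      rcases mem_insert.1 ha with rfl | ha
      · exact hu
      · rcases mem_insert.1 ha with rfl | ha
        · exact hv
        · exact hR.1 a (hR'1 a ha).1
    · intro a ha b hb hab hc
      rw [mem_insert, mem_insert] at ha hb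
      rcases ha with ha | ha | ha
      · rcases hb with hb | hb | hb
        · exact hab (ha.trans hb.symm)
        · rw [ha, hb] at hc
          exact p1 hc
        · rw [ha] at hc
          exact p2 b hb (BCore_Lk_symm hA hc)
      · rcases hb with hb | hb | hb
        · rw [ha, hb] at hc
          exact p1 (BCore_Lk_symm hA hc)
        · exact hab (ha.trans hb.symm)
        · rw [ha] at hc
          exact p3 b hb (BCore_Lk_symm hA hc)
      · rcases hb with hb | hb | hb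
        · rw [hb] at hc
          exact p2 a ha hc
        · rw [hb] at hc
          exact p3 a ha hc
        · exact hR.2 a (hR'1 a ha).1 b (hR'1 b hb).1 hab (BCore_Lk_mono hsub hc)
  have h3 := BCore_le_beta hsc
  rw [hN] at h3
  omega

theorem exists_core {V : Type} [Fintype V] {r : ℕ} (A : Fin r → V → V → Prop)
    (hA : ∀ i a b, A i a b → A i b a) (Z : Fin r → V → Prop) (α lam : ℕ)
    (hα : ∀ i, ∀ J : Finset V, (∀ u ∈ J, Z i u) → Indep (A i) J → J.card ≤ α) :
    ∃ D : Finset V, D.card ≤ lam * r * α ∧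
      ∀ i, ∀ F : Finset V, F.card < lam → ∀ u v, Z i u → u ∉ D → u ∉ F → Z i v → v ∉ D → v ∉ F →
        Con (A i) (fun w => Z i w ∧ w ∉ D) u v →
        Con (A i) (fun w => (Z i w ∧ w ∉ D) ∧ w ∉ F) u v := by
  have hβ : ∀ i (D : Finset V), BCore_beta (A i) (Z i) D ≤ α := by
    intro i D
    obtain ⟨R, hR, hRe⟩ := BCore_exists (A i) (Z i) D
    rw [← hRe]
    refine hα i R hR.1 fun u hu v hv huv hc => ?_
    exact hR.2 u hu v hv huv ⟨u, Con.refl u, hc⟩
  obtain ⟨D, -, hD⟩ := exists_max_image (univ : Finset (Finset V))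
    (fun D => (lam : ℤ) * ∑ i, (BCore_beta (A i) (Z i) D : ℤ) - (D.card : ℤ)) ⟨∅, mem_univ _⟩
  refine ⟨D, ?_, ?_⟩
  · have h1 := hD ∅ (mem_univ _)
    rw [card_empty] at h1
    have h2 : (0 : ℤ) ≤ (lam : ℤ) * ∑ i, (BCore_beta (A i) (Z i) ∅ : ℤ) := by positivity
    have h3 : ∑ i, (BCore_beta (A i) (Z i) D : ℤ) ≤ r * α := by
      calc ∑ i, (BCore_beta (A i) (Z i) D : ℤ) ≤ ∑ _i : Fin r, (α : ℤ) :=
            sum_le_sum fun i _ => by exact_mod_cast hβ i D
        _ = r * α := by rw [sum_const, card_univ, Fintype.card_fin, nsmul_eq_mul]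
    have h4 : (lam : ℤ) * ∑ i, (BCore_beta (A i) (Z i) D : ℤ) ≤ lam * (r * α) :=
      mul_le_mul_of_nonneg_left h3 (by positivity)
    have h5 : (D.card : ℤ) ≤ lam * (r * α) := by
      push_cast at h1
      linarith
    have h6 : (D.card : ℤ) ≤ ((lam * r * α : ℕ) : ℤ) := by
      push_cast
      linarith
    exact_mod_cast h6
  · intro i F hF u v hu huD huF hv hvD hvF h
    by_contra hn
    have h1 := BCore_step (hA i) hu huD huF hv hvD hvF h hn
    have h2 := hD (D ∪ F) (mem_univ _)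
    have h3 : (∑ k, (BCore_beta (A k) (Z k) D : ℤ)) + 1 ≤
        ∑ k, (BCore_beta (A k) (Z k) (D ∪ F) : ℤ) := by
      rw [← add_sum_erase univ _ (mem_univ i),
        ← add_sum_erase univ (fun k => (BCore_beta (A k) (Z k) (D ∪ F) : ℤ)) (mem_univ i)]
      have h4 : ∑ k ∈ univ.erase i, (BCore_beta (A k) (Z k) D : ℤ) ≤
          ∑ k ∈ univ.erase i, (BCore_beta (A k) (Z k) (D ∪ F) : ℤ) :=
        sum_le_sum fun k _ => by exact_mod_cast BCore_mono subset_union_left
      have h5 : (BCore_beta (A i) (Z i) D : ℤ) + 1 ≤ (BCore_beta (A i) (Z i) (D ∪ F) : ℤ) := by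
        exact_mod_cast h1
      linarith
    have h4 : ((D ∪ F).card : ℤ) ≤ D.card + F.card := by exact_mod_cast card_union_le D F
    have h5 : (F.card : ℤ) < lam := by exact_mod_cast hF
    have h6 : (lam : ℤ) * ((∑ k, (BCore_beta (A k) (Z k) D : ℤ)) + 1) ≤
        lam * ∑ k, (BCore_beta (A k) (Z k) (D ∪ F) : ℤ) :=
      mul_le_mul_of_nonneg_left h3 (by positivity)
    linarith

end Pool.Agent.MP5f1228B
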