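import Mathlib
import Pool.Agent.Lib.MP_5f1228_co.Defs

/-!
# MP_5f1228_co, module IND: independent sets of active vertices are bounded
-/

set_option autoImplicit false

namespace Pool.Agent.MP5f1228

open Finset

theorem ind_sum {α β : Type} [DecidableEq α] [DecidableEq β] (f : α → Finset β) (t : ℕ)
    (S : Finset α) (h : ∀ v ∈ S, ∀ w ∈ S, v ≠ w → (f v ∩ f w).card ≤ t) :
    ∑ v ∈ S, (f v).card ≤ (S.biUnion f).card + S.card ^ 2 * t := by
  induction S using Finset.induction_on with
  | empty => simp
  | @insert a S ha ih =>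
    have h1 := ih fun v hv w hw => h v (mem_insert_of_mem hv) w (mem_insert_of_mem hw)
    rw [sum_insert ha, biUnion_insert, card_insert_of_notMem ha]
    have h2 : (f a ∩ S.biUnion f).card ≤ S.card * t := by
      rw [inter_biUnion]
      refine card_biUnion_le_card_mul _ _ _ fun w hw => ?_
      refine h a (mem_insert_self _ _) w (mem_insert_of_mem hw) ?_
      rintro rfl
      exact ha hw
    have h3 := card_union_add_card_inter (f a) (S.biUnion f)
    have h4 : (S.card + 1) ^ 2 * t = S.card ^ 2 * t + 2 * (S.card * t) + t := by ring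
    omega

/-! ### module IND (Ind.lean) -/
theorem indep_bound {V : Type} [Fintype V] [DecidableEq V] {r : ℕ} (G : SimpleGraph V)
    (c : Sym2 V → Fin r) {b t M : ℕ} (hM : Fintype.card V + (M + 1) ^ 2 * t < (M + 1) * b)
    (i : Fin r) (S : Finset V) (hS : S ⊆ ActG G c b i)
    (hind : ∀ v ∈ S, ∀ w ∈ S, ¬ (Str G c b t i).Adj v w) : S.card ≤ M := by
  classical
  by_contra hcon
  push Not at hcon
  obtain ⟨S', hS', hcard⟩ := exists_subset_card_eq (show M + 1 ≤ S.card by omega)
  have h1 := ind_sum (fun v => Nb G c i v) t S' (by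
    intro v hv w hw hvw
    by_contra hc
    push Not at hc
    exact hind v (hS' hv) w (hS' hw) ⟨hvw, hS (hS' hv), hS (hS' hw), hc.le⟩)
  rw [hcard] at h1
  have h2 : (S'.biUnion (fun v => Nb G c i v)).card ≤ Fintype.card V := card_le_univ _
  have h3 : (M + 1) * b ≤ ∑ v ∈ S', (Nb G c i v).card := by
    rw [← hcard, ← smul_eq_mul]
    refine card_nsmul_le_sum _ _ _ fun v hv => ?_
    have := hS (hS' hv)
    unfold ActG at this
    rw [mem_filter] at this
    exact this.2
  omega

end Pool.Agent.MP5f1228
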