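import Mathlib
import Pool.Agent.Lib.MP_5f1228_co.Defs

/-!
# MP_5f1228_co, module EXT: small connected dominating sets
-/

set_option autoImplicit false

namespace Pool.Agent.MP5f1228

open Finset

theorem ext_insert {V : Type} [DecidableEq V] {Γ : SimpleGraph V} {C : Finset V} (h : Conn Γ C)
    {x y : V} (hx : x ∈ C) (hxy : Γ.Adj x y) : Conn Γ (insert y C) := by
  have h1 := SimpleGraph.induce_union_connected (s := (C : Set V)) (t := {x, y}) h
    (SimpleGraph.induce_pair_connected_of_adj hxy).preconnected ⟨x, hx, Set.mem_insert _ _⟩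
  have h2 : ((insert y C : Finset V) : Set V) = (C : Set V) ∪ {x, y} := by
    ext z
    simp only [coe_insert, Set.mem_insert_iff, mem_coe, Set.mem_union, Set.mem_singleton_iff]
    constructor
    · rintro (h | h)
      · exact Or.inr (Or.inr h)
      · exact Or.inl h
    · rintro (h | h | h)
      · exact Or.inr h
      · exact Or.inr (h ▸ hx)
      · exact Or.inl h
  unfold Conn
  rw [h2]
  exact h1.preconnected

/-- the pairs used in the extremal argument -/
def ExtP {V : Type} (Γ : SimpleGraph V) (W : Finset V) (p : Finset V × Finset V) : Prop :=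
  p.1 ⊆ W ∧ Conn Γ p.1 ∧ p.2 ⊆ p.1 ∧ (∀ v ∈ p.2, ∀ w ∈ p.2, ¬ Γ.Adj v w) ∧
    p.1.card + 1 ≤ 2 * p.2.card

theorem exists_dom {V : Type} [Fintype V] [DecidableEq V] (Γ : SimpleGraph V) {M : ℕ}
    (W : Finset V) (hW : Conn Γ W)
    (hM : ∀ S : Finset V, S ⊆ W → (∀ v ∈ S, ∀ w ∈ S, ¬ Γ.Adj v w) → S.card ≤ M) :
    ∃ W0 ⊆ W, Conn Γ W0 ∧ W0.card ≤ 2 * M ∧
      ∀ v ∈ W, v ∈ W0 ∨ ∃ u ∈ W0, Γ.Adj v u := by
  classical
  rcases W.eq_empty_or_nonempty with rfl | ⟨x, hx⟩
  · exact ⟨∅, Subset.rfl, hW, by simp, by simp⟩
  · have hne : (univ.filter (fun p : Finset V × Finset V => ExtP Γ W p)).Nonempty := by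
      refine ⟨({x}, {x}), ?_⟩
      rw [mem_filter]
      refine ⟨mem_univ _, by simpa using hx, ?_, Subset.rfl, ?_, by simp⟩
      · intro a b
        have ha : a = b := by
          apply Subtype.ext
          have h1 := a.2
          have h2 := b.2
          simp only [coe_singleton, Set.mem_singleton_iff] at h1 h2
          rw [h1, h2]
        rw [ha]
      · intro v hv w hw
        rw [mem_singleton] at hv hw
        rw [hv, hw]
        exact Γ.loopless.irrefl x
    obtain ⟨⟨W0, S⟩, hp, hmax⟩ := exists_max_image _ (fun p => p.2.card) hne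
    rw [mem_filter] at hp
    obtain ⟨-, hW0, hc, hS, hind, hcard⟩ := hp
    simp only at hW0 hc hS hind hcard
    refine ⟨W0, hW0, hc, ?_, ?_⟩
    · have := hM S (hS.trans hW0) hind
      omega
    · intro v hv
      by_contra hcon
      push Not at hcon
      have hSne : S.Nonempty := by
        rw [← card_pos]; omega
      obtain ⟨s, hs⟩ := hSne
      have hsW : s ∈ W := hW0 (hS hs)
      obtain ⟨p⟩ := hW ⟨s, hsW⟩ ⟨v, hv⟩
      obtain ⟨d, -, hd1, hd2⟩ := p.exists_boundary_dart
        {z : (W : Set V) | (z : V) ∈ W0 ∨ ∃ u ∈ W0, Γ.Adj z u} (Or.inl (hS hs)) (by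
          rintro (h | ⟨u, hu, huv⟩)
          · exact hcon.1 h
          · exact hcon.2 u hu huv)
      have hadj : Γ.Adj (d.fst : V) (d.snd : V) := d.adj
      have hn1 : (d.snd : V) ∉ W0 := fun h => hd2 (Or.inl h)
      have hn2 : ∀ u ∈ W0, ¬ Γ.Adj (d.snd : V) u := fun u hu h => hd2 (Or.inr ⟨u, hu, h⟩)
      rcases hd1 with h | ⟨a, ha, hau⟩
      · exact hn2 _ h hadj.symm
      · have hfW : (d.fst : V) ∈ W := d.fst.2
        have hsW' : (d.snd : V) ∈ W := d.snd.2
        have h1 : ExtP Γ W (insert (d.snd : V) (insert (d.fst : V) W0), insert (d.snd : V) S) := by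
          refine ⟨?_, ?_, ?_, ?_, ?_⟩
          · exact insert_subset hsW' (insert_subset hfW hW0)
          · exact ext_insert (ext_insert hc ha hau.symm) (mem_insert_self _ _) hadj
          · exact insert_subset_insert _ (hS.trans (subset_insert _ _))
          · intro y hy z hz
            rw [mem_insert] at hy hz
            rcases hy with rfl | hy
            · rcases hz with rfl | hz
              · exact Γ.loopless.irrefl _
              · exact hn2 z (hS hz)
            · rcases hz with rfl | hz
              · exact fun h => hn2 y (hS hy) h.symm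
              · exact hind y hy z hz
          · have h2 : (d.snd : V) ∉ S := fun h => hn1 (hS h)
            have h3 := card_insert_le (d.snd : V) (insert (d.fst : V) W0)
            have h4 := card_insert_le (d.fst : V) W0
            simp only
            rw [card_insert_of_notMem h2]
            omega
        have h5 := hmax _ (mem_filter.2 ⟨mem_univ _, h1⟩)
        have h2 : (d.snd : V) ∉ S := fun h => hn1 (hS h)
        simp only at h5
        rw [card_insert_of_notMem h2] at h5
        omega

end Pool.Agent.MP5f1228
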