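import Mathlib
import Pool.Agent.Lib.MP_5f1228_co.Defs

/-!
# MP_5f1228_co: choice of the parameters
-/

set_option autoImplicit false

namespace Pool.Agent.MP5f1228

open Finset Filter

/-- exponential beats polynomial -/
theorem num_exp (r c : ℕ) (hr : 1 ≤ r) :
    ∀ᶠ m : ℕ in atTop, r * ((m + c + 1) ^ 2) ^ 2 * (r - 1) ^ m < r ^ m := by
  rcases Nat.eq_or_lt_of_le hr with h1 | h2
  · subst h1
    filter_upwards [eventually_ge_atTop 1] with m hm
    have : (1 - 1 : ℕ) ^ m = 0 := by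
      rw [Nat.sub_self]
      exact zero_pow (by omega)
    rw [this]
    simp
  · set s : ℝ := ((r - 1 : ℕ) : ℝ) / r with hs
    have hr0 : (0 : ℝ) < r := by exact_mod_cast (by omega : 0 < r)
    have hs0 : 0 ≤ s := by positivity
    have hs1 : s < 1 := by
      rw [hs, div_lt_one hr0]
      exact_mod_cast (by omega : r - 1 < r)
    have hlim : Tendsto (fun m : ℕ => (m : ℝ) ^ 4 * s ^ m) atTop (nhds 0) :=
      tendsto_pow_const_mul_const_pow_of_abs_lt_one 4 (by rw [abs_of_nonneg hs0]; exact hs1)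
    have hlim2 : Tendsto (fun m : ℕ => (r : ℝ) * (c + 2) ^ 4 * ((m : ℝ) ^ 4 * s ^ m)) atTop
        (nhds ((r : ℝ) * (c + 2) ^ 4 * 0)) := hlim.const_mul _
    rw [mul_zero] at hlim2
    filter_upwards [hlim2.eventually (gt_mem_nhds (show (0 : ℝ) < 1 by norm_num)),
      eventually_ge_atTop 1] with m hm hm1
    have hm1' : (1 : ℝ) ≤ m := by exact_mod_cast hm1
    have h3 : ((m : ℝ) + c + 1) ≤ (c + 2) * m := by nlinarith [(Nat.cast_nonneg c : (0 : ℝ) ≤ c)]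
    have h4 : (((m : ℝ) + c + 1) ^ 2) ^ 2 ≤ (c + 2) ^ 4 * (m : ℝ) ^ 4 := by
      rw [← pow_mul, ← mul_pow]
      exact pow_le_pow_left₀ (by positivity) h3 4
    have h5 : (r : ℝ) * (((m : ℝ) + c + 1) ^ 2) ^ 2 * s ^ m < 1 := by
      refine lt_of_le_of_lt ?_ hm
      have : (r : ℝ) * (((m : ℝ) + c + 1) ^ 2) ^ 2 * s ^ m ≤
          (r : ℝ) * ((c + 2) ^ 4 * (m : ℝ) ^ 4) * s ^ m := by gcongr
      refine this.trans (le_of_eq (by ring))
    have h6 : (r : ℝ) * (((m : ℝ) + c + 1) ^ 2) ^ 2 * ((r - 1 : ℕ) : ℝ) ^ m < (r : ℝ) ^ m := by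
      rw [hs, div_pow, ← mul_div_assoc, div_lt_one (by positivity)] at h5
      exact h5
    exact_mod_cast h6

theorem exists_params (r : ℕ) (hr : 1 ≤ r) (C ε : ℝ) (hC : 0 < C) (hε : ε < 1 / C)
    (N : ℕ → ℕ) : ∃ M n₀ : ℕ, 1 ≤ M ∧ ∀ n : ℕ, n₀ ≤ n → ∃ b t m : ℕ,
      n + (M + 1) ^ 2 * t < (M + 1) * b ∧
      C * (ε * n + r * b) < n - r * (N M : ℝ) ^ 2 * t ∧
      r * (2 * M) + m ≤ t ∧ r * n ^ 2 * (r - 1) ^ m < r ^ m := by
  set δ : ℝ := 1 - C * ε with hδ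
  have hδ0 : 0 < δ := by
    rw [lt_div_iff₀ hC] at hε
    rw [hδ]
    linarith
  have hr0 : (0 : ℝ) < r := by exact_mod_cast (by omega : 0 < r)
  set β : ℝ := δ / (4 * C * r) with hβ
  have hβ0 : 0 < β := by positivity
  obtain ⟨M', hM'⟩ := exists_nat_ge (2 / β)
  set M : ℕ := M' + 1 with hM
  have hMβ : 2 ≤ ((M : ℝ) + 1) * β := by
    rw [div_le_iff₀ hβ0] at hM'
    have : (M : ℝ) = M' + 1 := by rw [hM]; push_cast; ring
    rw [this]
    nlinarith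
  -- conditions on t
  have e1 : ∀ᶠ t : ℕ in atTop, (M + 1) ^ 2 + (M + 1) ≤ t := eventually_ge_atTop _
  have e2 : ∀ᶠ t : ℕ in atTop, (r * (N M : ℝ) ^ 2) / (3 / 4 * δ) < t := by
    obtain ⟨k, hk⟩ := exists_nat_gt ((r * (N M : ℝ) ^ 2) / (3 / 4 * δ))
    filter_upwards [eventually_ge_atTop k] with t ht
    exact hk.trans_le (by exact_mod_cast ht)
  have e3 : ∀ᶠ t : ℕ in atTop, r * (2 * M) ≤ t := eventually_ge_atTop _
  have e4 : ∀ᶠ t : ℕ in atTop, r * ((t - r * (2 * M) + r * (2 * M) + 1) ^ 2) ^ 2 *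
      (r - 1) ^ (t - r * (2 * M)) < r ^ (t - r * (2 * M)) :=
    (tendsto_sub_atTop_nat (r * (2 * M))).eventually (num_exp r (r * (2 * M)) hr)
  obtain ⟨t0, ht0⟩ := ((e1.and e2).and (e3.and e4)).exists_forall_of_atTop
  refine ⟨M, t0 ^ 2, by omega, ?_⟩
  intro n hn
  have htn : t0 ≤ Nat.sqrt n := by
    rw [Nat.le_sqrt']
    exact hn
  obtain ⟨⟨h1, h2⟩, h3, h4⟩ := ht0 _ htn
  set t := Nat.sqrt n with ht
  have hsq : t ^ 2 ≤ n := Nat.sqrt_le' n
  have hlt : n < (t + 1) ^ 2 := Nat.lt_succ_sqrt' n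
  refine ⟨⌊β * n⌋₊, t, t - r * (2 * M), ?_, ?_, by omega, ?_⟩
  · have hb : β * n < (⌊β * n⌋₊ : ℝ) + 1 := Nat.lt_floor_add_one _
    have h5 : (n : ℝ) + ((M : ℝ) + 1) ^ 2 * t < ((M : ℝ) + 1) * (⌊β * n⌋₊ : ℝ) := by
      have h6 : ((M : ℝ) + 1) * (β * n) < ((M : ℝ) + 1) * ((⌊β * n⌋₊ : ℝ) + 1) :=
        mul_lt_mul_of_pos_left hb (by positivity)
      have h7 : 2 * (n : ℝ) ≤ ((M : ℝ) + 1) * (β * n) := by
        rw [← mul_assoc]
        exact mul_le_mul_of_nonneg_right hMβ (Nat.cast_nonneg n)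
      have h8 : (M + 1) ^ 2 * t + (M + 1) ≤ n := by
        refine le_trans ?_ hsq
        rw [pow_two t]
        calc (M + 1) ^ 2 * t + (M + 1) ≤ (M + 1) ^ 2 * t + (M + 1) * t := by
              have : 1 ≤ t := by nlinarith
              nlinarith
          _ = ((M + 1) ^ 2 + (M + 1)) * t := by ring
          _ ≤ t * t := Nat.mul_le_mul_right _ h1
      have h9 : ((M : ℝ) + 1) ^ 2 * t + ((M : ℝ) + 1) ≤ n := by exact_mod_cast h8
      nlinarith
    exact_mod_cast h5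
  · have hb : (⌊β * n⌋₊ : ℝ) ≤ β * n := Nat.floor_le (by positivity)
    have h5 : C * (r * (⌊β * n⌋₊ : ℝ)) ≤ δ / 4 * n := by
      calc C * (r * (⌊β * n⌋₊ : ℝ)) ≤ C * (r * (β * n)) := by gcongr
        _ = δ / 4 * n := by
          rw [hβ]
          field_simp
    have h6 : r * (N M : ℝ) ^ 2 * t < 3 / 4 * δ * n := by
      rw [div_lt_iff₀ (by positivity)] at h2
      have ht1 : (0 : ℝ) < t := by
        have : 0 < t := by nlinarith
        exact_mod_cast this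
      have h7 : (t : ℝ) ^ 2 ≤ n := by exact_mod_cast hsq
      calc r * (N M : ℝ) ^ 2 * t < t * (3 / 4 * δ) * t := mul_lt_mul_of_pos_right h2 ht1
        _ = 3 / 4 * δ * (t : ℝ) ^ 2 := by ring
        _ ≤ 3 / 4 * δ * n := by gcongr
    have h7 : C * (ε * n) = (1 - δ) * n := by rw [hδ]; ring
    rw [mul_add, h7]
    nlinarith
  · refine lt_of_le_of_lt ?_ h4
    have h5 : t - r * (2 * M) + r * (2 * M) = t := Nat.sub_add_cancel h3
    rw [h5]
    gcongr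

end Pool.Agent.MP5f1228
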