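import Mathlib
import Pool.Agent.Lib.MP_5f1228_co.Defs

/-!
# MP_5f1228_co, module RES: random reservoirs
-/

set_option autoImplicit false

namespace Pool.Agent.MP5f1228

open Finset

/-- functions avoiding the value `i` on the set `A` -/
theorem res_count {V : Type} [Fintype V] [DecidableEq V] {r : ℕ} (i : Fin r) (A : Finset V)
    {m : ℕ} (hm : m ≤ A.card) :
    (univ.filter (fun f : V → Fin r => ∀ a ∈ A, f a ≠ i)).card * r ^ m ≤
      (r - 1) ^ m * r ^ Fintype.card V := by
  obtain ⟨B, hBA, hB⟩ := exists_subset_card_eq hm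
  have h1 : (univ.filter (fun f : V → Fin r => ∀ a ∈ A, f a ≠ i)) ⊆
      Fintype.piFinset (fun v => if v ∈ B then univ.erase i else univ) := by
    intro f hf
    rw [mem_filter] at hf
    rw [Fintype.mem_piFinset]
    intro v
    by_cases hv : v ∈ B
    · rw [if_pos hv, mem_erase]
      exact ⟨hf.2 v (hBA hv), mem_univ _⟩
    · rw [if_neg hv]; exact mem_univ _
  have h2 : (Fintype.piFinset (fun v : V => if v ∈ B then (univ : Finset (Fin r)).erase i
      else univ)).card = (r - 1) ^ m * r ^ (Fintype.card V - m) := by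
    rw [Fintype.card_piFinset]
    have h3 : ∀ v : V, (if v ∈ B then (univ : Finset (Fin r)).erase i else univ).card =
        if v ∈ B then r - 1 else r := by
      intro v
      split_ifs
      · rw [card_erase_of_mem (mem_univ _), card_univ, Fintype.card_fin]
      · rw [card_univ, Fintype.card_fin]
    rw [prod_congr rfl (fun v _ => h3 v), prod_ite, prod_const, prod_const]
    have h4 : (univ.filter (fun v => v ∈ B)) = B := by ext v; simp
    have h5 : (univ.filter (fun v => v ∉ B)) = Bᶜ := by ext v; simp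
    rw [h4, h5, hB, card_compl, hB]
  have hmn : m ≤ Fintype.card V := by
    rw [← hB]; exact card_le_univ B
  calc (univ.filter (fun f : V → Fin r => ∀ a ∈ A, f a ≠ i)).card * r ^ m
      ≤ (r - 1) ^ m * r ^ (Fintype.card V - m) * r ^ m :=
        Nat.mul_le_mul_right _ (h2 ▸ card_le_card h1)
    _ = (r - 1) ^ m * r ^ Fintype.card V := by
        rw [mul_assoc, ← pow_add, Nat.sub_add_cancel hmn]

/-- a function which is good for all the sets `A x` at once -/
theorem res_exists {V : Type} [Fintype V] [DecidableEq V] {r : ℕ} {X : Type} [Fintype X]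
    (col : X → Fin r) (A : X → Finset V) {m : ℕ} (hr : 0 < r ∨ Fintype.card V = 0)
    (hA : ∀ x, m ≤ (A x).card)
    (hX : Fintype.card X * (r - 1) ^ m < r ^ m) :
    ∃ f : V → Fin r, ∀ x, ∃ a ∈ A x, f a = col x := by
  by_contra hcon
  push Not at hcon
  have hpos : 0 < r ^ Fintype.card V := by
    rcases hr with h | h
    · positivity
    · rw [h, pow_zero]; exact one_pos
  have h1 : (univ : Finset (V → Fin r)) ⊆ (univ : Finset X).biUnion
      (fun x => univ.filter (fun f : V → Fin r => ∀ a ∈ A x, f a ≠ col x)) := by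
    intro f _
    obtain ⟨x, hx⟩ := hcon f
    rw [mem_biUnion]
    exact ⟨x, mem_univ _, by rw [mem_filter]; exact ⟨mem_univ _, hx⟩⟩
  have h2 : r ^ Fintype.card V * r ^ m ≤
      Fintype.card X * ((r - 1) ^ m * r ^ Fintype.card V) := by
    have h3 : r ^ Fintype.card V = (univ : Finset (V → Fin r)).card := by
      rw [card_univ, Fintype.card_fun, Fintype.card_fin]
    calc r ^ Fintype.card V * r ^ m
        ≤ (∑ x : X, (univ.filter (fun f : V → Fin r => ∀ a ∈ A x, f a ≠ col x)).card) * r ^ m :=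
          Nat.mul_le_mul_right _ (by
            rw [h3]; exact (card_le_card h1).trans card_biUnion_le)
      _ = ∑ x : X, (univ.filter (fun f : V → Fin r => ∀ a ∈ A x, f a ≠ col x)).card * r ^ m := by
          rw [sum_mul]
      _ ≤ ∑ _x : X, (r - 1) ^ m * r ^ Fintype.card V :=
          sum_le_sum fun x _ => res_count (col x) (A x) (hA x)
      _ = Fintype.card X * ((r - 1) ^ m * r ^ Fintype.card V) := by
          rw [sum_const, smul_eq_mul, card_univ]
  have h4 : Fintype.card X * (r - 1) ^ m * r ^ Fintype.card V < r ^ m * r ^ Fintype.card V :=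
    Nat.mul_lt_mul_of_pos_right hX hpos
  rw [← mul_assoc] at h2
  rw [mul_comm (r ^ m)] at h4
  omega

theorem exists_partition {V : Type} [Fintype V] [DecidableEq V] {r : ℕ} (G : SimpleGraph V)
    (c : Sym2 V → Fin r) {b t m : ℕ} (V0 : Fin r → Finset V)
    (hconn : ∀ i, Conn (Str G c b t i) (V0 i))
    (hdisj : ∀ i j, i ≠ j → Disjoint (V0 i) (V0 j))
    (hdom : ∀ v, ∃ i, v ∈ V0 i ∨ ∃ u ∈ V0 i, (Str G c b t i).Adj v u)
    (hs : (∑ i, (V0 i).card) + m ≤ t)
    (hnum : r * (Fintype.card V) ^ 2 * (r - 1) ^ m < r ^ m) :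
    ∃ F : V → Fin r, ∀ i, ((mono G c i).induce {v | F v = i}).Preconnected := by
  classical
  set U : Finset V := univ.biUnion V0 with hU
  have hUc : U.card + m ≤ t := (Nat.add_le_add_right card_biUnion_le m).trans hs
  have hmU : ∀ v, v ∈ U ↔ ∃ i, v ∈ V0 i := by intro v; simp [hU]
  -- the random function
  let X : Type := {x : Fin r × V × V // (Str G c b t x.1).Adj x.2.1 x.2.2}
  obtain ⟨f, hf⟩ := res_exists (V := V) (r := r) (X := X) (fun x => x.1.1)
    (fun x => (Nb G c x.1.1 x.1.2.1 ∩ Nb G c x.1.1 x.1.2.2) \ U) (m := m)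
    (by
      rcases isEmpty_or_nonempty V with h | ⟨⟨v⟩⟩
      · exact Or.inr Fintype.card_eq_zero
      · obtain ⟨i, _⟩ := hdom v
        exact Or.inl i.pos)
    (by
      rintro ⟨⟨i, v, u⟩, h⟩
      have h1 : t ≤ (Nb G c i v ∩ Nb G c i u).card := h.2.2.2
      have h2 := le_card_sdiff U (Nb G c i v ∩ Nb G c i u)
      simp only
      omega)
    (by
      refine lt_of_le_of_lt (Nat.mul_le_mul_right _ ?_) hnum
      refine (Fintype.card_subtype_le _).trans ?_
      rw [Fintype.card_prod, Fintype.card_prod, Fintype.card_fin, sq])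
  have hf' : ∀ i v u, (Str G c b t i).Adj v u → ∃ a, (mono G c i).Adj v a ∧
      (mono G c i).Adj u a ∧ a ∉ U ∧ f a = i := by
    intro i v u h
    obtain ⟨a, ha, hfa⟩ := hf ⟨(i, v, u), h⟩
    simp only [mem_sdiff, mem_inter] at ha
    refine ⟨a, ?_, ?_, ha.2, hfa⟩
    · have := ha.1.1
      unfold Nb at this
      simpa using this
    · have := ha.1.2
      unfold Nb at this
      simpa using this
  -- the partition
  choose g hg using hdom
  set F : V → Fin r := fun v =>
    if v ∈ U then (if h : ∃ i, v ∈ V0 i then h.choose else f v)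
    else if ∃ z ∈ V0 (f v), (mono G c (f v)).Adj v z then f v else g v with hF
  have hF0 : ∀ i, ∀ v ∈ V0 i, F v = i := by
    intro i v hv
    have h1 : v ∈ U := (hmU v).2 ⟨i, hv⟩
    have h2 : ∃ i, v ∈ V0 i := ⟨i, hv⟩
    simp only [hF]
    rw [if_pos h1, dif_pos h2]
    by_contra hne
    exact (disjoint_left.1 (hdisj _ _ hne)) h2.choose_spec hv
  have hF1 : ∀ v, v ∉ U → (∃ z ∈ V0 (f v), (mono G c (f v)).Adj v z) → F v = f v := by
    intro v hv h
    simp only [hF]
    rw [if_neg hv, if_pos h]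
  have hF2 : ∀ v, v ∉ U → (¬ ∃ z ∈ V0 (f v), (mono G c (f v)).Adj v z) → F v = g v := by
    intro v hv h
    simp only [hF]
    rw [if_neg hv, if_neg h]
  refine ⟨F, fun i => ?_⟩
  -- strong edges
  have hstr : ∀ z z', (hz : z ∈ V0 i) → (hz' : F z' = i) → (Str G c b t i).Adj z z' →
      ((mono G c i).induce {v | F v = i}).Reachable ⟨z, hF0 i z hz⟩ ⟨z', hz'⟩ := by
    intro z z' hz hz' h
    obtain ⟨a, ha1, ha2, haU, hfa⟩ := hf' i z z' h
    have hFa : F a = i := by
      rw [hF1 a haU ⟨z, by rw [hfa]; exact hz, by rw [hfa]; exact ha1.symm⟩, hfa]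
    have h1 : ((mono G c i).induce {v | F v = i}).Adj ⟨z, hF0 i z hz⟩ ⟨a, hFa⟩ := ha1
    have h2 : ((mono G c i).induce {v | F v = i}).Adj ⟨a, hFa⟩ ⟨z', hz'⟩ := ha2.symm
    exact h1.reachable.trans h2.reachable
  -- inside `V0 i`
  have hin : ∀ z z', (hz : z ∈ V0 i) → (hz' : z' ∈ V0 i) →
      ((mono G c i).induce {v | F v = i}).Reachable ⟨z, hF0 i z hz⟩ ⟨z', hF0 i z' hz'⟩ := by
    intro z z' hz hz'
    obtain ⟨w⟩ := hconn i ⟨z, hz⟩ ⟨z', hz'⟩
    have key : ∀ (x y : ((V0 i : Finset V) : Set V)),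
        ((Str G c b t i).induce ((V0 i : Finset V) : Set V)).Walk x y →
        ((mono G c i).induce {v | F v = i}).Reachable ⟨x.1, hF0 i x.1 x.2⟩
          ⟨y.1, hF0 i y.1 y.2⟩ := by
      intro x y w
      induction w with
      | nil => exact SimpleGraph.Reachable.refl _
      | @cons x y z h p ih =>
        exact (hstr x.1 y.1 x.2 (hF0 i y.1 y.2) h).trans ih
    exact key _ _ w
  -- every vertex is joined to `V0 i`
  have hto : ∀ v, (hv : F v = i) → ∃ z, ∃ hz : z ∈ V0 i,
      ((mono G c i).induce {v | F v = i}).Reachable ⟨z, hF0 i z hz⟩ ⟨v, hv⟩ := by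
    intro v hv
    by_cases hvU : v ∈ U
    · obtain ⟨j, hj⟩ := (hmU v).1 hvU
      have hji : j = i := by rw [← hF0 j v hj, hv]
      subst hji
      exact ⟨v, hj, SimpleGraph.Reachable.refl _⟩
    · by_cases h : ∃ z ∈ V0 (f v), (mono G c (f v)).Adj v z
      · have h1 : f v = i := by rw [← hF1 v hvU h, hv]
        obtain ⟨z, hz, hvz⟩ := h
        rw [h1] at hz hvz
        have h2 : ((mono G c i).induce {v | F v = i}).Adj ⟨z, hF0 i z hz⟩ ⟨v, hv⟩ := hvz.symm
        exact ⟨z, hz, h2.reachable⟩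
      · have h1 : g v = i := by rw [← hF2 v hvU h, hv]
        have h2 := hg v
        rw [h1] at h2
        rcases h2 with h2 | ⟨u, hu, hvu⟩
        · exact absurd ((hmU v).2 ⟨i, h2⟩) hvU
        · exact ⟨u, hu, hstr u v hu hv hvu.symm⟩
  rintro ⟨x, hx⟩ ⟨y, hy⟩
  obtain ⟨z, hz, h1⟩ := hto x hx
  obtain ⟨z', hz', h2⟩ := hto y hy
  exact h1.symm.trans ((hin z z' hz hz').trans h2)

end Pool.Agent.MP5f1228
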