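import Mathlib
import Pool.Agent.Lib.MP_5f1228_co.Defs

/-!
# MP_5f1228_co, module AVG: averaging over the vertices
-/

set_option autoImplicit false

namespace Pool.Agent.MP5f1228

open Finset

theorem avg_bad_card {V : Type} [Fintype V] [DecidableEq V] {r : ℕ} (G : SimpleGraph V)
    (c : Sym2 V → Fin r) {t N : ℕ} (S B : Finset V) (hS : S.card ≤ N)
    (hB : ∀ a ∈ B, ∃ i, ∃ v ∈ S, ∃ w ∈ S, (Nb G c i v ∩ Nb G c i w).card < t ∧
      a ∈ Nb G c i v ∩ Nb G c i w) : B.card ≤ r * N ^ 2 * t := by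
  classical
  have h1 : B ⊆ (univ : Finset (Fin r)).biUnion (fun i => (S ×ˢ S).biUnion (fun p =>
      if (Nb G c i p.1 ∩ Nb G c i p.2).card < t then Nb G c i p.1 ∩ Nb G c i p.2 else ∅)) := by
    intro a ha
    obtain ⟨i, v, hv, w, hw, hlt, haa⟩ := hB a ha
    rw [mem_biUnion]
    refine ⟨i, mem_univ _, ?_⟩
    rw [mem_biUnion]
    refine ⟨(v, w), mem_product.mpr ⟨hv, hw⟩, ?_⟩
    simp only [if_pos hlt]
    exact haa
  refine (card_le_card h1).trans ?_
  refine (card_biUnion_le).trans ?_
  have h2 : ∀ i ∈ (univ : Finset (Fin r)), ((S ×ˢ S).biUnion (fun p =>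
      if (Nb G c i p.1 ∩ Nb G c i p.2).card < t then Nb G c i p.1 ∩ Nb G c i p.2 else ∅)).card
      ≤ N ^ 2 * t := by
    intro i _
    refine (card_biUnion_le).trans ?_
    have h3 : ∀ p ∈ S ×ˢ S, (if (Nb G c i p.1 ∩ Nb G c i p.2).card < t then
        Nb G c i p.1 ∩ Nb G c i p.2 else ∅).card ≤ t := by
      intro p _
      split_ifs with h
      · exact h.le
      · simp
    refine (sum_le_sum h3).trans ?_
    rw [sum_const, smul_eq_mul, card_product]
    refine Nat.mul_le_mul_right t ?_
    rw [pow_two]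
    exact Nat.mul_le_mul hS hS
  refine (sum_le_sum h2).trans ?_
  rw [sum_const, smul_eq_mul, card_univ, Fintype.card_fin, mul_assoc]

theorem avg_miss_card {V : Type} [Fintype V] [DecidableEq V] {r : ℕ} (G : SimpleGraph V)
    [DecidableRel G.Adj] (c : Sym2 V → Fin r) {b : ℕ} {D : ℝ}
    (hdeg : ∀ v, ((univ.filter (fun w => ¬ G.Adj v w)).card : ℝ) ≤ D) (v : V)
    (A : Finset V)
    (hA : ∀ a ∈ A, ∀ i, ¬ (v ∈ ActG G c b i ∧ a ∈ Nb G c i v)) :
    (A.card : ℝ) ≤ D + r * b := by
  classical
  have h1 : A ⊆ univ.filter (fun w => ¬ G.Adj v w) ∪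
      (univ : Finset (Fin r)).biUnion (fun i => if v ∈ ActG G c b i then ∅ else Nb G c i v) := by
    intro a ha
    rw [mem_union]
    by_cases h : G.Adj v a
    · right
      rw [mem_biUnion]
      refine ⟨c s(v, a), mem_univ _, ?_⟩
      have hn : a ∈ Nb G c (c s(v, a)) v := by
        unfold Nb
        simp only [mem_filter, mem_univ, true_and]
        exact ⟨h, rfl⟩
      have h3 := hA a ha (c s(v, a))
      have h4 : v ∉ ActG G c b (c s(v, a)) := fun h5 => h3 ⟨h5, hn⟩
      rw [if_neg h4]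
      exact hn
    · left
      simp [h]
  have h2 : ((univ : Finset (Fin r)).biUnion
      (fun i => if v ∈ ActG G c b i then ∅ else Nb G c i v)).card ≤ r * b := by
    refine (card_biUnion_le).trans ?_
    have h3 : ∀ i ∈ (univ : Finset (Fin r)),
        (if v ∈ ActG G c b i then ∅ else Nb G c i v).card ≤ b := by
      intro i _
      split_ifs with h
      · simp
      · unfold ActG at h
        simp only [mem_filter, mem_univ, true_and, not_le] at h
        exact h.le
    refine (sum_le_sum h3).trans ?_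
    rw [sum_const, smul_eq_mul, card_univ, Fintype.card_fin]
  have h3 := (card_le_card h1).trans (card_union_le _ _)
  have h4 : (A.card : ℝ) ≤ ((univ.filter (fun w => ¬ G.Adj v w)).card : ℝ) +
      (((univ : Finset (Fin r)).biUnion
      (fun i => if v ∈ ActG G c b i then ∅ else Nb G c i v)).card : ℝ) := by exact_mod_cast h3
  have h5 : (((univ : Finset (Fin r)).biUnion
      (fun i => if v ∈ ActG G c b i then ∅ else Nb G c i v)).card : ℝ) ≤ r * b := by
    exact_mod_cast h2
  linarith [hdeg v]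

theorem exists_good {V : Type} [Fintype V] [DecidableEq V] {r : ℕ} (G : SimpleGraph V)
    [DecidableRel G.Adj] (c : Sym2 V → Fin r) {b t N : ℕ} {C D : ℝ}
    (hdeg : ∀ v, ((univ.filter (fun w => ¬ G.Adj v w)).card : ℝ) ≤ D)
    (hC : Cert (Str G c b t) (ActG G c b) (univ : Finset (Fin r)) C N)
    (hnum : C * (D + r * b) < Fintype.card V - r * (N : ℝ) ^ 2 * t) :
    ∃ Q : Fin r → Finset V, Adm (Str G c b t) (ActG G c b) univ Q ∧
      Good (Str G c b t) Q univ univ := by
  classical
  by_contra hcon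
  push Not at hcon
  obtain ⟨w, hw0, hwC, hwN, hw⟩ := hC univ
  set S : Finset V := univ.filter (fun v => w v ≠ 0) with hS
  set Q : V → Fin r → Finset V := fun a i =>
    S.filter (fun v => v ∈ ActG G c b i ∧ a ∈ Nb G c i v) with hQ
  set B : Finset V := univ.filter (fun a => ¬ Adm (Str G c b t) (ActG G c b) univ (Q a)) with hB
  have hBcard : B.card ≤ r * N ^ 2 * t := by
    refine avg_bad_card G c S B hwN ?_
    intro a ha
    rw [hB, mem_filter] at ha
    have h1 := ha.2
    unfold Adm at h1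
    push Not at h1
    obtain ⟨i, -, h2⟩ := h1
    have h3 : Q a i ⊆ ActG G c b i := by
      intro v hv
      simp only [hQ, mem_filter] at hv
      exact hv.2.1
    have h4 := h2 h3
    unfold Clq at h4
    push Not at h4
    obtain ⟨v, hv, v', hv', hne, hadj⟩ := h4
    simp only [hQ, mem_filter] at hv hv'
    refine ⟨i, v, hv.1, v', hv'.1, ?_, mem_inter.mpr ⟨hv.2.2, hv'.2.2⟩⟩
    by_contra h5
    push Not at h5
    exact hadj ⟨hne, hv.2.1, hv'.2.1, h5⟩
  by_cases hV : Nonempty V
  · obtain ⟨v0⟩ := hV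
    have hD : 0 ≤ D := le_trans (Nat.cast_nonneg _) (hdeg v0)
    have hDb : 0 ≤ D + r * b := by positivity
    have hgood : ∀ a ∈ Bᶜ, (1 : ℝ) ≤ ∑ v ∈ unc (Q a) univ univ, w v := by
      intro a ha
      rw [mem_compl, hB, mem_filter] at ha
      have h1 : Adm (Str G c b t) (ActG G c b) univ (Q a) := by
        by_contra h
        exact ha ⟨mem_univ _, h⟩
      exact hw (Q a) h1 (hcon (Q a) h1)
    have hsum1 : ((Bᶜ).card : ℝ) ≤ ∑ a ∈ Bᶜ, ∑ v ∈ unc (Q a) univ univ, w v := by
      calc ((Bᶜ).card : ℝ) = ∑ a ∈ Bᶜ, (1 : ℝ) := by simp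
        _ ≤ _ := sum_le_sum hgood
    have hsum2 : ∑ a ∈ Bᶜ, ∑ v ∈ unc (Q a) univ univ, w v ≤
        ∑ a : V, ∑ v ∈ unc (Q a) univ univ, w v := by
      refine sum_le_sum_of_subset_of_nonneg (subset_univ _) ?_
      intro a _ _
      exact sum_nonneg (fun v _ => hw0 v)
    have hsum3 : ∑ a : V, ∑ v ∈ unc (Q a) univ univ, w v =
        ∑ v : V, w v * ((univ.filter (fun a => ∀ i ∈ (univ : Finset (Fin r)), v ∉ Q a i)).card : ℝ) := by
      simp only [unc, sum_filter]
      rw [sum_comm]
      refine sum_congr rfl ?_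
      intro v _
      rw [card_filter, Nat.cast_sum, mul_sum]
      refine sum_congr rfl ?_
      intro a _
      by_cases h : ∀ i ∈ (univ : Finset (Fin r)), v ∉ Q a i
      · rw [if_pos h, if_pos h]; simp
      · rw [if_neg h, if_neg h]; simp
    have hsum4 : ∑ v : V, w v * ((univ.filter (fun a => ∀ i ∈ (univ : Finset (Fin r)), v ∉ Q a i)).card : ℝ)
        ≤ ∑ v : V, w v * (D + r * b) := by
      refine sum_le_sum ?_
      intro v _
      by_cases hv : w v = 0
      · rw [hv]; simp
      · refine mul_le_mul_of_nonneg_left ?_ (hw0 v)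
        refine avg_miss_card G c hdeg v _ ?_
        intro a ha i hi
        rw [mem_filter] at ha
        apply ha.2 i (mem_univ _)
        simp only [hQ, mem_filter]
        exact ⟨by rw [hS, mem_filter]; exact ⟨mem_univ _, hv⟩, hi.1, hi.2⟩
    have hsum5 : ∑ v : V, w v * (D + r * b) ≤ C * (D + r * b) := by
      rw [← sum_mul]
      exact mul_le_mul_of_nonneg_right hwC hDb
    have hcardB : ((Bᶜ).card : ℝ) = Fintype.card V - B.card := by
      rw [card_compl, Nat.cast_sub (card_le_univ B)]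
    have hBr : (B.card : ℝ) ≤ r * (N : ℝ) ^ 2 * t := by exact_mod_cast hBcard
    linarith
  · rw [not_nonempty_iff] at hV
    have h1 : Adm (Str G c b t) (ActG G c b) univ (fun _ : Fin r => (∅ : Finset V)) := by
      intro i _
      exact ⟨empty_subset _, fun v hv => absurd hv (notMem_empty v)⟩
    have h2 := hw _ h1 (hcon _ h1)
    have h3 : unc (fun _ : Fin r => (∅ : Finset V)) univ univ = ∅ := by
      apply eq_empty_of_forall_notMem
      intro v
      exact (hV.false v).elim
    rw [h3, sum_empty] at h2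
    linarith

end Pool.Agent.MP5f1228
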