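import Mathlib
import Pool.Agent.Lib.MP_5f1228_co.DefsB

open scoped Classical
open Finset

namespace Pool.Agent.MP5f1228B

theorem assemble {V : Type} {r : ℕ} (N : Fin r → V → V → Prop)
    (symm : ∀ i u v, N i u v → N i v u) (A : Fin r → V → V → Prop)
    (X : V → Prop) (h : V → Fin r) (B : Fin r → V → Prop)
    (hX : ∀ v, ¬ X v → ∃ i, B i v)
    (hdis : ∀ i j v, B i v → B j v → i = j)
    (hBX : ∀ i v, B i v → X v → h v = i)
    (hA : ∀ i u v, A i u v → ∃ w, X w ∧ h w = i ∧ N i u w ∧ N i v w)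
    (hcon : ∀ i u v, B i u → B i v → Con (A i) (B i) u v)
    (hdom : ∀ v, X v → ∃ i, B i v ∨ ∃ y, B i y ∧ A i v y) :
    ∃ f : V → Fin r, ∀ i u v, f u = i → f v = i → Con (N i) (fun w => f w = i) u v := by
  have hex : ∀ v, ∃ i : Fin r, (¬ X v → B i v) ∧
      (X v → (B (h v) v ∨ ∃ y, B (h v) y ∧ N (h v) v y) → i = h v) ∧
      (X v → ¬ (B (h v) v ∨ ∃ y, B (h v) y ∧ N (h v) v y) →
        (B i v ∨ ∃ y, B i y ∧ A i v y)) := by
    intro v
    by_cases hv : X v
    · by_cases hc : (B (h v) v ∨ ∃ y, B (h v) y ∧ N (h v) v y)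
      · exact ⟨h v, fun h' => absurd hv h', fun _ _ => rfl, fun _ h' => absurd hc h'⟩
      · obtain ⟨i, hi⟩ := hdom v hv
        exact ⟨i, fun h' => absurd hv h', fun _ h' => absurd h' hc, fun _ _ => hi⟩
    · obtain ⟨i, hi⟩ := hX v hv
      exact ⟨i, fun _ => hi, fun h' => absurd h' hv, fun h' => absurd h' hv⟩
  choose f hf1 hf2 hf3 using hex
  -- Fact 1
  have F1 : ∀ i v, B i v → f v = i := by
    intro i v hB
    by_cases hv : X v
    · have e : h v = i := hBX i v hB hv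
      rw [hf2 v hv (Or.inl (e ▸ hB)), e]
    · exact hdis _ _ v (hf1 v hv) hB
  -- Fact 1'
  have F1' : ∀ i w y, X w → h w = i → N i w y → B i y → f w = i := by
    intro i w y hw e hN hB
    rw [hf2 w hw (Or.inr ⟨y, e ▸ hB, e ▸ hN⟩), e]
  -- Fact 3, a little more general
  have F3 : ∀ i v y, A i v y → B i y → Con (N i) (fun w => f w = i) v y := by
    intro i v y hAy hB
    obtain ⟨w, hw, e, h1, h2⟩ := hA i v y hAy
    have hfw : f w = i := F1' i w y hw e (symm i y w h2) hB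
    exact Con.tail (Con.single h1 hfw) (symm i y w h2) (F1 i y hB)
  -- Fact 2
  have F2 : ∀ v, ∃ y, B (f v) y ∧ Con (N (f v)) (fun w => f w = f v) v y := by
    intro v
    by_cases hv : X v
    · by_cases hc : (B (h v) v ∨ ∃ y, B (h v) y ∧ N (h v) v y)
      · have e : f v = h v := hf2 v hv hc
        rw [e]
        rcases hc with hc | ⟨y, hy, hN⟩
        · exact ⟨v, hc, Con.refl v⟩
        · exact ⟨y, hy, Con.single hN (F1 _ _ hy)⟩
      · rcases hf3 v hv hc with h' | ⟨y, hy, hAy⟩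
        · exact ⟨v, h', Con.refl v⟩
        · exact ⟨y, hy, F3 _ _ _ hAy hy⟩
    · exact ⟨v, hf1 v hv, Con.refl v⟩
  -- Fact 4
  have F4 : ∀ i u v, B i u → Con (A i) (B i) u v → Con (N i) (fun w => f w = i) u v := by
    intro i u v hu hc
    induction hc with
    | refl => exact Con.refl _
    | @tail b c hb hc ih => exact Con.trans ih (F3 i b c hc.1 hc.2)
  refine ⟨f, fun i u v hu hv => ?_⟩
  obtain ⟨yu, hyu, hcu⟩ := F2 u
  obtain ⟨yv, hyv, hcv⟩ := F2 v
  rw [hu] at hyu hcu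
  rw [hv] at hyv hcv
  have h1 : Con (N i) (fun w => f w = i) yu yv := F4 i yu yv hyu (hcon i yu yv hyu hyv)
  have h2 : Con (N i) (fun w => f w = i) yv v := Con.symm (symm i) hv hcv
  exact Con.trans hcu (Con.trans h1 h2)

end Pool.Agent.MP5f1228B
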