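import Mathlib
import Pool.Agent.Lib.MP_5f1228_co.DefsB

/-!
# MP_5f1228_co: a small set of witnesses
-/

open scoped Classical
open Finset

namespace Pool.Agent.MP5f1228B

theorem exists_witness {V C : Type} [Finite C] {r : ℕ} (X : Finset V)
    (a : V → Fin r → Option C) :
    ∃ W : Finset V, W ⊆ X ∧ W.card ≤ 2 ^ r ∧ ∀ κ : Fin r → C,
      (∃ z ∈ X, ∀ i, a z i ≠ some (κ i)) → ∃ w ∈ W, ∀ i, a w i ≠ some (κ i) := by
  obtain ⟨n, ⟨en⟩⟩ := Finite.exists_equiv_fin C
  let e : C → ℝ := fun c => ((en c : ℕ) : ℝ)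
  have he : Function.Injective e := by
    intro c d h
    have h1 : ((en c : ℕ) : ℝ) = ((en d : ℕ) : ℝ) := h
    exact en.injective (Fin.ext (Nat.cast_injective h1))
  let p : V → Fin r → ℝ := fun z i => (a z i).elim 0 (fun _ => 1)
  let g : V → Fin r → ℝ := fun z i => (a z i).elim 1 (fun c => - e c)
  let b : V → (Finset (Fin r) → ℝ) := fun z S => (∏ i ∈ S, p z i) * ∏ i ∈ univ \ S, g z i
  let L : (Fin r → C) → ((Finset (Fin r) → ℝ) →ₗ[ℝ] ℝ) := fun κ =>
    ∑ S : Finset (Fin r), (∏ i ∈ S, e (κ i)) • LinearMap.proj S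
  have hL : ∀ κ z, L κ (b z) = ∏ i, (e (κ i) * p z i + g z i) := by
    intro κ z
    rw [Finset.prod_add]
    simp only [L, LinearMap.sum_apply, LinearMap.smul_apply, LinearMap.proj_apply, smul_eq_mul,
      Finset.powerset_univ, b]
    refine Finset.sum_congr rfl fun S _ => ?_
    rw [Finset.prod_mul_distrib, mul_assoc]
  have hz : ∀ κ z, L κ (b z) = 0 ↔ ∃ i, a z i = some (κ i) := by
    intro κ z
    rw [hL, Finset.prod_eq_zero_iff]
    constructor
    · rintro ⟨i, _, hi⟩
      refine ⟨i, ?_⟩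
      rcases h : a z i with _ | c
      · simp [p, g, h] at hi
      · simp only [p, g, h, Option.elim_some, mul_one] at hi
        have : e (κ i) = e c := by linarith
        rw [he this]
    · rintro ⟨i, hi⟩
      refine ⟨i, mem_univ i, ?_⟩
      simp [p, g, hi]
  obtain ⟨B, hB, hspan, hind⟩ := exists_linearIndependent ℝ (b '' (X : Set V))
  have hBfin : B.Finite := (X.finite_toSet.image b).subset hB
  have hpre : ∀ v : B, ∃ z, z ∈ X ∧ b z = v := by
    rintro ⟨v, hv⟩
    obtain ⟨z, hz1, hz2⟩ := hB hv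
    exact ⟨z, hz1, hz2⟩
  choose c hc1 hc2 using hpre
  have : Fintype B := hBfin.fintype
  refine ⟨(univ : Finset B).image c, ?_, ?_, ?_⟩
  · intro z hz'
    obtain ⟨v, _, rfl⟩ := Finset.mem_image.1 hz'
    exact hc1 v
  · refine Finset.card_image_le.trans ?_
    have h1 := hind.fintype_card_le_finrank
    rw [Module.finrank_fintype_fun_eq_card, Fintype.card_finset, Fintype.card_fin] at h1
    rw [Finset.card_univ]
    exact h1
  · rintro κ ⟨z, hzX, hzκ⟩
    by_contra hcon
    push Not at hcon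
    have h1 : ∀ v ∈ B, L κ v = 0 := by
      intro v hv
      have h2 := hcon (c ⟨v, hv⟩) (Finset.mem_image_of_mem c (mem_univ _))
      have h3 := (hz κ (c ⟨v, hv⟩)).2 h2
      rw [hc2] at h3
      exact h3
    have h2 : Submodule.span ℝ B ≤ LinearMap.ker (L κ) := by
      rw [Submodule.span_le]
      intro v hv
      exact h1 v hv
    have h3 : b z ∈ Submodule.span ℝ B := by
      rw [hspan]
      exact Submodule.subset_span ⟨z, hzX, rfl⟩
    have h4 : L κ (b z) = 0 := h2 h3
    obtain ⟨i, hi⟩ := (hz κ z).1 h4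
    exact hzκ i hi

end Pool.Agent.MP5f1228B
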