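import Mathlib
import Pool.Agent.Lib.MP_5f1228_co.DefsB
import Pool.Agent.Lib.MP_5f1228_co.BWitness

/-!
# MP_5f1228_co, module BChooseX: the hub `x`
-/

open scoped Classical
open Finset

namespace Pool.Agent.MP5f1228B

/-- the bad set of colour-`i` neighbours of `w` -/
noncomputable def chooseX_bad1 {V : Type} [Fintype V] {r : ℕ} (N : Fin r → V → V → Prop)
    (T E : ℕ) (R : Finset V) (w : V) (i : Fin r) : Finset V :=
  if Zr N T i w then univ.filter (fun x => N i w x ∧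
        ¬ ∃ ρ ∈ R, Zr N T i ρ ∧ N i ρ x ∧ (ρ = w ∨ Rob N E i ρ w)) else nb N i w

/-- the bad set of common colour-`i` neighbours of a non-robust pair -/
noncomputable def chooseX_bad2 {V : Type} [Fintype V] {r : ℕ} (N : Fin r → V → V → Prop)
    (E : ℕ) (i : Fin r) (p : V × V) : Finset V :=
  if p.1 ≠ p.2 ∧ ¬ Rob N E i p.1 p.2 then nb N i p.1 ∩ nb N i p.2 else ∅

theorem choose_x {V : Type} [Fintype V] {r : ℕ} (N : Fin r → V → V → Prop)
    (q T E Dm Rm : ℕ) (D R : Finset V)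
    (hq : ∀ v, (univ.filter (fun x => ¬ ∃ i, N i v x)).card ≤ q)
    (hD : D.card ≤ Dm) (hR : R.card ≤ Rm) (hDR : ∀ ρ ∈ R, ρ ∉ D)
    (hnet : ∀ i z, Zr N T i z → z ∉ D → (univ.filter (fun x => N i z x ∧
        ¬ ∃ ρ ∈ R, Zr N T i ρ ∧ N i ρ x ∧ (ρ = z ∨ Rob N E i ρ z))).card ≤ T)
    (hlt : Dm * q + 2 ^ r * (q + 2 * r * T) + r * ((Dm + Rm) ^ 2 * E) < Fintype.card V) :
    ∃ x, (∀ d ∈ D, ∃ i, N i d x) ∧
      (∀ i a b, (a ∈ D ∨ a ∈ R) → (b ∈ D ∨ b ∈ R) → a ≠ b → N i a x → N i b x →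
        Rob N E i a b) ∧
      (∀ z, z ∉ D → ∃ i, Zr N T i z ∧ ∃ ρ ∈ R, Zr N T i ρ ∧ N i ρ x ∧
        Con (Rob N E i) (fun w => Zr N T i w ∧ w ∉ D) ρ z) := by
  obtain ⟨W, hWX, hWc, hW⟩ := exists_witness (V := V) (C := Set V) (r := r)
    (univ.filter (fun z => z ∉ D))
    (fun z i => if Zr N T i z then
      some {z' | Con (Rob N E i) (fun w => Zr N T i w ∧ w ∉ D) z z'} else none)
  have hWD : ∀ w ∈ W, w ∉ D := fun w hw => (mem_filter.1 (hWX hw)).2
  -- the three bad sets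
  set B1 : Finset V := D.biUnion (fun d => univ.filter (fun x => ¬ ∃ i, N i d x)) with hB1
  set B2 : Finset V := W.biUnion (fun w => univ.filter (fun x => ¬ ∃ i, N i w x) ∪
    univ.biUnion (fun i => chooseX_bad1 N T E R w i)) with hB2
  set B3 : Finset V := univ.biUnion (fun i => ((D ∪ R) ×ˢ (D ∪ R)).biUnion
    (fun p => chooseX_bad2 N E i p)) with hB3
  have c1 : B1.card ≤ Dm * q :=
    (card_biUnion_le_card_mul _ _ q (fun d _ => hq d)).trans (Nat.mul_le_mul_right _ hD)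
  have c2 : B2.card ≤ 2 ^ r * (q + 2 * r * T) := by
    refine (card_biUnion_le_card_mul _ _ (q + r * T) ?_).trans ?_
    · intro w hw
      refine (card_union_le _ _).trans (Nat.add_le_add (hq w) ?_)
      have : (univ : Finset (Fin r)).card * T = r * T := by rw [card_univ, Fintype.card_fin]
      rw [← this]
      refine card_biUnion_le_card_mul _ _ T ?_
      intro i _
      unfold chooseX_bad1
      split_ifs with h
      · exact hnet i w h (hWD w hw)
      · unfold Zr at h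
        omega
    · refine Nat.mul_le_mul hWc ?_
      have : r * T ≤ 2 * r * T := Nat.mul_le_mul_right _ (by omega)
      omega
  have c3 : B3.card ≤ r * ((Dm + Rm) ^ 2 * E) := by
    have : (univ : Finset (Fin r)).card * ((Dm + Rm) ^ 2 * E) = r * ((Dm + Rm) ^ 2 * E) := by
      rw [card_univ, Fintype.card_fin]
    rw [← this]
    refine card_biUnion_le_card_mul _ _ _ ?_
    intro i _
    refine (card_biUnion_le_card_mul _ _ E ?_).trans ?_
    · intro p _
      unfold chooseX_bad2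
      split_ifs with h
      · have h2 := h.2
        unfold Rob at h2
        by_contra hcon
        exact h2 ⟨h.1, by omega⟩
      · simp
    · refine Nat.mul_le_mul_right _ ?_
      rw [card_product, sq]
      have hu : (D ∪ R).card ≤ Dm + Rm := (card_union_le _ _).trans (Nat.add_le_add hD hR)
      exact Nat.mul_le_mul hu hu
  have hx : ∃ x, x ∉ B1 ∪ B2 ∪ B3 := by
    by_contra hcon
    push Not at hcon
    have h1 : (univ : Finset V) ⊆ B1 ∪ B2 ∪ B3 := fun x _ => hcon x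
    have h2 := card_le_card h1
    rw [card_univ] at h2
    have h3 := card_union_le (B1 ∪ B2) B3
    have h4 := card_union_le B1 B2
    omega
  obtain ⟨x, hx⟩ := hx
  rw [mem_union, mem_union, not_or, not_or] at hx
  obtain ⟨⟨hx1, hx2⟩, hx3⟩ := hx
  -- first claim
  have claim1 : ∀ d ∈ D, ∃ i, N i d x := by
    intro d hd
    by_contra hcon
    exact hx1 (mem_biUnion.2 ⟨d, hd, mem_filter.2 ⟨mem_univ _, hcon⟩⟩)
  have claim2 : ∀ i a b, (a ∈ D ∨ a ∈ R) → (b ∈ D ∨ b ∈ R) → a ≠ b → N i a x → N i b x →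
      Rob N E i a b := by
    intro i a b ha hb hab hax hbx
    by_contra hcon
    refine hx3 (mem_biUnion.2 ⟨i, mem_univ _, mem_biUnion.2 ⟨(a, b), ?_, ?_⟩⟩)
    · rw [mem_product, mem_union, mem_union]
      exact ⟨ha, hb⟩
    · unfold chooseX_bad2
      rw [if_pos ⟨hab, hcon⟩, mem_inter, mem_nb, mem_nb]
      exact ⟨hax, hbx⟩
  -- witnesses
  have claimW : ∀ w ∈ W, ∃ i, Zr N T i w ∧ ∃ ρ ∈ R, Zr N T i ρ ∧ N i ρ x ∧
      (ρ = w ∨ Rob N E i ρ w) := by
    intro w hw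
    have h1 : x ∉ univ.filter (fun x => ¬ ∃ i, N i w x) ∪
        univ.biUnion (fun i => chooseX_bad1 N T E R w i) := by
      intro h
      exact hx2 (mem_biUnion.2 ⟨w, hw, h⟩)
    rw [mem_union, not_or] at h1
    have h2 : ∃ i, N i w x := by
      by_contra hcon
      exact h1.1 (mem_filter.2 ⟨mem_univ _, hcon⟩)
    obtain ⟨i, hi⟩ := h2
    have h3 : x ∉ chooseX_bad1 N T E R w i := fun h =>
      h1.2 (mem_biUnion.2 ⟨i, mem_univ _, h⟩)
    unfold chooseX_bad1 at h3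
    split_ifs at h3 with h
    · refine ⟨i, h, ?_⟩
      by_contra hcon
      exact h3 (mem_filter.2 ⟨mem_univ _, hi, hcon⟩)
    · exact absurd ((mem_nb N).2 hi) h3
  -- the classes
  have hκ : ∀ i : Fin r, ∃ S : Set V,
      (∀ ρ ∈ R, Zr N T i ρ → N i ρ x →
        S = {z' | Con (Rob N E i) (fun w => Zr N T i w ∧ w ∉ D) ρ z'}) ∧
      ((¬ ∃ ρ ∈ R, Zr N T i ρ ∧ N i ρ x) → S = ∅) := by
    intro i
    by_cases h : ∃ ρ ∈ R, Zr N T i ρ ∧ N i ρ x
    · obtain ⟨ρ, hρ, hZ, hN⟩ := h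
      refine ⟨{z' | Con (Rob N E i) (fun w => Zr N T i w ∧ w ∉ D) ρ z'}, ?_, ?_⟩
      · intro ρ' hρ' hZ' hN'
        by_cases he : ρ = ρ'
        · rw [he]
        · have h1 : Rob N E i ρ ρ' := claim2 i ρ ρ' (Or.inr hρ) (Or.inr hρ') he hN hN'
          ext z
          constructor
          · intro hz
            exact Con.head h1.symm ⟨hZ, hDR ρ hρ⟩ hz
          · intro hz
            exact Con.head h1 ⟨hZ', hDR ρ' hρ'⟩ hz
      · intro hno
        exact absurd ⟨ρ, hρ, hZ, hN⟩ hno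
    · refine ⟨∅, ?_, fun _ => rfl⟩
      intro ρ hρ hZ hN
      exact absurd ⟨ρ, hρ, hZ, hN⟩ h
  choose κ hκ1 hκ2 using hκ
  refine ⟨x, claim1, claim2, ?_⟩
  intro z hz
  have hw2 : ¬ ∃ w ∈ W, ∀ i, (if Zr N T i w then
      some {z' | Con (Rob N E i) (fun w => Zr N T i w ∧ w ∉ D) w z'} else none) ≠
        some (κ i) := by
    rintro ⟨w, hw, hno⟩
    obtain ⟨i, hZw, ρ, hρ, hZρ, hNρ, hor⟩ := claimW w hw
    apply hno i
    rw [if_pos hZw, hκ1 i ρ hρ hZρ hNρ]
    congr 1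
    have hsy : ∀ a b, Rob N E i a b → Rob N E i b a := fun a b h => h.symm
    rcases hor with h | h
    · rw [h]
    · ext z'
      constructor
      · intro hz'
        exact Con.head h ⟨hZw, hWD w hw⟩ hz'
      · intro hz'
        exact Con.head h.symm ⟨hZρ, hDR ρ hρ⟩ hz'
  have hz2 : ¬ ∃ z ∈ univ.filter (fun z => z ∉ D), ∀ i, (if Zr N T i z then
      some {z' | Con (Rob N E i) (fun w => Zr N T i w ∧ w ∉ D) z z'} else none) ≠
        some (κ i) := fun h => hw2 (hW κ h)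
  push Not at hz2
  obtain ⟨i, hi⟩ := hz2 z (mem_filter.2 ⟨mem_univ _, hz⟩)
  split_ifs at hi with hZ
  have hi' := Option.some_injective _ hi
  refine ⟨i, hZ, ?_⟩
  by_cases h : ∃ ρ ∈ R, Zr N T i ρ ∧ N i ρ x
  · obtain ⟨ρ, hρ, hZρ, hNρ⟩ := h
    refine ⟨ρ, hρ, hZρ, hNρ, ?_⟩
    rw [hκ1 i ρ hρ hZρ hNρ] at hi'
    have : z ∈ {z' | Con (Rob N E i) (fun w => Zr N T i w ∧ w ∉ D) z z'} := Con.refl z
    rw [hi'] at this
    exact this
  · rw [hκ2 i h] at hi'
    have : z ∈ {z' | Con (Rob N E i) (fun w => Zr N T i w ∧ w ∉ D) z z'} := Con.refl z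
    rw [hi'] at this
    exact absurd this (Set.notMem_empty z)

end Pool.Agent.MP5f1228B
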