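import Mathlib
import Pool.Agent.Lib.MP_5f1228_co.DefsB

/-!
# MP_5f1228_co, module BCommon: every robust pair keeps a common neighbour of the right colour
-/

open scoped Classical
open Finset

namespace Pool.Agent.MP5f1228B

/-- the number of functions avoiding the value `a` on `U` -/
theorem bcommon_avoid {V W : Type} [Fintype V] [Fintype W] (a : W) (U : Finset V) :
    ((univ.filter (fun g : V → W => ∀ w ∈ U, g w ≠ a)).card : ℝ)
      = (1 - 1 / (Fintype.card W : ℝ)) ^ U.card * (Fintype.card (V → W) : ℝ) := by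
  have hM : (0 : ℝ) < (Fintype.card W : ℝ) := by
    exact_mod_cast Fintype.card_pos_iff.mpr ⟨a⟩
  have e1 : (univ.filter (fun g : V → W => ∀ w ∈ U, g w ≠ a))
      = Fintype.piFinset (fun w : V => if w ∈ U then univ.erase a else (univ : Finset W)) := by
    ext g
    simp only [mem_filter, mem_univ, true_and, Fintype.mem_piFinset]
    constructor
    · intro hg w
      by_cases hw : w ∈ U
      · simp [hw, hg w hw]
      · simp [hw]
    · intro hg w hw
      have := hg w
      simpa [hw] using this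
  rw [e1, Fintype.card_piFinset]
  push_cast
  have e2 : ∀ w : V, (((if w ∈ U then univ.erase a else (univ : Finset W)).card : ℕ) : ℝ)
      = (if w ∈ U then (1 - 1 / (Fintype.card W : ℝ)) else 1) * (Fintype.card W : ℝ) := by
    intro w
    by_cases hw : w ∈ U
    · simp only [hw, if_true]
      rw [card_erase_of_mem (mem_univ a), card_univ, Nat.cast_sub (by exact_mod_cast hM)]
      field_simp
      simp
    · simp [hw]
  rw [prod_congr rfl (fun w _ => e2 w), prod_mul_distrib, prod_const, card_univ]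
  congr 1
  · rw [← prod_filter, prod_const]
    congr 2
    ext w
    simp
  · rw [Fintype.card_pi]
    push_cast
    simp

theorem common_count {V : Type} [Fintype V] {r ℓ : ℕ} (N : Fin r → V → V → Prop) (E Em : ℕ)
    (Q : Finset V) (hQ : Q.card + Em ≤ E) :
    ((univ.filter (fun g : V → Fin r × Fin (ℓ + 1) =>
        ∃ i z z', Rob N E i z z' ∧
          ∀ w, N i z w → N i z' w → w ∉ Q → (g w).1 ≠ i)).card : ℝ)
      ≤ r * (Fintype.card V : ℝ) ^ 2 * (1 - 1 / ((r : ℝ) * (ℓ + 1))) ^ Em *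
        (Fintype.card (V → Fin r × Fin (ℓ + 1)) : ℝ) := by
  set b : ℝ := (1 - 1 / ((r : ℝ) * (ℓ + 1))) ^ Em *
        (Fintype.card (V → Fin r × Fin (ℓ + 1)) : ℝ) with hb
  let U : Fin r × V × V → Finset V := fun p => (nb N p.1 p.2.1 ∩ nb N p.1 p.2.2) \ Q
  let F : Fin r × V × V → Finset (V → Fin r × Fin (ℓ + 1)) := fun p =>
    if Rob N E p.1 p.2.1 p.2.2 then
      univ.filter (fun g : V → Fin r × Fin (ℓ + 1) => ∀ w ∈ U p, g w ≠ (p.1, 0)) else ∅
  have hsub : (univ.filter (fun g : V → Fin r × Fin (ℓ + 1) =>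
        ∃ i z z', Rob N E i z z' ∧
          ∀ w, N i z w → N i z' w → w ∉ Q → (g w).1 ≠ i)) ⊆ univ.biUnion F := by
    intro g hg
    simp only [mem_filter, mem_univ, true_and] at hg
    obtain ⟨i, z, z', hR, hall⟩ := hg
    rw [mem_biUnion]
    refine ⟨(i, z, z'), mem_univ _, ?_⟩
    simp only [F, hR, if_true, mem_filter, mem_univ, true_and]
    intro w hw heq
    simp only [U, mem_sdiff, mem_inter, mem_nb] at hw
    exact hall w hw.1.1 hw.1.2 hw.2 (by rw [heq])
  have hF : ∀ p ∈ (univ : Finset (Fin r × V × V)), ((F p).card : ℝ) ≤ b := by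
    intro p _
    have hr : (1 : ℝ) ≤ (r : ℝ) := by
      have : 0 < r := lt_of_le_of_lt (Nat.zero_le _) p.1.2
      exact_mod_cast this
    have hl : (1 : ℝ) ≤ (ℓ : ℝ) + 1 := by
      have : (0 : ℝ) ≤ (ℓ : ℝ) := Nat.cast_nonneg ℓ
      linarith
    have hM : (1 : ℝ) ≤ (r : ℝ) * (ℓ + 1) := by nlinarith
    have hx0 : 0 ≤ 1 - 1 / ((r : ℝ) * (ℓ + 1)) := by
      rw [sub_nonneg, div_le_one (by linarith)]
      exact hM
    have hx1 : 1 - 1 / ((r : ℝ) * (ℓ + 1)) ≤ 1 := by
      have : 0 ≤ 1 / ((r : ℝ) * (ℓ + 1)) := by positivity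
      linarith
    have hb0 : 0 ≤ b := by rw [hb]; positivity
    by_cases hR : Rob N E p.1 p.2.1 p.2.2
    · simp only [F, hR, if_true]
      have e0 := bcommon_avoid (V := V) ((p.1, 0) : Fin r × Fin (ℓ + 1)) (U p)
      refine le_trans (le_of_eq (congrArg
        (fun s : Finset (V → Fin r × Fin (ℓ + 1)) => (s.card : ℝ)) ?_)) (e0.trans_le ?_)
      · ext g
        simp only [mem_filter]
      have e1 : (Fintype.card (Fin r × Fin (ℓ + 1)) : ℝ) = (r : ℝ) * (ℓ + 1) := by
        simp [Fintype.card_prod]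
      rw [e1, hb]
      refine mul_le_mul_of_nonneg_right ?_ (Nat.cast_nonneg _)
      refine pow_le_pow_of_le_one hx0 hx1 ?_
      have h1 : E ≤ (nb N p.1 p.2.1 ∩ nb N p.1 p.2.2).card := hR.2
      have h2 := le_card_sdiff Q (nb N p.1 p.2.1 ∩ nb N p.1 p.2.2)
      simp only [U]
      omega
    · simp only [F, hR, if_false, card_empty, Nat.cast_zero]
      exact hb0
  calc ((univ.filter (fun g : V → Fin r × Fin (ℓ + 1) =>
        ∃ i z z', Rob N E i z z' ∧
          ∀ w, N i z w → N i z' w → w ∉ Q → (g w).1 ≠ i)).card : ℝ)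
      ≤ ((univ.biUnion F).card : ℝ) := by exact_mod_cast card_le_card hsub
    _ ≤ ((∑ p : Fin r × V × V, (F p).card : ℕ) : ℝ) := by exact_mod_cast card_biUnion_le
    _ = ∑ p : Fin r × V × V, ((F p).card : ℝ) := by push_cast; rfl
    _ ≤ ∑ _p : Fin r × V × V, b := sum_le_sum hF
    _ = r * (Fintype.card V : ℝ) ^ 2 * (1 - 1 / ((r : ℝ) * (ℓ + 1))) ^ Em *
        (Fintype.card (V → Fin r × Fin (ℓ + 1)) : ℝ) := by
      rw [sum_const, card_univ, nsmul_eq_mul, hb]
      simp only [Fintype.card_prod, Fintype.card_fin]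
      push_cast
      ring

end Pool.Agent.MP5f1228B
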