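import Mathlib
import Pool.Agent.Lib.MP_5f1228_co.DefsB

/-!
# MP_5f1228_co, module BSumDeg: sum over degrees bounded by the independence number
-/

open scoped Classical
open Finset

namespace Pool.Agent.MP5f1228B

theorem sum_deg {V : Type} (A : V → V → Prop) (hA : ∀ a b, A a b → A b a) (φ : ℕ → ℝ)
    (hφ : Antitone φ) (hφ0 : ∀ d, 0 ≤ φ d) (B : ℝ) (hB0 : 0 ≤ B) (α : ℕ) (K : Finset V)
    (d : V → ℕ) (hd : ∀ v ∈ K, (K.filter (fun u => A v u)).card ≤ d v)
    (hB : ∀ v ∈ K, ((d v : ℝ) + 1) * φ (d v) ≤ B)
    (hα : ∀ J ⊆ K, Indep A J → J.card ≤ α) :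
    ∑ v ∈ K, φ (d v) ≤ α * B := by
  have _ := hB0
  induction α generalizing K with
  | zero =>
    have hK : K = ∅ := by
      by_contra hne
      obtain ⟨v, hv⟩ := nonempty_iff_ne_empty.2 hne
      have h1 := hα {v} (singleton_subset_iff.2 hv) (by
        intro a ha b hb hab
        rw [mem_singleton] at ha hb
        exact absurd (ha.trans hb.symm) hab)
      rw [card_singleton] at h1
      omega
    rw [hK]
    simp
  | succ α ih =>
    rcases K.eq_empty_or_nonempty with rfl | hK
    · simp only [sum_empty]
      positivity
    obtain ⟨v, hv, hmin⟩ := exists_min_image K d hK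
    have hsplit := sum_filter_add_sum_filter_not K (fun u => u = v ∨ A v u) (fun u => φ (d u))
    rw [← hsplit]
    have h1 : ∑ u ∈ K.filter (fun u => u = v ∨ A v u), φ (d u) ≤ B := by
      have hc : (K.filter (fun u => u = v ∨ A v u)).card ≤ d v + 1 := by
        have hsub : K.filter (fun u => u = v ∨ A v u) ⊆ insert v (K.filter (fun u => A v u)) := by
          intro u hu
          rw [mem_filter] at hu
          rw [mem_insert, mem_filter]
          rcases hu.2 with h | h
          · exact Or.inl h
          · exact Or.inr ⟨hu.1, h⟩
        refine (card_le_card hsub).trans ((card_insert_le _ _).trans ?_)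
        have := hd v hv
        omega
      calc ∑ u ∈ K.filter (fun u => u = v ∨ A v u), φ (d u)
          ≤ ∑ _u ∈ K.filter (fun u => u = v ∨ A v u), φ (d v) :=
            sum_le_sum fun u hu => hφ (hmin u (mem_filter.1 hu).1)
        _ = ((K.filter (fun u => u = v ∨ A v u)).card : ℝ) * φ (d v) := by
            rw [sum_const, nsmul_eq_mul]
        _ ≤ ((d v : ℝ) + 1) * φ (d v) := by
            refine mul_le_mul_of_nonneg_right ?_ (hφ0 _)
            exact_mod_cast hc
        _ ≤ B := hB v hv
    have h2 : ∑ u ∈ K.filter (fun u => ¬ (u = v ∨ A v u)), φ (d u) ≤ α * B := by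
      refine ih (K.filter (fun u => ¬ (u = v ∨ A v u))) ?_ ?_ ?_
      · intro u hu
        refine (card_le_card ?_).trans (hd u (mem_filter.1 hu).1)
        intro w hw
        rw [mem_filter, mem_filter] at hw
        exact mem_filter.2 ⟨hw.1.1, hw.2⟩
      · exact fun u hu => hB u (mem_filter.1 hu).1
      · intro J hJ hJi
        have hvJ : v ∉ J := by
          intro hc
          exact (mem_filter.1 (hJ hc)).2 (Or.inl rfl)
        have h3 := hα (insert v J) (by
          intro u hu
          rcases mem_insert.1 hu with h | h
          · rw [h]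
            exact hv
          · exact (mem_filter.1 (hJ h)).1) (by
          intro a ha b hb hab hc
          rcases mem_insert.1 ha with ha | ha
          · rcases mem_insert.1 hb with hb | hb
            · exact hab (ha.trans hb.symm)
            · rw [ha] at hc
              exact (mem_filter.1 (hJ hb)).2 (Or.inr hc)
          · rcases mem_insert.1 hb with hb | hb
            · rw [hb] at hc
              exact (mem_filter.1 (hJ ha)).2 (Or.inr (hA _ _ hc))
            · exact hJi a ha b hb hab hc)
        rw [card_insert_of_notMem hvJ] at h3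
        omega
    push_cast
    linarith

end Pool.Agent.MP5f1228B
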