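import Mathlib
import Pool.Agent.Lib.MP_5f1228_co.DefsB

open scoped Classical
open Finset

namespace Pool.Agent.MP5f1228B

/-- one overwriting step -/
theorem upd_count_one {V W : Type} [Fintype V] [Fintype W] (a : W) (c : ℕ)
    (p : Finset V) (hc : p.card ≤ c) (Gs : Finset (V → W))
    (hG : ∀ g ∈ Gs, upd g p a ∈ Gs) :
    ((Gs.filter (fun g => ∃ v ∈ p, g v ≠ a)).card : ℝ)
      ≤ (1 - 1 / (Fintype.card W : ℝ) ^ c) * Gs.card := by
  set G0 := Gs.filter (fun g => ¬ ∃ v ∈ p, g v ≠ a) with hG0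
  have hm : 1 ≤ Fintype.card W := Fintype.card_pos_iff.2 ⟨a⟩
  have hmaps : ∀ g ∈ Gs, upd g p a ∈ G0 := by
    intro g hg
    rw [hG0, mem_filter]
    refine ⟨hG g hg, ?_⟩
    rintro ⟨v, hv, hne⟩
    apply hne
    simp [upd, hv]
  have hfib : ∀ b ∈ G0, (Gs.filter (fun g => upd g p a = b)).card ≤ Fintype.card W ^ c := by
    intro b hb
    have hinj : (Gs.filter (fun g => upd g p a = b)).card ≤ Fintype.card (p → W) := by
      rw [← Finset.card_univ]
      refine Finset.card_le_card_of_injOn (fun g => fun v : p => g v) (fun _ _ => mem_coe.2 (mem_univ _)) ?_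
      intro g hg g' hg' hgg
      have e1 : upd g p a = b := (mem_filter.1 (mem_coe.1 hg)).2
      have e2 : upd g' p a = b := (mem_filter.1 (mem_coe.1 hg')).2
      funext v
      by_cases hv : v ∈ p
      · exact congrFun hgg ⟨v, hv⟩
      · have h1 := congrFun (e1.trans e2.symm) v
        simpa [upd, hv] using h1
    refine hinj.trans ?_
    rw [Fintype.card_fun, Fintype.card_coe]
    exact Nat.pow_le_pow_right hm hc
  have h1 : Gs.card ≤ Fintype.card W ^ c * G0.card := by
    have := Finset.card_le_mul_card_image_of_maps_to (f := fun g => upd g p a) (s := Gs) (t := G0)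
      hmaps (Fintype.card W ^ c) hfib
    exact this
  have h2 : (Gs.filter (fun g => ∃ v ∈ p, g v ≠ a)).card + G0.card = Gs.card :=
    card_filter_add_card_filter_not _
  have hmR : (0 : ℝ) < (Fintype.card W : ℝ) ^ c := by
    have : (0 : ℝ) < (Fintype.card W : ℝ) := by exact_mod_cast hm
    positivity
  have h1' : (Gs.card : ℝ) ≤ (Fintype.card W : ℝ) ^ c * G0.card := by exact_mod_cast h1
  have h2' : ((Gs.filter (fun g => ∃ v ∈ p, g v ≠ a)).card : ℝ) + G0.card = Gs.card := by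
    exact_mod_cast h2
  have h3 : 1 / (Fintype.card W : ℝ) ^ c * Gs.card ≤ G0.card := by
    rw [one_div, inv_mul_le_iff₀ hmR]
    exact h1'
  linarith

theorem upd_count {V W : Type} [Fintype V] [Fintype W] (a : W) (c : ℕ)
    (Ps : Finset (Finset V)) (hdis : ∀ p ∈ Ps, ∀ p' ∈ Ps, p ≠ p' → Disjoint p p')
    (hc : ∀ p ∈ Ps, p.card ≤ c) (Gs : Finset (V → W))
    (hG : ∀ g ∈ Gs, ∀ p ∈ Ps, upd g p a ∈ Gs) :
    ((Gs.filter (fun g => ∀ p ∈ Ps, ∃ v ∈ p, g v ≠ a)).card : ℝ)
      ≤ (1 - 1 / (Fintype.card W : ℝ) ^ c) ^ Ps.card * Gs.card := by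
  have hm : 1 ≤ Fintype.card W := Fintype.card_pos_iff.2 ⟨a⟩
  have hm' : (1 : ℝ) ≤ (Fintype.card W : ℝ) ^ c := one_le_pow₀ (by exact_mod_cast hm)
  have h0 : (0 : ℝ) ≤ 1 - 1 / (Fintype.card W : ℝ) ^ c := by
    rw [sub_nonneg, div_le_one (by linarith)]
    exact hm'
  induction Ps using Finset.induction_on generalizing Gs with
  | empty => simp
  | @insert p Ps hp ih =>
    have hstep := upd_count_one a c p (hc p (mem_insert_self _ _)) Gs
      (fun g hg => hG g hg p (mem_insert_self _ _))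
    set G1 := Gs.filter (fun g => ∃ v ∈ p, g v ≠ a) with hG1
    have hcl : ∀ g ∈ G1, ∀ p' ∈ Ps, upd g p' a ∈ G1 := by
      intro g hg p' hp'
      rw [hG1, mem_filter] at hg ⊢
      refine ⟨hG g hg.1 p' (mem_insert_of_mem hp'), ?_⟩
      obtain ⟨v, hv, hne⟩ := hg.2
      refine ⟨v, hv, ?_⟩
      have hd : Disjoint p p' := hdis p (mem_insert_self _ _) p' (mem_insert_of_mem hp')
        (fun h => hp (h ▸ hp'))
      have hv' : v ∉ p' := Finset.disjoint_left.1 hd hv
      simpa [upd, hv'] using hne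
    have := ih (fun q hq q' hq' => hdis q (mem_insert_of_mem hq) q' (mem_insert_of_mem hq'))
      (fun q hq => hc q (mem_insert_of_mem hq)) G1 hcl
    have e : Gs.filter (fun g => ∀ q ∈ insert p Ps, ∃ v ∈ q, g v ≠ a) =
        G1.filter (fun g => ∀ q ∈ Ps, ∃ v ∈ q, g v ≠ a) := by
      ext g
      simp only [hG1, mem_filter, mem_insert, forall_eq_or_imp]
      tauto
    rw [e, card_insert_of_notMem hp, pow_succ]
    refine this.trans ?_
    rw [mul_assoc]
    exact mul_le_mul_of_nonneg_left hstep (pow_nonneg h0 _)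

end Pool.Agent.MP5f1228B
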