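import Mathlib
import Pool.Agent.Lib.MP_5f1228_co.DefsB
import Pool.Agent.Lib.MP_5f1228_co.BUpd
import Pool.Agent.Lib.MP_5f1228_co.BSumDeg

open scoped Classical
open Finset

namespace Pool.Agent.MP5f1228B

/-- functions avoiding the value `a` on `U` -/
theorem bdomcount_avoid {V W : Type} [Fintype V] [Fintype W] (a : W) (U : Finset V)
    [DecidablePred fun g : V → W => ∀ u ∈ U, g u ≠ a] :
    ((univ.filter (fun g : V → W => ∀ u ∈ U, g u ≠ a)).card : ℝ)
      ≤ (1 - 1 / (Fintype.card W : ℝ)) ^ U.card * (Fintype.card (V → W) : ℝ) := by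
  have h := upd_count a 1 (U.image fun u => ({u} : Finset V)) (by
    intro p hp p' hp' hne
    obtain ⟨u, _, rfl⟩ := mem_image.1 hp
    obtain ⟨u', _, rfl⟩ := mem_image.1 hp'
    rw [disjoint_singleton]
    intro h
    exact hne (by rw [h])) (by
    intro p hp
    obtain ⟨u, _, rfl⟩ := mem_image.1 hp
    simp) univ (fun _ _ _ _ => mem_univ _)
  rw [card_image_of_injective _ singleton_injective, pow_one, card_univ] at h
  refine le_trans ?_ h
  exact_mod_cast card_le_card (by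
    intro g hg
    rw [mem_filter] at hg ⊢
    refine ⟨mem_univ _, ?_⟩
    intro p hp
    obtain ⟨u, hu, rfl⟩ := mem_image.1 hp
    exact ⟨u, mem_singleton_self u, hg.2 u hu⟩)

theorem dom_count {V : Type} [Fintype V] {r ℓ : ℕ} (A : V → V → Prop)
    (hA : ∀ a b, A a b → A b a) (hirr : ∀ a, ¬ A a a)
    (K : V → Prop) (lam α p : ℕ) (hK : Robust A K lam)
    (hα : ∀ J : Finset V, (∀ u ∈ J, K u) → Indep A J → J.card ≤ α)
    (ρ : V) (hρ : K ρ) (P : Finset V) (hP : P.card ≤ p) (i : Fin r) (B : ℝ) (hB0 : 0 ≤ B)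
    (hB : ∀ d : ℕ, lam ≤ d → ((d : ℝ) + 1) * (1 - 1 / ((r : ℝ) * (ℓ + 1))) ^ (d + 1 - p) ≤ B) :
    ((univ.filter (fun g : V → Fin r × Fin (ℓ + 1) => ¬ Dom A K (Yl K P ρ i g 1))).card : ℝ)
      ≤ α * B * (Fintype.card (V → Fin r × Fin (ℓ + 1)) : ℝ) := by
  set M : ℝ := (Fintype.card (V → Fin r × Fin (ℓ + 1)) : ℝ) with hM
  have hM0 : 0 ≤ M := Nat.cast_nonneg _
  set m : ℝ := (r : ℝ) * (ℓ + 1) with hm
  have hr1 : (1 : ℝ) ≤ r := by
    have : 0 < r := lt_of_le_of_lt (Nat.zero_le _) i.2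
    exact_mod_cast this
  have hm1 : 1 ≤ m := by
    have h1 : (1 : ℝ) ≤ (ℓ : ℝ) + 1 := by
      have : (0 : ℝ) ≤ ℓ := Nat.cast_nonneg _
      linarith
    calc (1 : ℝ) = 1 * 1 := (one_mul 1).symm
      _ ≤ r * (ℓ + 1) := mul_le_mul hr1 h1 zero_le_one (by linarith)
  have hcard : (Fintype.card (Fin r × Fin (ℓ + 1)) : ℝ) = m := by
    rw [Fintype.card_prod, Fintype.card_fin, Fintype.card_fin, hm]
    push_cast
    ring
  set q : ℝ := 1 - 1 / m with hq
  have hq0 : 0 ≤ q := by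
    rw [hq, sub_nonneg, div_le_one (by linarith)]
    exact hm1
  have hq1 : q ≤ 1 := by
    have : 0 ≤ 1 / m := by positivity
    linarith
  set φ : ℕ → ℝ := fun d => q ^ (d + 1 - p) with hφ
  have hφa : Antitone φ := fun x y hxy =>
    pow_le_pow_of_le_one hq0 hq1 (Nat.sub_le_sub_right (Nat.succ_le_succ hxy) p)
  have hφ0 : ∀ d, 0 ≤ φ d := fun d => pow_nonneg hq0 _
  set a : Fin r × Fin (ℓ + 1) := (i, 0) with ha
  set K' : Finset V := univ.filter (fun v => K v ∧ v ≠ ρ ∧ ¬ A v ρ) with hK'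
  set d : V → ℕ := fun v => (univ.filter (fun u => K u ∧ A v u)).card with hd
  set U : V → Finset V := fun v => univ.filter (fun u => K u ∧ u ∉ P ∧ (u = v ∨ A v u)) with hU
  -- the violations
  have hsub : univ.filter (fun g : V → Fin r × Fin (ℓ + 1) => ¬ Dom A K (Yl K P ρ i g 1)) ⊆
      K'.biUnion fun v => univ.filter (fun g : V → Fin r × Fin (ℓ + 1) => ∀ u ∈ U v, g u ≠ a) := by
    intro g hg
    rw [mem_filter] at hg
    have hg2 := hg.2
    unfold Dom at hg2
    push Not at hg2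
    obtain ⟨v, hv, hv1, hv2⟩ := hg2
    have hYρ : Yl K P ρ i g 1 ρ := Or.inl rfl
    rw [mem_biUnion]
    refine ⟨v, ?_, ?_⟩
    · rw [hK', mem_filter]
      refine ⟨mem_univ _, hv, ?_, hv2 ρ hYρ⟩
      rintro rfl
      exact hv1 hYρ
    · rw [mem_filter]
      refine ⟨mem_univ _, fun u hu hgu => ?_⟩
      rw [hU, mem_filter] at hu
      obtain ⟨-, hu1, hu2, hu3⟩ := hu
      have hY : Yl K P ρ i g 1 u := by
        refine Or.inr ⟨hu1, hu2, ?_, ?_⟩
        · rw [hgu]
        · rw [hgu]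
          simp [ha]
      rcases hu3 with h | h
      · exact hv1 (h ▸ hY)
      · exact hv2 u hY h
  -- the size of `U v`
  have hUcard : ∀ v ∈ K', d v + 1 - p ≤ (U v).card := by
    intro v hv
    rw [hK', mem_filter] at hv
    have h1 : U v = insert v (univ.filter (fun u => K u ∧ A v u)) \ P := by
      ext u
      simp only [hU, mem_filter, mem_univ, true_and, mem_sdiff, mem_insert]
      constructor
      · rintro ⟨h1, h2, h3 | h3⟩
        · exact ⟨Or.inl h3, h2⟩
        · exact ⟨Or.inr ⟨h1, h3⟩, h2⟩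
      · rintro ⟨h1 | h1, h2⟩
        · exact ⟨h1 ▸ hv.2.1, h2, Or.inl h1⟩
        · exact ⟨h1.1, h2, Or.inr h1.2⟩
    have h2 : v ∉ univ.filter (fun u => K u ∧ A v u) := by
      rw [mem_filter]
      exact fun h => hirr v h.2.2
    have h3 : (insert v (univ.filter (fun u => K u ∧ A v u))).card = d v + 1 :=
      card_insert_of_notMem h2
    rw [h1]
    have h4 := le_card_sdiff P (insert v (univ.filter (fun u => K u ∧ A v u)))
    rw [h3] at h4
    omega
  have hlam : ∀ v ∈ K', lam ≤ d v := by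
    intro v hv
    rw [hK', mem_filter] at hv
    obtain ⟨-, hv1, hv2, hv3⟩ := hv
    by_contra hcon
    push Not at hcon
    have h1 := hK (univ.filter (fun u => K u ∧ A v u)) hcon v ρ hv1 (by
      rw [mem_filter]
      exact fun h => hirr v h.2.2) hρ (by
      rw [mem_filter]
      exact fun h => hv3 h.2.2)
    rcases Relation.ReflTransGen.cases_head h1 with h2 | ⟨b, hb, -⟩
    · exact hv2 h2
    · exact hb.2.2 (mem_filter.2 ⟨mem_univ _, hb.2.1, hb.1⟩)
  have hbad : ∀ v ∈ K', ((univ.filter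
      (fun g : V → Fin r × Fin (ℓ + 1) => ∀ u ∈ U v, g u ≠ a)).card : ℝ) ≤ φ (d v) * M := by
    intro v hv
    refine (bdomcount_avoid a (U v)).trans ?_
    rw [hcard]
    exact mul_le_mul_of_nonneg_right (pow_le_pow_of_le_one hq0 hq1 (hUcard v hv)) hM0
  have hsum : ∑ v ∈ K', φ (d v) ≤ α * B := by
    refine sum_deg A hA φ hφa hφ0 B hB0 α K' d ?_ (fun v hv => hB (d v) (hlam v hv)) ?_
    · intro v _
      refine card_le_card fun u hu => ?_
      rw [mem_filter, hK', mem_filter] at hu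
      exact mem_filter.2 ⟨mem_univ _, hu.1.2.1, hu.2⟩
    · intro J hJ hind
      refine hα J (fun u hu => ?_) hind
      have := hJ hu
      rw [hK', mem_filter] at this
      exact this.2.1
  calc ((univ.filter (fun g : V → Fin r × Fin (ℓ + 1) => ¬ Dom A K (Yl K P ρ i g 1))).card : ℝ)
      ≤ ((K'.biUnion fun v => univ.filter
          (fun g : V → Fin r × Fin (ℓ + 1) => ∀ u ∈ U v, g u ≠ a)).card : ℝ) := by
        exact_mod_cast card_le_card hsub
    _ ≤ ∑ v ∈ K', ((univ.filter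
          (fun g : V → Fin r × Fin (ℓ + 1) => ∀ u ∈ U v, g u ≠ a)).card : ℝ) := by
        exact_mod_cast card_biUnion_le
    _ ≤ ∑ v ∈ K', φ (d v) * M := sum_le_sum hbad
    _ = (∑ v ∈ K', φ (d v)) * M := by rw [sum_mul]
    _ ≤ α * B * M := mul_le_mul_of_nonneg_right hsum hM0

end Pool.Agent.MP5f1228B
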