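import Mathlib
import Pool.Agent.Lib.MP_5f1228_co.DefsB

/-!
# MP_5f1228_co, module BHalve

If no layer is stuck, the number of components halves in each layer; after `ℓ` layers the set
is connected.
-/

open scoped Classical
open Finset

namespace Pool.Agent.MP5f1228B

/-- `J` consists of points of `Y` in pairwise different `A`-components of `Y`. -/
def halveScat {V : Type} (A : V → V → Prop) (Y : V → Prop) (J : Finset V) : Prop :=
  (∀ j ∈ J, Y j) ∧ ∀ j ∈ J, ∀ j' ∈ J, j ≠ j' → ¬ Con A Y j j'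

theorem halve_step {V : Type} (A : V → V → Prop)
    (hA : ∀ a b, A a b → A b a) (K Y₁ Y Y' : V → Prop)
    (h1 : ∀ v, Y₁ v → Y v) (h2 : ∀ v, Y v → Y' v) (hK : ∀ v, Y' v → K v)
    (hdom : Dom A K Y₁) (hst : ¬ Stuck A Y Y') (J : Finset V) (hJ : halveScat A Y' J)
    (hc : 2 ≤ J.card) : ∃ J' : Finset V, halveScat A Y J' ∧ J'.card = 2 * J.card := by
  obtain ⟨hJ1, hJ2⟩ := hJ
  have hu : ∀ j, j ∈ J → ∃ u, Y₁ u ∧ Con A Y' j u := by
    intro j hj
    rcases hdom j (hK j (hJ1 j hj)) with h | ⟨y, hy, hjy⟩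
    · exact ⟨j, h, Con.refl j⟩
    · exact ⟨y, hy, Con.single hjy (h2 _ (h1 _ hy))⟩
  choose! u hu1 hu2 using hu
  have hsep : ∀ j ∈ J, ∀ j' ∈ J, j ≠ j' → ∀ a b, Con A Y' j a → Con A Y' j' b → Y' a → Y' b →
      ¬ Con A Y' a b := by
    intro j hj j' hj' hne a b ha hb hYa hYb hab
    exact hJ2 j hj j' hj' hne ((ha.trans hab).trans (hb.symm hA (hJ1 j' hj')))
  have hv : ∀ j, j ∈ J → ∃ v, Y v ∧ ¬ Con A Y (u j) v ∧ Con A Y' (u j) v := by
    intro j hj
    obtain ⟨j', hj', hne⟩ : ∃ j' ∈ J, j' ≠ j := by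
      obtain ⟨a, ha, b, hb, hab⟩ := Finset.one_lt_card.mp (by omega : 1 < J.card)
      by_cases h : a = j
      · exact ⟨b, hb, fun h' => hab (h.trans h'.symm)⟩
      · exact ⟨a, ha, h⟩
    have hnc : ¬ Con A Y' (u j) (u j') :=
      hsep j hj j' hj' hne.symm _ _ (hu2 j hj) (hu2 j' hj') (h2 _ (h1 _ (hu1 j hj)))
        (h2 _ (h1 _ (hu1 j' hj')))
    have hnc' : ¬ Con A Y (u j) (u j') := fun h => hnc (h.monoP h2)
    by_contra hcon
    push Not at hcon
    exact hst ⟨u j, h1 _ (hu1 j hj), ⟨u j', h1 _ (hu1 j' hj'), hnc'⟩, hcon⟩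
  choose! v hv1 hv2 hv3 using hv
  have hYu : ∀ j ∈ J, Y (u j) := fun j hj => h1 _ (hu1 j hj)
  have hcu : ∀ j ∈ J, Con A Y' j (u j) := hu2
  have hcv : ∀ j ∈ J, Con A Y' j (v j) := fun j hj => (hu2 j hj).trans (hv3 j hj)
  have huu : ∀ j ∈ J, ∀ j' ∈ J, j ≠ j' → ¬ Con A Y' (u j) (u j') := fun j hj j' hj' hne =>
    hsep j hj j' hj' hne _ _ (hcu j hj) (hcu j' hj') (h2 _ (hYu j hj)) (h2 _ (hYu j' hj'))
  have hvv : ∀ j ∈ J, ∀ j' ∈ J, j ≠ j' → ¬ Con A Y' (v j) (v j') := fun j hj j' hj' hne =>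
    hsep j hj j' hj' hne _ _ (hcv j hj) (hcv j' hj') (h2 _ (hv1 j hj)) (h2 _ (hv1 j' hj'))
  have huv : ∀ j ∈ J, ∀ j' ∈ J, j ≠ j' → ¬ Con A Y' (u j) (v j') := fun j hj j' hj' hne =>
    hsep j hj j' hj' hne _ _ (hcu j hj) (hcv j' hj') (h2 _ (hYu j hj)) (h2 _ (hv1 j' hj'))
  have hvu : ∀ j ∈ J, ∀ j' ∈ J, j ≠ j' → ¬ Con A Y' (v j) (u j') := fun j hj j' hj' hne =>
    hsep j hj j' hj' hne _ _ (hcv j hj) (hcu j' hj') (h2 _ (hv1 j hj)) (h2 _ (hYu j' hj'))
  have huvY : ∀ j ∈ J, ∀ j' ∈ J, ¬ Con A Y (u j) (v j') := by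
    intro j hj j' hj'
    by_cases h : j = j'
    · subst h; exact hv2 j hj
    · exact fun hh => huv j hj j' hj' h (hh.monoP h2)
  have hvuY : ∀ j ∈ J, ∀ j' ∈ J, ¬ Con A Y (v j) (u j') := by
    intro j hj j' hj' hh
    exact huvY j' hj' j hj (hh.symm hA (hv1 j hj))
  have huinj : Set.InjOn u (J : Set V) := by
    intro a ha b hb hab
    by_contra hne
    exact huu a ha b hb hne (by rw [hab]; exact Con.refl _)
  have hvinj : Set.InjOn v (J : Set V) := by
    intro a ha b hb hab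
    by_contra hne
    exact hvv a ha b hb hne (by rw [hab]; exact Con.refl _)
  refine ⟨J.image u ∪ J.image v, ⟨?_, ?_⟩, ?_⟩
  · intro x hx
    rcases Finset.mem_union.mp hx with hx | hx
    · obtain ⟨j, hj, rfl⟩ := Finset.mem_image.mp hx
      exact hYu j hj
    · obtain ⟨j, hj, rfl⟩ := Finset.mem_image.mp hx
      exact hv1 j hj
  · intro x hx y hy hne
    rcases Finset.mem_union.mp hx with hx | hx <;> rcases Finset.mem_union.mp hy with hy | hy
    · obtain ⟨j, hj, rfl⟩ := Finset.mem_image.mp hx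
      obtain ⟨j', hj', rfl⟩ := Finset.mem_image.mp hy
      have hjj : j ≠ j' := fun h => hne (by rw [h])
      exact fun h => huu j hj j' hj' hjj (h.monoP h2)
    · obtain ⟨j, hj, rfl⟩ := Finset.mem_image.mp hx
      obtain ⟨j', hj', rfl⟩ := Finset.mem_image.mp hy
      exact huvY j hj j' hj'
    · obtain ⟨j, hj, rfl⟩ := Finset.mem_image.mp hx
      obtain ⟨j', hj', rfl⟩ := Finset.mem_image.mp hy
      exact hvuY j hj j' hj'
    · obtain ⟨j, hj, rfl⟩ := Finset.mem_image.mp hx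
      obtain ⟨j', hj', rfl⟩ := Finset.mem_image.mp hy
      have hjj : j ≠ j' := fun h => hne (by rw [h])
      exact fun h => hvv j hj j' hj' hjj (h.monoP h2)
  · rw [Finset.card_union_of_disjoint, Finset.card_image_of_injOn huinj,
      Finset.card_image_of_injOn hvinj]
    · omega
    · rw [Finset.disjoint_left]
      intro x hx hy
      obtain ⟨j, hj, rfl⟩ := Finset.mem_image.mp hx
      obtain ⟨j', hj', h⟩ := Finset.mem_image.mp hy
      exact huvY j hj j' hj' (by rw [h]; exact Con.refl _)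

theorem halve {V : Type} [Fintype V] {r ℓ : ℕ} (A : V → V → Prop)
    (hA : ∀ a b, A a b → A b a) (K : V → Prop) (α : ℕ)
    (hα : ∀ J : Finset V, (∀ u ∈ J, K u) → Indep A J → J.card ≤ α)
    (ρ : V) (hρ : K ρ) (P : Finset V) (i : Fin r) (g : V → Fin r × Fin (ℓ + 1))
    (hdom : Dom A K (Yl K P ρ i g 1))
    (hst : ∀ t, 1 ≤ t → t ≤ ℓ → ¬ Stuck A (Yl K P ρ i g t) (Yl K P ρ i g (t + 1)))
    (hℓ : α ≤ 2 ^ ℓ) :
    ∀ u v, Yl K P ρ i g (ℓ + 1) u → Yl K P ρ i g (ℓ + 1) v →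
      Con A (Yl K P ρ i g (ℓ + 1)) u v := by
  have hYK : ∀ t v, Yl K P ρ i g t v → K v := by
    rintro t v (rfl | h)
    · exact hρ
    · exact h.1
  have hmono : ∀ t t', t ≤ t' → ∀ v, Yl K P ρ i g t v → Yl K P ρ i g t' v := by
    rintro t t' htt v (rfl | h)
    · exact Or.inl rfl
    · exact Or.inr ⟨h.1, h.2.1, h.2.2.1, lt_of_lt_of_le h.2.2.2 htt⟩
  have key : ∀ s, s ≤ ℓ → ∀ J : Finset V, halveScat A (Yl K P ρ i g (s + 1)) J →
      J.card ≤ 1 ∨ 2 ^ s * J.card ≤ α := by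
    intro s
    induction s with
    | zero =>
      intro _ J hJ
      right
      have := hα J (fun u hu => hYK _ _ (hJ.1 u hu)) (by
        intro a ha b hb hne hab
        exact hJ.2 a ha b hb hne (Con.single hab (hJ.1 b hb)))
      simpa using this
    | succ s ih =>
      intro hs J hJ
      by_cases hc : J.card ≤ 1
      · exact Or.inl hc
      right
      obtain ⟨J', hJ', hcard⟩ := halve_step A hA K (Yl K P ρ i g 1) (Yl K P ρ i g (s + 1))
        (Yl K P ρ i g (s + 1 + 1)) (hmono 1 (s + 1) (by omega))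
        (hmono (s + 1) (s + 1 + 1) (by omega)) (hYK _) hdom (hst (s + 1) (by omega) hs) J hJ
        (by omega)
      rcases ih (by omega) J' hJ' with h | h
      · omega
      · rw [hcard] at h
        calc 2 ^ (s + 1) * J.card = 2 ^ s * (2 * J.card) := by ring
          _ ≤ α := h
  intro u v hu hv
  by_contra hcon
  have hne : u ≠ v := by
    rintro rfl
    exact hcon (Con.refl _)
  have hJ : halveScat A (Yl K P ρ i g (ℓ + 1)) {u, v} := by
    refine ⟨?_, ?_⟩
    · intro x hx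
      rcases Finset.mem_insert.mp hx with rfl | hx
      · exact hu
      · rw [Finset.mem_singleton.mp hx]; exact hv
    · intro x hx y hy hxy
      have hx' : x = u ∨ x = v := by simpa using hx
      have hy' : y = u ∨ y = v := by simpa using hy
      rcases hx' with hx' | hx' <;> rcases hy' with hy' | hy'
      · exact absurd (hx'.trans hy'.symm) hxy
      · rw [hx', hy']; exact hcon
      · rw [hx', hy']; exact fun h => hcon (h.symm hA hv)
      · exact absurd (hx'.trans hy'.symm) hxy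
  have hcard : ({u, v} : Finset V).card = 2 := Finset.card_pair hne
  rcases key ℓ le_rfl _ hJ with h | h
  · omega
  · rw [hcard] at h
    have : 0 < 2 ^ ℓ := by positivity
    omega

end Pool.Agent.MP5f1228B
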