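import Mathlib
import Pool.Agent.Lib.MP_5f1228_co.DefsB

/-!
# MP_5f1228_co, module BIndep: independent sets of the robust graph are bounded
-/

open scoped Classical
open Finset

namespace Pool.Agent.MP5f1228B

theorem bindep_nat (d : ℕ) : d ≤ 1 + (d * d - d) := by
  rcases Nat.eq_zero_or_pos d with h | h
  · simp [h]
  · have h1 : d ≤ d * d := Nat.le_mul_of_pos_left d h
    have h2 : 2 * d ≤ 1 + d * d := by nlinarith [sq_nonneg ((d : ℤ) - 1), h]
    omega

theorem indep_card {V : Type} [Fintype V] {r : ℕ} (N : Fin r → V → V → Prop) (T E α : ℕ)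
    (h : Fintype.card V + (α + 1) ^ 2 * E < (α + 1) * T) (i : Fin r) (J : Finset V)
    (hJ : ∀ u ∈ J, Zr N T i u) (hind : Indep (Rob N E i) J) : J.card ≤ α := by
  by_contra hcon
  push Not at hcon
  obtain ⟨J', hJJ, hcard⟩ := exists_subset_card_eq (s := J) (n := α + 1) hcon
  -- lower bound
  have h1 : (α + 1) * T ≤ ∑ u ∈ J', (nb N i u).card := by
    rw [← hcard, ← smul_eq_mul]
    exact card_nsmul_le_sum _ _ _ (fun u hu => hJ u (hJJ hu))
  -- double counting
  have h2 : ∑ u ∈ J', (nb N i u).card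
      = ∑ x : V, (J'.filter (fun u => N i u x)).card := by
    exact sum_card_bipartiteAbove_eq_sum_card_bipartiteBelow (s := J') (t := univ)
      (fun u x => N i u x)
  have h3 : ∑ p ∈ J'.offDiag, (nb N i p.1 ∩ nb N i p.2).card
      = ∑ x : V, ((J'.filter (fun u => N i u x)).offDiag).card := by
    have e1 : ∀ p : V × V, nb N i p.1 ∩ nb N i p.2
        = univ.filter (fun x => N i p.1 x ∧ N i p.2 x) := by
      intro p
      ext x
      simp [mem_nb]
    have e2 : ∀ x : V, (J'.filter (fun u => N i u x)).offDiag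
        = J'.offDiag.filter (fun p : V × V => N i p.1 x ∧ N i p.2 x) := by
      intro x
      ext p
      simp only [mem_offDiag, mem_filter]
      tauto
    simp only [e1, e2]
    exact sum_card_bipartiteAbove_eq_sum_card_bipartiteBelow (s := J'.offDiag) (t := univ)
      (fun p x => N i p.1 x ∧ N i p.2 x)
  have h4 : ∑ p ∈ J'.offDiag, (nb N i p.1 ∩ nb N i p.2).card ≤ (α + 1) ^ 2 * E := by
    have h5 : ∑ p ∈ J'.offDiag, (nb N i p.1 ∩ nb N i p.2).card ≤ J'.offDiag.card * E := by
      rw [← smul_eq_mul]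
      refine sum_le_card_nsmul _ _ _ ?_
      intro p hp
      rw [mem_offDiag] at hp
      by_contra hlt
      push Not at hlt
      exact hind p.1 (hJJ hp.1) p.2 (hJJ hp.2.1) hp.2.2 ⟨hp.2.2, hlt.le⟩
    refine h5.trans (Nat.mul_le_mul_right _ ?_)
    rw [offDiag_card, hcard]
    calc (α + 1) * (α + 1) - (α + 1) ≤ (α + 1) * (α + 1) := Nat.sub_le _ _
      _ = (α + 1) ^ 2 := by ring
  have h6 : ∑ x : V, (J'.filter (fun u => N i u x)).card
      ≤ ∑ x : V, (1 + ((J'.filter (fun u => N i u x)).offDiag).card) := by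
    refine sum_le_sum (fun x _ => ?_)
    rw [offDiag_card]
    exact bindep_nat _
  rw [sum_add_distrib, ← h3] at h6
  have h7 : ∑ _x : V, 1 = Fintype.card V := by simp
  omega

end Pool.Agent.MP5f1228B
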