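import Mathlib
import Pool.Agent.Lib.MP_5f1228_co.DefsB
import Pool.Agent.Lib.MP_5f1228_co.BUpd

open scoped Classical
open Finset

namespace Pool.Agent.MP5f1228B

/-- `q` is a connector for the component of `j` in `Y` -/
def merge_count_IsConn {V : Type} (A : V → V → Prop) (K Y : V → Prop) (P : Finset V) (j : V)
    (q : Finset V) : Prop :=
  q.card ≤ 2 ∧ (∀ v ∈ q, K v ∧ v ∉ P ∧ ¬ Y v) ∧
    ∀ Y' : V → Prop, (∀ v, Y v → Y' v) → (∀ v ∈ q, Y' v) →
      ∃ v, Y v ∧ ¬ Con A Y j v ∧ Con A Y' j v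

/-- many disjoint connectors -/
theorem merge_count_connectors {V : Type} [Fintype V] (A : V → V → Prop)
    (hA : ∀ a b, A a b → A b a) (K : V → Prop) (lam p Nn : ℕ) (hK : Robust A K lam)
    (P : Finset V) (hP : P.card ≤ p) (hN : 2 * Nn + p ≤ lam)
    (Y : V → Prop) (hYK : ∀ v, Y v → K v) (hYP : ∀ v, Y v → v ∉ P) (hdom : Dom A K Y)
    (j v0 : V) (hj : Y j) (hv0 : Y v0) (hjv : ¬ Con A Y j v0) :
    ∃ Ps : Finset (Finset V), Nn ≤ Ps.card ∧
      (∀ q ∈ Ps, ∀ q' ∈ Ps, q ≠ q' → Disjoint q q') ∧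
      ∀ q ∈ Ps, merge_count_IsConn A K Y P j q := by
  set fam : Finset (Finset (Finset V)) := univ.filter (fun Ps =>
    (∀ q ∈ Ps, ∀ q' ∈ Ps, q ≠ q' → Disjoint q q') ∧
      ∀ q ∈ Ps, merge_count_IsConn A K Y P j q) with hfam
  have hne : fam.Nonempty := ⟨∅, by simp [hfam]⟩
  obtain ⟨Ps, hPs, hmax⟩ := fam.exists_max_image (fun Ps => Ps.card) hne
  obtain ⟨hdis, hconn⟩ := (mem_filter.1 hPs).2
  refine ⟨Ps, ?_, hdis, hconn⟩
  by_contra hlt
  rw [not_le] at hlt
  set F : Finset V := P ∪ Ps.biUnion id with hF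
  have hFcard : F.card < lam := by
    have h1 : (Ps.biUnion id).card ≤ Ps.card * 2 :=
      card_biUnion_le_card_mul _ _ _ (fun q hq => (hconn q hq).1)
    have h2 := card_union_le P (Ps.biUnion id)
    rw [← hF] at h2
    omega
  have hYF : ∀ v, Y v → v ∉ F := by
    intro v hv hvF
    rw [hF, mem_union, mem_biUnion] at hvF
    rcases hvF with h | ⟨q, hq, hvq⟩
    · exact hYP v hv h
    · exact ((hconn q hq).2.1 v hvq).2.2 hv
  have hpath := hK F hFcard j v0 (hYK j hj) (hYF j hj) (hYK v0 hv0) (hYF v0 hv0)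
  set U : V → Prop := fun w => Con A Y j w ∨ (K w ∧ ¬ Y w ∧ ∃ u, Con A Y j u ∧ A w u) with hU
  have hUj : U j := Or.inl (Con.refl j)
  have hUv : ¬ U v0 := by
    rintro (h | h)
    · exact hjv h
    · exact h.2.1 hv0
  obtain ⟨a, b, hUa, hUb, hab, hb, hja⟩ := Con.exit U hpath hUj hUv
  rcases hUa with ha | ⟨hKa, hYa, u, hju, hau⟩
  · by_cases hYb : Y b
    · exact hUb (Or.inl (ha.tail hab hYb))
    · exact hUb (Or.inr ⟨hb.1, hYb, a, ha, hA _ _ hab⟩)
  · have haF : a ∉ F := by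
      rcases hja.end_mem with h | h
      · exact absurd (h ▸ hj) hYa
      · exact h.2
    have haP : a ∉ P := fun h => haF (mem_union_left _ h)
    have hbP : b ∉ P := fun h => hb.2 (mem_union_left _ h)
    -- a connector disjoint from `F`
    have hnew : ∃ q : Finset V, a ∈ q ∧ (∀ v ∈ q, v ∉ F) ∧ merge_count_IsConn A K Y P j q := by
      by_cases hYb : Y b
      · refine ⟨{a}, mem_singleton_self a, ?_, by simp, ?_, ?_⟩
        · intro v hv
          rw [mem_singleton] at hv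
          rw [hv]; exact haF
        · intro v hv
          rw [mem_singleton] at hv
          rw [hv]; exact ⟨hKa, haP, hYa⟩
        · intro Y' hYY hq
          refine ⟨b, hYb, fun h => hUb (Or.inl h), ?_⟩
          exact ((hju.monoP hYY).tail (hA _ _ hau) (hq a (mem_singleton_self a))).tail hab
            (hYY b hYb)
      · rcases hdom b hb.1 with h | ⟨y, hy, hby⟩
        · exact absurd h hYb
        · refine ⟨{a, b}, mem_insert_self a _, ?_, card_le_two, ?_, ?_⟩
          · intro v hv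
            rw [mem_insert, mem_singleton] at hv
            rcases hv with h | h
            · rw [h]; exact haF
            · rw [h]; exact hb.2
          · intro v hv
            rw [mem_insert, mem_singleton] at hv
            rcases hv with h | h
            · rw [h]; exact ⟨hKa, haP, hYa⟩
            · rw [h]; exact ⟨hb.1, hbP, hYb⟩
          · intro Y' hYY hq
            refine ⟨y, hy, fun h => hUb (Or.inr ⟨hb.1, hYb, y, h, hby⟩), ?_⟩
            exact (((hju.monoP hYY).tail (hA _ _ hau) (hq a (by simp))).tail hab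
              (hq b (by simp))).tail hby (hYY y hy)
    obtain ⟨q, haq, hqF, hqc⟩ := hnew
    have hsub : ∀ q' ∈ Ps, q' ⊆ F := fun q' hq' v hv =>
      mem_union_right _ (mem_biUnion.2 ⟨q', hq', hv⟩)
    have hdq : ∀ q' ∈ Ps, Disjoint q q' := fun q' hq' =>
      disjoint_left.2 (fun v hv hv' => hqF v hv (hsub q' hq' hv'))
    have hqn : q ∉ Ps := fun h => haF (hsub q h haq)
    have hins : insert q Ps ∈ fam := by
      rw [hfam, mem_filter]
      refine ⟨mem_univ _, ?_, ?_⟩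
      · intro q1 h1 q2 h2 hne
        rw [mem_insert] at h1 h2
        rcases h1 with h1 | h1 <;> rcases h2 with h2 | h2
        · exact absurd (h1.trans h2.symm) hne
        · rw [h1]; exact hdq q2 h2
        · rw [h2]; exact (hdq q1 h1).symm
        · exact hdis q1 h1 q2 h2 hne
      · intro q1 h1
        rw [mem_insert] at h1
        rcases h1 with h1 | h1
        · rw [h1]; exact hqc
        · exact hconn q1 h1
    have := hmax _ hins
    rw [card_insert_of_notMem hqn] at this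
    omega

/-- a maximal set of representatives of components -/
theorem merge_count_reps {V : Type} [Fintype V] (A : V → V → Prop)
    (hA : ∀ a b, A a b → A b a) (S : Finset V) :
    ∃ J : Finset V, J ⊆ S ∧ Indep A J ∧ ∀ u ∈ S, ∃ j ∈ J, Con A (fun v => v ∈ S) u j := by
  set fam : Finset (Finset V) := S.powerset.filter (fun J =>
    ∀ u ∈ J, ∀ v ∈ J, u ≠ v → ¬ Con A (fun v => v ∈ S) u v) with hfam
  have hne : fam.Nonempty := ⟨∅, by simp [hfam]⟩
  obtain ⟨J, hJ, hmax⟩ := fam.exists_max_image (fun J => J.card) hne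
  obtain ⟨hJS, hJc⟩ := mem_filter.1 hJ
  rw [mem_powerset] at hJS
  refine ⟨J, hJS, ?_, ?_⟩
  · intro u hu v hv huv h
    exact hJc u hu v hv huv (Con.single h (hJS hv))
  · intro u hu
    by_contra hcon
    push Not at hcon
    have huJ : u ∉ J := fun h => hcon u h (Con.refl u)
    have hins : insert u J ∈ fam := by
      rw [hfam, mem_filter, mem_powerset]
      refine ⟨insert_subset hu hJS, ?_⟩
      intro x hx y hy hxy
      rw [mem_insert] at hx hy
      rcases hx with hx | hx <;> rcases hy with hy | hy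
      · exact absurd (hx.trans hy.symm) hxy
      · rw [hx]; exact hcon y hy
      · rw [hy]
        intro h
        exact hcon x hx (Con.symm (P := fun v => v ∈ S) hA (hJS hx) h)
      · exact hJc x hx y hy hxy
    have := hmax _ hins
    rw [card_insert_of_notMem huJ] at this
    omega

/-- overwriting in the form used below -/
theorem merge_count_upd {V W : Type} [Fintype V] [Fintype W] (a : W) (c N : ℕ)
    (Ps : Finset (Finset V)) (hdis : ∀ p ∈ Ps, ∀ p' ∈ Ps, p ≠ p' → Disjoint p p')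
    (hN : N ≤ Ps.card) (hc : ∀ p ∈ Ps, p.card ≤ c) (Gs : Finset (V → W))
    (hG : ∀ g ∈ Gs, ∀ p ∈ Ps, upd g p a ∈ Gs) (B : Finset (V → W)) (hB : B ⊆ Gs)
    (hBn : ∀ g ∈ B, ∀ p ∈ Ps, ∃ v ∈ p, g v ≠ a) (θ : ℝ) (hθ0 : 0 ≤ θ) (hθ1 : θ ≤ 1)
    (hθ : θ = 1 - 1 / (Fintype.card W : ℝ) ^ c) :
    (B.card : ℝ) ≤ θ ^ N * Gs.card := by
  have hup := upd_count a c Ps hdis hc Gs hG
  rw [← hθ] at hup
  refine le_trans (Nat.cast_le.2 (card_le_card ?_)) (le_trans hup ?_)
  · intro g hg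
    exact mem_filter.2 ⟨hB hg, hBn g hg⟩
  · refine mul_le_mul_of_nonneg_right ?_ (Nat.cast_nonneg _)
    exact pow_le_pow_of_le_one hθ0 hθ1 hN

/-- the layered set, abstractly -/
def merge_count_Y {V W : Type} (K : V → Prop) (P : Finset V) (ρ : V) (lay : W → ℕ → Prop)
    (g : V → W) (s : ℕ) : V → Prop :=
  fun v => v = ρ ∨ (K v ∧ v ∉ P ∧ lay (g v) s)

theorem merge_count_gen {V W : Type} [Fintype V] [Fintype W] (A : V → V → Prop)
    (hA : ∀ a b, A a b → A b a)
    (K : V → Prop) (lam α p Nn : ℕ) (hK : Robust A K lam)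
    (hα : ∀ J : Finset V, (∀ u ∈ J, K u) → Indep A J → J.card ≤ α)
    (ρ : V) (hρ : K ρ) (P : Finset V) (hP : P.card ≤ p) (hρP : ρ ∉ P)
    (hN : 2 * Nn + p ≤ lam) (t : ℕ) (ht1 : 1 ≤ t) (lay : W → ℕ → Prop)
    (hlay : ∀ w s s', s ≤ s' → lay w s → lay w s')
    (a : W) (ha0 : ∀ s, s ≤ t → ¬ lay a s) (ha1 : lay a (t + 1))
    (θ : ℝ) (hθ0 : 0 ≤ θ) (hθ1 : θ ≤ 1) (hθ : θ = 1 - 1 / (Fintype.card W : ℝ) ^ 2) :
    ((univ.filter (fun g : V → W =>
        Dom A K (merge_count_Y K P ρ lay g 1) ∧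
          Stuck A (merge_count_Y K P ρ lay g t) (merge_count_Y K P ρ lay g (t + 1)))).card : ℝ)
      ≤ α * θ ^ Nn * (Fintype.card (V → W) : ℝ) := by
  obtain ⟨T, hT⟩ : ∃ T : Finset (V → W), T = univ.filter (fun g : V → W =>
        Dom A K (merge_count_Y K P ρ lay g 1) ∧
          Stuck A (merge_count_Y K P ρ lay g t) (merge_count_Y K P ρ lay g (t + 1))) := ⟨_, rfl⟩
  rw [← hT]
  have hmT : ∀ g, g ∈ T ↔ Dom A K (merge_count_Y K P ρ lay g 1) ∧
      Stuck A (merge_count_Y K P ρ lay g t) (merge_count_Y K P ρ lay g (t + 1)) := by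
    intro g
    rw [hT]
    exact ⟨fun h => (mem_filter.1 h).2, fun h => mem_filter.2 ⟨mem_univ _, h⟩⟩
  obtain ⟨Yf, hYf⟩ : ∃ Yf : (V → W) → Finset V,
      ∀ g v, v ∈ Yf g ↔ merge_count_Y K P ρ lay g t v :=
    ⟨fun g => univ.filter (fun v => merge_count_Y K P ρ lay g t v),
      fun g v => ⟨fun h => (mem_filter.1 h).2, fun h => mem_filter.2 ⟨mem_univ _, h⟩⟩⟩
  have hYmono : ∀ (g : V → W) (s s' : ℕ), s ≤ s' → ∀ v,
      merge_count_Y K P ρ lay g s v → merge_count_Y K P ρ lay g s' v := by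
    intro g s s' hs v hv
    rcases hv with h | ⟨h1, h2, h3⟩
    · exact Or.inl h
    · exact Or.inr ⟨h1, h2, hlay _ s s' hs h3⟩
  have hθN : 0 ≤ θ ^ Nn := pow_nonneg hθ0 _
  -- one fibre
  have key : ∀ S : Finset V, ((T.filter (fun g => Yf g = S)).card : ℝ) ≤
      α * θ ^ Nn * ((univ.filter (fun g : V → W => Yf g = S)).card : ℝ) := by
    intro S
    obtain ⟨TS, hTS⟩ : ∃ TS : Finset (V → W), TS = T.filter (fun g => Yf g = S) := ⟨_, rfl⟩
    obtain ⟨US, hUS⟩ : ∃ US : Finset (V → W), US = univ.filter (fun g : V → W => Yf g = S) :=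
      ⟨_, rfl⟩
    rw [← hTS, ← hUS]
    have hmTS : ∀ g, g ∈ TS ↔ g ∈ T ∧ Yf g = S := fun g => by rw [hTS, mem_filter]
    have hmUS : ∀ g, g ∈ US ↔ Yf g = S := fun g => by
      rw [hUS, mem_filter]; exact ⟨fun h => h.2, fun h => ⟨mem_univ _, h⟩⟩
    rcases TS.eq_empty_or_nonempty with hE | ⟨g0, hg0⟩
    · rw [hE, card_empty, Nat.cast_zero]
      exact mul_nonneg (mul_nonneg (Nat.cast_nonneg _) hθN) (Nat.cast_nonneg _)
    have hYS : ∀ g, Yf g = S → ∀ v, merge_count_Y K P ρ lay g t v ↔ v ∈ S := by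
      intro g hg v
      rw [← hg, hYf]
    obtain ⟨hg0T, hg0S⟩ := (hmTS g0).1 hg0
    obtain ⟨hg0d, -⟩ := (hmT g0).1 hg0T
    have hρS : ρ ∈ S := (hYS g0 hg0S ρ).1 (Or.inl rfl)
    have hSK : ∀ v, v ∈ S → K v := by
      intro v hv
      rcases (hYS g0 hg0S v).2 hv with h | h
      · rw [h]; exact hρ
      · exact h.1
    have hSP : ∀ v, v ∈ S → v ∉ P := by
      intro v hv
      rcases (hYS g0 hg0S v).2 hv with h | h
      · rw [h]; exact hρP
      · exact h.2.1
    have hSdom : Dom A K (fun v => v ∈ S) := by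
      intro v hv
      rcases hg0d v hv with h | ⟨y, hy, hvy⟩
      · exact Or.inl ((hYS g0 hg0S v).1 (hYmono g0 1 t ht1 v h))
      · exact Or.inr ⟨y, (hYS g0 hg0S y).1 (hYmono g0 1 t ht1 y hy), hvy⟩
    obtain ⟨J, hJS, hJi, hJrep⟩ := merge_count_reps A hA S
    have hJα : J.card ≤ α := hα J (fun u hu => hSK u (hJS hu)) hJi
    obtain ⟨Gs, hmGs⟩ : ∃ Gs : Finset (V → W), ∀ g, g ∈ Gs ↔
        (Yf g = S ∧ Dom A K (merge_count_Y K P ρ lay g 1)) :=
      ⟨univ.filter (fun g => Yf g = S ∧ Dom A K (merge_count_Y K P ρ lay g 1)),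
        fun g => ⟨fun h => (mem_filter.1 h).2, fun h => mem_filter.2 ⟨mem_univ _, h⟩⟩⟩
    obtain ⟨Bad, hmBad⟩ : ∃ Bad : V → Finset (V → W), ∀ j g, g ∈ Bad j ↔
        (g ∈ Gs ∧ (∃ v, v ∈ S ∧ ¬ Con A (fun v => v ∈ S) j v) ∧
        ∀ v, v ∈ S → ¬ Con A (fun v => v ∈ S) j v →
          ¬ Con A (merge_count_Y K P ρ lay g (t + 1)) j v) :=
      ⟨fun j => Gs.filter (fun g =>
      (∃ v, v ∈ S ∧ ¬ Con A (fun v => v ∈ S) j v) ∧
        ∀ v, v ∈ S → ¬ Con A (fun v => v ∈ S) j v →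
          ¬ Con A (merge_count_Y K P ρ lay g (t + 1)) j v),
        fun j g => ⟨fun h => mem_filter.1 h, fun h => mem_filter.2 h⟩⟩
    have hsubset : TS ⊆ J.biUnion Bad := by
      intro g hg
      obtain ⟨hgT, hgS⟩ := (hmTS g).1 hg
      obtain ⟨hgd, u, hu, ⟨v, hv, huv⟩, hst⟩ := (hmT g).1 hgT
      have hYeq : merge_count_Y K P ρ lay g t = fun v => v ∈ S := by
        funext w; exact propext (hYS g hgS w)
      rw [hYeq] at hu huv hv hst
      obtain ⟨j, hj, huj⟩ := hJrep u hu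
      have hju : Con A (fun v => v ∈ S) j u := Con.symm (P := fun v => v ∈ S) hA hu huj
      rw [mem_biUnion]
      refine ⟨j, hj, ?_⟩
      refine (hmBad j g).2 ⟨(hmGs g).2 ⟨hgS, hgd⟩, ⟨v, hv, ?_⟩, ?_⟩
      · intro h
        exact huv (huj.trans h)
      · intro w hw hjw hjw'
        refine hst w hw (fun h => hjw (hju.trans h)) ?_
        have h1 : Con A (merge_count_Y K P ρ lay g (t + 1)) u j := by
          refine huj.monoP ?_
          intro x hx
          exact hYmono g t (t + 1) (Nat.le_succ t) x ((hYS g hgS x).2 hx)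
        exact h1.trans hjw'
    have hBadle : ∀ j ∈ J, ((Bad j).card : ℝ) ≤ θ ^ Nn * Gs.card := by
      intro j hj
      by_cases hex : ∃ v, v ∈ S ∧ ¬ Con A (fun v => v ∈ S) j v
      · obtain ⟨v0, hv0, hjv0⟩ := hex
        obtain ⟨Ps, hPsc, hPsd, hPsC⟩ := merge_count_connectors A hA K lam p Nn hK P hP hN
          (fun v => v ∈ S) hSK hSP hSdom j v0 (hJS hj) hv0 hjv0
        have hYupd : ∀ g ∈ Gs, ∀ q ∈ Ps, ∀ s, s ≤ t →
            merge_count_Y K P ρ lay (upd g q a) s = merge_count_Y K P ρ lay g s := by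
          intro g hg q hq s hs
          have hgS : Yf g = S := ((hmGs g).1 hg).1
          funext v
          apply propext
          by_cases hvq : v ∈ q
          · have hvS : v ∉ S := ((hPsC q hq).2.1 v hvq).2.2
            have e : upd g q a v = a := by simp [upd, hvq]
            constructor
            · rintro (h | ⟨-, -, h3⟩)
              · exact absurd (h ▸ hρS) hvS
              · exfalso
                rw [e] at h3
                exact ha0 s hs h3
            · intro h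
              exact absurd ((hYS g hgS v).1 (hYmono g s t hs v h)) hvS
          · have e : upd g q a v = g v := by simp [upd, hvq]
            unfold merge_count_Y
            rw [e]
        have hclosed : ∀ g ∈ Gs, ∀ q ∈ Ps, upd g q a ∈ Gs := by
          intro g hg q hq
          obtain ⟨hgS, hgd⟩ := (hmGs g).1 hg
          refine (hmGs _).2 ⟨?_, ?_⟩
          · rw [← hgS]
            ext v
            rw [hYf, hYf, hYupd g hg q hq t le_rfl]
          · rw [hYupd g hg q hq 1 ht1]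
            exact hgd
        refine merge_count_upd a 2 Nn Ps hPsd hPsc (fun q hq => (hPsC q hq).1) Gs hclosed
          (Bad j) (fun g hg => ((hmBad j g).1 hg).1) ?_ θ hθ0 hθ1 hθ
        intro g hg q hq
        obtain ⟨hgG, -, hst⟩ := (hmBad j g).1 hg
        by_contra hall
        push Not at hall
        have hgS : Yf g = S := ((hmGs g).1 hgG).1
        obtain ⟨v, hv, hv1, hv2⟩ := (hPsC q hq).2.2 (merge_count_Y K P ρ lay g (t + 1))
          (fun x hx => hYmono g t (t + 1) (Nat.le_succ t) x ((hYS g hgS x).2 hx))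
          (by
            intro x hx
            obtain ⟨h1, h2, -⟩ := (hPsC q hq).2.1 x hx
            exact Or.inr ⟨h1, h2, by rw [hall x hx]; exact ha1⟩)
        exact hst v hv hv1 hv2
      · have h0 : Bad j = ∅ := by
          rw [eq_empty_iff_forall_notMem]
          intro g h
          exact hex ((hmBad j g).1 h).2.1
        rw [h0, card_empty, Nat.cast_zero]
        exact mul_nonneg hθN (Nat.cast_nonneg _)
    have hGle : (Gs.card : ℝ) ≤ (US.card : ℝ) := by
      have hsub : Gs ⊆ US := by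
        intro g hg
        exact (hmUS g).2 ((hmGs g).1 hg).1
      exact Nat.cast_le.2 (card_le_card hsub)
    calc (TS.card : ℝ) ≤ ((J.biUnion Bad).card : ℝ) := Nat.cast_le.2 (card_le_card hsubset)
      _ ≤ ((∑ j ∈ J, (Bad j).card : ℕ) : ℝ) := Nat.cast_le.2 card_biUnion_le
      _ = ∑ j ∈ J, ((Bad j).card : ℝ) := Nat.cast_sum _ _
      _ ≤ ∑ _j ∈ J, θ ^ Nn * Gs.card := sum_le_sum hBadle
      _ = J.card * (θ ^ Nn * Gs.card) := by rw [sum_const, nsmul_eq_mul]
      _ ≤ α * (θ ^ Nn * Gs.card) :=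
          mul_le_mul_of_nonneg_right (Nat.cast_le.2 hJα) (mul_nonneg hθN (Nat.cast_nonneg _))
      _ ≤ α * (θ ^ Nn * US.card) :=
          mul_le_mul_of_nonneg_left (mul_le_mul_of_nonneg_left hGle hθN) (Nat.cast_nonneg _)
      _ = α * θ ^ Nn * US.card := (mul_assoc _ _ _).symm
  have hsumT : T.card = ∑ S ∈ (univ : Finset (Finset V)), (T.filter (fun g => Yf g = S)).card :=
    card_eq_sum_card_fiberwise (fun g _ => mem_coe.2 (mem_univ _))
  have hsumU : (univ : Finset (V → W)).card =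
      ∑ S ∈ (univ : Finset (Finset V)), (univ.filter (fun g : V → W => Yf g = S)).card :=
    card_eq_sum_card_fiberwise (fun g _ => mem_coe.2 (mem_univ _))
  have hU' : (Fintype.card (V → W) : ℝ) =
      ∑ S ∈ (univ : Finset (Finset V)),
        ((univ.filter (fun g : V → W => Yf g = S)).card : ℝ) := by
    rw [← Finset.card_univ, hsumU, Nat.cast_sum]
  rw [hsumT, hU', mul_sum, Nat.cast_sum]
  exact sum_le_sum (fun S _ => key S)

theorem merge_count {V : Type} [Fintype V] {r ℓ : ℕ} (A : V → V → Prop)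
    (hA : ∀ a b, A a b → A b a)
    (K : V → Prop) (lam α p Nn : ℕ) (hK : Robust A K lam)
    (hα : ∀ J : Finset V, (∀ u ∈ J, K u) → Indep A J → J.card ≤ α)
    (ρ : V) (hρ : K ρ) (P : Finset V) (hP : P.card ≤ p) (hρP : ρ ∉ P) (i : Fin r)
    (hN : 2 * Nn + p ≤ lam) (t : ℕ) (ht1 : 1 ≤ t) (ht : t ≤ ℓ) :
    ((univ.filter (fun g : V → Fin r × Fin (ℓ + 1) =>
        Dom A K (Yl K P ρ i g 1) ∧
          Stuck A (Yl K P ρ i g t) (Yl K P ρ i g (t + 1)))).card : ℝ)
      ≤ α * (1 - 1 / ((r : ℝ) * (ℓ + 1)) ^ 2) ^ Nn *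
        (Fintype.card (V → Fin r × Fin (ℓ + 1)) : ℝ) := by
  have hr1 : 1 ≤ r := Nat.one_le_iff_ne_zero.2 (fun h => by subst h; exact i.elim0)
  have hcW : (Fintype.card (Fin r × Fin (ℓ + 1)) : ℝ) = (r : ℝ) * (ℓ + 1) := by
    rw [Fintype.card_prod, Fintype.card_fin, Fintype.card_fin]; push_cast; ring
  have hm1 : (1 : ℝ) ≤ (r : ℝ) * (ℓ + 1) := by
    rw [← hcW]
    have h1 : 1 ≤ Fintype.card (Fin r × Fin (ℓ + 1)) := by
      rw [Fintype.card_prod, Fintype.card_fin, Fintype.card_fin]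
      exact Nat.mul_pos hr1 (Nat.succ_pos ℓ)
    exact_mod_cast h1
  have hθ0 : 0 ≤ 1 - 1 / ((r : ℝ) * (ℓ + 1)) ^ 2 := by
    have h1 : 1 / ((r : ℝ) * (ℓ + 1)) ^ 2 ≤ 1 := by
      rw [div_le_one (by positivity)]
      nlinarith
    linarith
  have hθ1 : 1 - 1 / ((r : ℝ) * (ℓ + 1)) ^ 2 ≤ (1 : ℝ) := by
    have h1 : 0 ≤ 1 / ((r : ℝ) * (ℓ + 1)) ^ 2 := by positivity
    linarith
  exact merge_count_gen (W := Fin r × Fin (ℓ + 1)) A hA K lam α p Nn hK hα ρ hρ P hP hρP hN t ht1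
    (fun w s => w.1 = i ∧ (w.2 : ℕ) < s)
    (fun w s s' hs h => ⟨h.1, lt_of_lt_of_le h.2 hs⟩)
    (i, ⟨t, Nat.lt_succ_of_le ht⟩)
    (fun s hs h => absurd h.2 (not_lt.2 hs))
    ⟨rfl, Nat.lt_succ_self t⟩
    (1 - 1 / ((r : ℝ) * (ℓ + 1)) ^ 2) hθ0 hθ1 (by rw [hcW])

end Pool.Agent.MP5f1228B
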