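import Mathlib
import Pool.Agent.Lib.MP_5f1228_co.DefsB

open scoped Classical
open Finset

namespace Pool.Agent.MP5f1228B

/-- the vertices seen in colour `i` from the net `R` -/
noncomputable def bnetC {V : Type} [Fintype V] {r : ℕ} (N : Fin r → V → V → Prop) (T : ℕ)
    (R : Finset V) (i : Fin r) : Finset V :=
  univ.filter (fun x => ∃ ρ ∈ R, Zr N T i ρ ∧ N i ρ x)

theorem bnet_mono {V : Type} [Fintype V] {r : ℕ} (N : Fin r → V → V → Prop) (T : ℕ)
    {R R' : Finset V} (h : R ⊆ R') (i : Fin r) : bnetC N T R i ⊆ bnetC N T R' i := by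
  intro x hx
  simp only [bnetC, mem_filter, mem_univ, true_and] at hx ⊢
  obtain ⟨ρ, hρ, h1, h2⟩ := hx
  exact ⟨ρ, h hρ, h1, h2⟩

theorem exists_net {V : Type} [Fintype V] {r : ℕ} (N : Fin r → V → V → Prop) (T E Rm : ℕ)
    (h1 : 2 * r * Fintype.card V < T * (Rm + 1)) (h2 : 2 * (Rm * E) ≤ T) (D : Finset V) :
    ∃ R : Finset V, (∀ ρ ∈ R, ρ ∉ D) ∧ R.card ≤ Rm ∧ ∀ i z, Zr N T i z → z ∉ D →
      (univ.filter (fun x => N i z x ∧
        ¬ ∃ ρ ∈ R, Zr N T i ρ ∧ N i ρ x ∧ (ρ = z ∨ Rob N E i ρ z))).card ≤ T := by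
  have hne : ((univ : Finset (Finset V)).filter (fun R => ∀ ρ ∈ R, ρ ∉ D)).Nonempty :=
    ⟨∅, by simp⟩
  obtain ⟨R, hR, hmax⟩ := Finset.exists_max_image _
    (fun R : Finset V => 2 * (∑ i : Fin r, ((bnetC N T R i).card : ℤ)) - (T : ℤ) * (R.card : ℤ)) hne
  simp only [mem_filter, mem_univ, true_and] at hR hmax
  have hsum : ∀ R : Finset V, (∑ i : Fin r, ((bnetC N T R i).card : ℤ)) ≤ r * Fintype.card V := by
    intro R
    calc (∑ i : Fin r, ((bnetC N T R i).card : ℤ)) ≤ ∑ _i : Fin r, (Fintype.card V : ℤ) :=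
          Finset.sum_le_sum (fun i _ => by exact_mod_cast Finset.card_le_univ _)
      _ = r * Fintype.card V := by simp
  have hcard : R.card ≤ Rm := by
    have h0 := hmax ∅ (by simp)
    have h0' : (∑ i : Fin r, ((bnetC N T ∅ i).card : ℤ)) = 0 := by
      simp [bnetC]
    rw [h0'] at h0
    have hs := hsum R
    by_contra hcon
    push Not at hcon
    have h3 : (T : ℤ) * ((Rm : ℤ) + 1) ≤ T * R.card := by
      apply mul_le_mul_of_nonneg_left _ (by positivity)
      exact_mod_cast hcon
    have h1' : (2 * r * Fintype.card V : ℤ) < T * (Rm + 1) := by exact_mod_cast h1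
    simp only [card_empty, Nat.cast_zero, mul_zero, sub_zero] at h0
    nlinarith [h0, hs, h3, h1']
  refine ⟨R, hR, hcard, fun i z hz hzD => ?_⟩
  by_cases hzR : z ∈ R
  · have : (univ.filter (fun x => N i z x ∧
        ¬ ∃ ρ ∈ R, Zr N T i ρ ∧ N i ρ x ∧ (ρ = z ∨ Rob N E i ρ z))) = ∅ := by
      apply Finset.filter_eq_empty_iff.2
      intro x _ hx
      exact hx.2 ⟨z, hzR, hz, hx.1, Or.inl rfl⟩
    rw [this]; simp
  · -- the part outside the net
    have hins := hmax (insert z R) (by
      intro ρ hρ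
      rcases Finset.mem_insert.1 hρ with rfl | h
      · exact hzD
      · exact hR ρ h)
    have hmono : ∀ j : Fin r, ((bnetC N T R j).card : ℤ) ≤ (bnetC N T (insert z R) j).card := by
      intro j
      exact_mod_cast Finset.card_le_card (bnet_mono N T (Finset.subset_insert z R) j)
    set A : Finset V := univ.filter (fun x => N i z x ∧ ¬ ∃ ρ ∈ R, Zr N T i ρ ∧ N i ρ x) with hA
    have hAadd : ((bnetC N T R i).card : ℤ) + A.card ≤ (bnetC N T (insert z R) i).card := by
      have hdis : Disjoint (bnetC N T R i) A := by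
        rw [Finset.disjoint_left]
        intro x hx hx'
        simp only [bnetC, hA, mem_filter, mem_univ, true_and] at hx hx'
        exact hx'.2 hx
      have hsub : bnetC N T R i ∪ A ⊆ bnetC N T (insert z R) i := by
        apply Finset.union_subset (bnet_mono N T (Finset.subset_insert z R) i)
        intro x hx
        simp only [hA, mem_filter, mem_univ, true_and] at hx
        simp only [bnetC, mem_filter, mem_univ, true_and]
        exact ⟨z, Finset.mem_insert_self _ _, hz, hx.1⟩
      have := Finset.card_le_card hsub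
      rw [Finset.card_union_of_disjoint hdis] at this
      exact_mod_cast this
    have hsumadd : (∑ j : Fin r, ((bnetC N T R j).card : ℤ)) + A.card
        ≤ ∑ j : Fin r, ((bnetC N T (insert z R) j).card : ℤ) := by
      rw [← Finset.add_sum_erase _ _ (Finset.mem_univ i),
        ← Finset.add_sum_erase (univ : Finset (Fin r))
          (fun j => ((bnetC N T (insert z R) j).card : ℤ)) (Finset.mem_univ i)]
      have := Finset.sum_le_sum (s := (univ : Finset (Fin r)).erase i) (fun j _ => hmono j)
      linarith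
    have hA2 : 2 * A.card ≤ T := by
      rw [Finset.card_insert_of_notMem hzR] at hins
      push_cast at hins
      have : (2 * A.card : ℤ) ≤ T := by linarith
      exact_mod_cast this
    -- the part seen by non-robust centres
    set B : Finset V := univ.filter (fun x => N i z x ∧ ∃ ρ ∈ R, (Zr N T i ρ ∧ N i ρ x) ∧
      ¬ (ρ = z ∨ Rob N E i ρ z)) with hB
    have hBsub : B ⊆ R.biUnion (fun ρ =>
        if Rob N E i ρ z then ∅ else nb N i ρ ∩ nb N i z) := by
      intro x hx
      simp only [hB, mem_filter, mem_univ, true_and] at hx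
      obtain ⟨hzx, ρ, hρ, ⟨_, hρx⟩, hnot⟩ := hx
      push Not at hnot
      rw [Finset.mem_biUnion]
      refine ⟨ρ, hρ, ?_⟩
      rw [if_neg hnot.2]
      simp [mem_nb, hzx, hρx]
    have hBcard : B.card ≤ Rm * E := by
      calc B.card ≤ _ := Finset.card_le_card hBsub
        _ ≤ R.card * E := by
          apply Finset.card_biUnion_le_card_mul
          intro ρ hρ
          split_ifs with hrob
          · simp
          · have hne : ρ ≠ z := fun h => hzR (h ▸ hρ)
            have : ¬ E ≤ (nb N i ρ ∩ nb N i z).card := fun h => hrob ⟨hne, h⟩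
            omega
        _ ≤ Rm * E := Nat.mul_le_mul_right _ hcard
    have hsub : (univ.filter (fun x => N i z x ∧
        ¬ ∃ ρ ∈ R, Zr N T i ρ ∧ N i ρ x ∧ (ρ = z ∨ Rob N E i ρ z))) ⊆ A ∪ B := by
      intro x hx
      simp only [mem_filter, mem_univ, true_and] at hx
      rw [Finset.mem_union]
      by_cases h : ∃ ρ ∈ R, Zr N T i ρ ∧ N i ρ x
      · right
        obtain ⟨ρ, hρ, h3, h4⟩ := h
        simp only [hB, mem_filter, mem_univ, true_and]
        refine ⟨hx.1, ρ, hρ, ⟨h3, h4⟩, fun hh => hx.2 ⟨ρ, hρ, h3, h4, hh⟩⟩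
      · left
        simp only [hA, mem_filter, mem_univ, true_and]
        exact ⟨hx.1, h⟩
    have := (Finset.card_le_card hsub).trans (Finset.card_union_le A B)
    omega

end Pool.Agent.MP5f1228B
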