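import Mathlib
import Pool.Agent.Lib.MP_5f1228_co.DefsB
import Pool.Agent.Lib.MP_5f1228_co.BIndep
import Pool.Agent.Lib.MP_5f1228_co.BCore
import Pool.Agent.Lib.MP_5f1228_co.BNet
import Pool.Agent.Lib.MP_5f1228_co.BChooseX
import Pool.Agent.Lib.MP_5f1228_co.BDomCount
import Pool.Agent.Lib.MP_5f1228_co.BMergeCount
import Pool.Agent.Lib.MP_5f1228_co.BHalve
import Pool.Agent.Lib.MP_5f1228_co.BCommon
import Pool.Agent.Lib.MP_5f1228_co.BAssemble

/-!
# MP_5f1228_co: the finite main theorem (partition into connected classes)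
-/

open scoped Classical
open Finset

namespace Pool.Agent.MP5f1228B

/-! ### module Sample : combination of DomCount, MergeCount, Halve -/
theorem cds_count {V : Type} [Fintype V] {r ℓ : ℕ} (A : V → V → Prop)
    (hA : ∀ a b, A a b → A b a) (hirr : ∀ a, ¬ A a a)
    (K : V → Prop) (lam α p Nn : ℕ) (hK : Robust A K lam)
    (hα : ∀ J : Finset V, (∀ u ∈ J, K u) → Indep A J → J.card ≤ α)
    (ρ : V) (hρ : K ρ) (P : Finset V) (hP : P.card ≤ p) (hρP : ρ ∉ P) (i : Fin r)
    (hN : 2 * Nn + p ≤ lam) (hℓ : α ≤ 2 ^ ℓ) (B : ℝ) (hB0 : 0 ≤ B)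
    (hB : ∀ d : ℕ, lam ≤ d → ((d : ℝ) + 1) * (1 - 1 / ((r : ℝ) * (ℓ + 1))) ^ (d + 1 - p) ≤ B) :
    ((univ.filter (fun g : V → Fin r × Fin (ℓ + 1) =>
        ¬ (Dom A K (Yl K P ρ i g (ℓ + 1)) ∧
          ∀ u v, Yl K P ρ i g (ℓ + 1) u → Yl K P ρ i g (ℓ + 1) v →
            Con A (Yl K P ρ i g (ℓ + 1)) u v))).card : ℝ)
      ≤ (α * B + ℓ * (α * (1 - 1 / ((r : ℝ) * (ℓ + 1)) ^ 2) ^ Nn)) *
        (Fintype.card (V → Fin r × Fin (ℓ + 1)) : ℝ) := by
  set M : ℝ := (Fintype.card (V → Fin r × Fin (ℓ + 1)) : ℝ)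
  have hsub : (univ.filter (fun g : V → Fin r × Fin (ℓ + 1) =>
        ¬ (Dom A K (Yl K P ρ i g (ℓ + 1)) ∧
          ∀ u v, Yl K P ρ i g (ℓ + 1) u → Yl K P ρ i g (ℓ + 1) v →
            Con A (Yl K P ρ i g (ℓ + 1)) u v))) ⊆
      (univ.filter (fun g : V → Fin r × Fin (ℓ + 1) => ¬ Dom A K (Yl K P ρ i g 1))) ∪
      (Finset.Icc 1 ℓ).biUnion (fun t => univ.filter (fun g : V → Fin r × Fin (ℓ + 1) =>
        Dom A K (Yl K P ρ i g 1) ∧
          Stuck A (Yl K P ρ i g t) (Yl K P ρ i g (t + 1)))) := by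
    intro g hg
    simp only [mem_filter, mem_univ, true_and] at hg
    simp only [mem_union, mem_filter, mem_univ, true_and, mem_biUnion, mem_Icc]
    by_contra hcon
    push Not at hcon
    obtain ⟨hd, hs⟩ := hcon
    apply hg
    constructor
    · intro v hv
      rcases hd v hv with h | ⟨y, hy, hvy⟩
      · left
        rcases h with h | ⟨h1, h2, h3, h4⟩
        · exact Or.inl h
        · exact Or.inr ⟨h1, h2, h3, by omega⟩
      · right
        refine ⟨y, ?_, hvy⟩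
        rcases hy with h | ⟨h1, h2, h3, h4⟩
        · exact Or.inl h
        · exact Or.inr ⟨h1, h2, h3, by omega⟩
    · exact halve A hA K α hα ρ hρ P i g hd (fun t h1 h2 => hs t ⟨h1, h2⟩ hd) hℓ
  have h1 := dom_count (ℓ := ℓ) A hA hirr K lam α p hK hα ρ hρ P hP i B hB0 hB
  have h2 := fun t (ht : t ∈ Finset.Icc 1 ℓ) => merge_count (ℓ := ℓ) A hA K lam α p Nn hK hα ρ hρ P hP hρP
    i hN t (mem_Icc.1 ht).1 (mem_Icc.1 ht).2
  have h3 := (Nat.cast_le (α := ℝ)).2 ((card_le_card hsub).trans (card_union_le _ _))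
  have h4 : (((Finset.Icc 1 ℓ).biUnion (fun t => univ.filter (fun g : V → Fin r × Fin (ℓ + 1) =>
        Dom A K (Yl K P ρ i g 1) ∧
          Stuck A (Yl K P ρ i g t) (Yl K P ρ i g (t + 1))))).card : ℝ) ≤
        ℓ * (α * (1 - 1 / ((r : ℝ) * (ℓ + 1)) ^ 2) ^ Nn * M) := by
    refine ((Nat.cast_le (α := ℝ)).2 card_biUnion_le).trans ?_
    push_cast
    refine (sum_le_sum h2).trans ?_
    simp [M]
  push_cast at h3
  nlinarith [h3, h4, h1]


/-! ### module MainFinite -/
theorem main_finite {V : Type} [Fintype V] {r : ℕ} (N : Fin r → V → V → Prop)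
    (symm : ∀ i u v, N i u v → N i v u)
    (disj : ∀ i j u v, N i u v → N j u v → i = j)
    (q T E α Rm lam ℓ Nn Em : ℕ) (B : ℝ)
    (hq : ∀ v, (univ.filter (fun x => ¬ ∃ i, N i v x)).card ≤ q)
    (h1 : Fintype.card V + (α + 1) ^ 2 * E < (α + 1) * T)
    (h2 : 2 * r * Fintype.card V < T * (Rm + 1)) (h3 : 2 * (Rm * E) ≤ T)
    (h4 : lam * r * α * q + 2 ^ r * (q + 2 * r * T) + r * ((lam * r * α + Rm) ^ 2 * E)
      < Fintype.card V)
    (h5 : 2 * Nn + r ≤ lam) (h6 : α ≤ 2 ^ ℓ)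
    (h7 : ∀ d : ℕ, lam ≤ d → ((d : ℝ) + 1) * (1 - 1 / ((r : ℝ) * (ℓ + 1))) ^ (d + 1 - r) ≤ B)
    (hB0 : 0 ≤ B) (h8 : lam * r * α + r + Em ≤ E)
    (h9 : r * (α * B + ℓ * (α * (1 - 1 / ((r : ℝ) * (ℓ + 1)) ^ 2) ^ Nn)) +
      r * (Fintype.card V : ℝ) ^ 2 * (1 - 1 / ((r : ℝ) * (ℓ + 1))) ^ Em < 1) :
    ∃ f : V → Fin r, ∀ i u v, f u = i → f v = i → Con (N i) (fun w => f w = i) u v := by
  have hAs : ∀ i a b, Rob N E i a b → Rob N E i b a := fun i a b h => Rob.symm N E h
  have hAi : ∀ i a, ¬ Rob N E i a a := fun i a h => h.1 rfl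
  have hα : ∀ i, ∀ J : Finset V, (∀ u ∈ J, Zr N T i u) → Indep (Rob N E i) J → J.card ≤ α :=
    fun i J hJ hI => indep_card N T E α h1 i J hJ hI
  obtain ⟨D, hDc, hD⟩ := exists_core (Rob N E) hAs (Zr N T) α lam hα
  obtain ⟨R, hRD, hRc, hR⟩ := exists_net N T E Rm h2 h3 D
  obtain ⟨x, hx1, hx2, hx3⟩ := choose_x N q T E (lam * r * α) Rm D R hq hDc hRc hRD hR h4
  -- active colours
  let Act : Fin r → Prop := fun i => ∃ ρ ∈ R, Zr N T i ρ ∧ N i ρ x
  let ρ : Fin r → V := fun i => if h : Act i then h.choose else x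
  have hρ : ∀ i, Act i → ρ i ∈ R ∧ Zr N T i (ρ i) ∧ N i (ρ i) x := by
    intro i hi
    have := hi.choose_spec
    simp only [ρ, dif_pos hi]
    exact this
  have hρD : ∀ i, Act i → ρ i ∉ D := fun i hi => hRD _ (hρ i hi).1
  have hρinj : ∀ i j, Act i → Act j → ρ i = ρ j → i = j := by
    intro i j hi hj hij
    have a := (hρ i hi).2.2
    have b := (hρ j hj).2.2
    rw [← hij] at b
    exact disj i j _ _ a b
  let K : Fin r → V → Prop := fun i v =>
    (Zr N T i v ∧ v ∉ D) ∧ Con (Rob N E i) (fun w => Zr N T i w ∧ w ∉ D) (ρ i) v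
  have hρK : ∀ i, Act i → K i (ρ i) := fun i hi =>
    ⟨⟨(hρ i hi).2.1, hρD i hi⟩, Con.refl _⟩
  -- K i is robust
  have hKrob : ∀ i, Act i → Robust (Rob N E i) (K i) lam := by
    intro i hi F hF u v hu huF hv hvF
    have h1 : Con (Rob N E i) (fun w => Zr N T i w ∧ w ∉ D) u v :=
      Con.trans (Con.symm (hAs i) ⟨(hρ i hi).2.1, hρD i hi⟩ hu.2) hv.2
    have h2 := hD i F hF u v hu.1.1 hu.1.2 huF hv.1.1 hv.1.2 hvF h1
    refine Con.monoP ?_ (Con.comp h2)
    intro a ha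
    refine ⟨⟨ha.1.1, ?_⟩, ha.1.2⟩
    exact Con.trans hu.2 (Con.monoP (fun w hw => hw.1) ha.2)
  -- everything outside D is in some K i
  have hcov : ∀ v, v ∉ D → ∃ i, Act i ∧ K i v := by
    intro v hv
    obtain ⟨i, hi1, ρ', h1, h2, h3, h4⟩ := hx3 v hv
    have hi : Act i := ⟨ρ', h1, h2, h3⟩
    refine ⟨i, hi, ⟨hi1, hv⟩, ?_⟩
    by_cases hρρ : ρ i = ρ'
    · rw [hρρ]; exact h4
    · have := hx2 i (ρ i) ρ' (Or.inr (hρ i hi).1) (Or.inr h1) hρρ (hρ i hi).2.2 h3
      exact Con.trans (Con.single this ⟨h2, hRD _ h1⟩) h4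
  -- the sets P i
  let P : Fin r → Finset V := fun i =>
    ((univ.filter (fun j => Act j ∧ j ≠ i)).image ρ)
  have hPc : ∀ i, (P i).card ≤ r := by
    intro i
    refine card_image_le.trans ((card_filter_le _ _).trans ?_)
    simp
  have hρP : ∀ i, Act i → ρ i ∉ P i := by
    intro i hi hmem
    simp only [P, mem_image, mem_filter, mem_univ, true_and] at hmem
    obtain ⟨j, ⟨hj, hji⟩, hjj⟩ := hmem
    exact hji (hρinj j i hj hi hjj)
  let Q : Finset V := D ∪ (univ.filter (fun j => Act j)).image ρ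
  have hQc : Q.card + Em ≤ E := by
    have : Q.card ≤ lam * r * α + r := by
      refine (card_union_le _ _).trans (add_le_add hDc ?_)
      refine card_image_le.trans ((card_filter_le _ _).trans ?_)
      simp
    omega
  -- the choice of g
  obtain ⟨g, hg1, hg2⟩ : ∃ g : V → Fin r × Fin (ℓ + 1),
      (∀ i, Act i → (Dom (Rob N E i) (K i) (Yl (K i) (P i) (ρ i) i g (ℓ + 1)) ∧
          ∀ u v, Yl (K i) (P i) (ρ i) i g (ℓ + 1) u → Yl (K i) (P i) (ρ i) i g (ℓ + 1) v →
            Con (Rob N E i) (Yl (K i) (P i) (ρ i) i g (ℓ + 1)) u v)) ∧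
      (∀ i z z', Rob N E i z z' → ∃ w, N i z w ∧ N i z' w ∧ w ∉ Q ∧ (g w).1 = i) := by
    by_contra hno
    push Not at hno
    set M : ℝ := (Fintype.card (V → Fin r × Fin (ℓ + 1)) : ℝ) with hM
    let Bad : Fin r → Finset (V → Fin r × Fin (ℓ + 1)) := fun i =>
      univ.filter (fun g => Act i ∧ ¬ (Dom (Rob N E i) (K i) (Yl (K i) (P i) (ρ i) i g (ℓ + 1)) ∧
          ∀ u v, Yl (K i) (P i) (ρ i) i g (ℓ + 1) u → Yl (K i) (P i) (ρ i) i g (ℓ + 1) v →
            Con (Rob N E i) (Yl (K i) (P i) (ρ i) i g (ℓ + 1)) u v))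
    let Bad' : Finset (V → Fin r × Fin (ℓ + 1)) := univ.filter (fun g =>
        ∃ i z z', Rob N E i z z' ∧ ∀ w, N i z w → N i z' w → w ∉ Q → (g w).1 ≠ i)
    have hcovr : (univ : Finset (V → Fin r × Fin (ℓ + 1))) ⊆
        (univ : Finset (Fin r)).biUnion Bad ∪ Bad' := by
      intro g _
      simp only [mem_union, mem_biUnion, mem_univ, true_and, Bad, Bad', mem_filter]
      by_cases hg : ∀ i, Act i → (Dom (Rob N E i) (K i) (Yl (K i) (P i) (ρ i) i g (ℓ + 1)) ∧
          ∀ u v, Yl (K i) (P i) (ρ i) i g (ℓ + 1) u → Yl (K i) (P i) (ρ i) i g (ℓ + 1) v →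
            Con (Rob N E i) (Yl (K i) (P i) (ρ i) i g (ℓ + 1)) u v)
      · right
        exact hno g hg
      · left
        push Not at hg
        obtain ⟨i, hi, hg⟩ := hg
        refine ⟨i, hi, ?_⟩
        rintro ⟨ha, hb⟩
        obtain ⟨u, v, hu, hv, huv⟩ := hg ha
        exact huv (hb u v hu hv)
    have hc1 : ∀ i, ((Bad i).card : ℝ) ≤
        (α * B + ℓ * (α * (1 - 1 / ((r : ℝ) * (ℓ + 1)) ^ 2) ^ Nn)) * M := by
      intro i
      by_cases hi : Act i
      · have := cds_count (ℓ := ℓ) (Rob N E i) (hAs i) (hAi i) (K i) lam α r Nn (hKrob i hi)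
          (fun J hJ hI => hα i J (fun u hu => (hJ u hu).1.1) hI) (ρ i) (hρK i hi) (P i) (hPc i)
          (hρP i hi) i h5 h6 B hB0 h7
        refine le_trans ?_ this
        exact_mod_cast card_le_card (fun g hg => by
          simp only [Bad, mem_filter, mem_univ, true_and] at hg ⊢
          exact hg.2)
      · have : Bad i = ∅ := by
          ext g
          simp [Bad, hi]
        rw [this]
        have h0 : (0 : ℝ) ≤ 1 - 1 / ((r : ℝ) * (ℓ + 1)) ^ 2 := by
          have hr : (1 : ℝ) ≤ r := by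
            have := i.pos
            exact_mod_cast this
          have hl : (0 : ℝ) ≤ ℓ := Nat.cast_nonneg _
          have : (1 : ℝ) ≤ ((r : ℝ) * (ℓ + 1)) ^ 2 := by
            have : (1 : ℝ) ≤ (r : ℝ) * (ℓ + 1) := by nlinarith
            nlinarith
          rw [sub_nonneg, div_le_one (by positivity)]
          exact this
        simp only [card_empty, Nat.cast_zero]
        positivity
    have hc2 : (Bad'.card : ℝ) ≤ r * (Fintype.card V : ℝ) ^ 2 *
        (1 - 1 / ((r : ℝ) * (ℓ + 1))) ^ Em * M := common_count (ℓ := ℓ) N E Em Q hQc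
    have hc3 : M ≤ (((univ : Finset (Fin r)).biUnion Bad ∪ Bad').card : ℝ) := by
      have := card_le_card hcovr
      rw [card_univ] at this
      rw [hM]
      exact_mod_cast this
    have hc4 : ((((univ : Finset (Fin r)).biUnion Bad).card : ℕ) : ℝ) ≤
        r * ((α * B + ℓ * (α * (1 - 1 / ((r : ℝ) * (ℓ + 1)) ^ 2) ^ Nn)) * M) := by
      refine ((Nat.cast_le (α := ℝ)).2 card_biUnion_le).trans ?_
      push_cast
      refine (sum_le_sum (fun i _ => hc1 i)).trans ?_
      simp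
    have hc5 : M ≤ (((univ : Finset (Fin r)).biUnion Bad).card : ℝ) + (Bad'.card : ℝ) := by
      refine hc3.trans ?_
      exact_mod_cast card_union_le _ _
    have hM0 : 0 < M := by
      rw [hM]
      have hne : Nonempty (V → Fin r × Fin (ℓ + 1)) := by
        by_cases hV : Nonempty V
        · obtain ⟨v⟩ := hV
          have hr : 0 < r := by
            by_contra hr
            have hr0 : r = 0 := by omega
            subst hr0
            have := hq v
            have h1' : (univ.filter (fun x => ¬ ∃ i, N i v x)) = (univ : Finset V) := by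
              ext y
              simp
            rw [h1', card_univ] at this
            simp at h4
            omega
          exact ⟨fun _ => (⟨0, hr⟩, 0)⟩
        · exact ⟨fun v => absurd ⟨v⟩ hV⟩
      exact_mod_cast Fintype.card_pos
    nlinarith
  -- assembly
  let Y : Fin r → V → Prop := fun i v => Act i ∧ Yl (K i) (P i) (ρ i) i g (ℓ + 1) v
  have hYK : ∀ i v, Y i v → K i v := by
    intro i v hv
    rcases hv.2 with h | h
    · rw [h]; exact hρK i hv.1
    · exact h.1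
  have hYh : ∀ i v, Y i v → v ∉ Q → (g v).1 = i := by
    intro i v hv hvQ
    rcases hv.2 with h | h
    · exfalso
      apply hvQ
      simp only [Q, mem_union, mem_image, mem_filter, mem_univ, true_and]
      exact Or.inr ⟨i, hv.1, h.symm⟩
    · exact h.2.2.1
  have hYdis : ∀ i j v, Y i v → Y j v → i = j := by
    intro i j v hi hj
    by_contra hij
    have key : ∀ i j, i ≠ j → Act i → Act j → Yl (K i) (P i) (ρ i) i g (ℓ + 1) v →
        v ≠ ρ j := by
      intro i j hij hi' hj' hy hv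
      rcases hy with h | ⟨_, h, _⟩
      · exact hij (hρinj i j hi' hj' (by rw [← h, ← hv]))
      · apply h
        simp only [P, mem_image, mem_filter, mem_univ, true_and]
        exact ⟨j, ⟨hj', fun h => hij h.symm⟩, hv.symm⟩
    rcases hi.2 with h | h
    · exact key j i (fun h => hij h.symm) hj.1 hi.1 hj.2 h
    · rcases hj.2 with h' | h'
      · exact key i j hij hi.1 hj.1 hi.2 h'
      · exact hij (h.2.2.1.symm.trans h'.2.2.1)
  refine assemble N symm (Rob N E) (fun v => v ∉ Q) (fun v => (g v).1)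
    (fun i v => Y i v ∨ (v ∈ D ∧ N i v x)) ?_ ?_ ?_ ?_ ?_ ?_
  · intro v hv
    have hv : v ∈ Q := by by_contra h; exact hv h
    simp only [Q, mem_union, mem_image, mem_filter, mem_univ, true_and] at hv
    rcases hv with hv | ⟨j, hj, rfl⟩
    · obtain ⟨i, hi⟩ := hx1 v hv
      exact ⟨i, Or.inr ⟨hv, hi⟩⟩
    · exact ⟨j, Or.inl ⟨hj, Or.inl rfl⟩⟩
  · rintro i j v (hi | hi) (hj | hj)
    · exact hYdis i j v hi hj
    · exact absurd hj.1 (hYK i v hi).1.2
    · exact absurd hi.1 (hYK j v hj).1.2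
    · exact disj i j _ _ hi.2 hj.2
  · rintro i v (hi | hi) hvQ
    · exact hYh i v hi hvQ
    · exfalso
      apply hvQ
      simp only [Q, mem_union]
      exact Or.inl hi.1
  · intro i u v huv
    obtain ⟨w, h1, h2, h3, h4⟩ := hg2 i u v huv
    exact ⟨w, h3, h4, h1, h2⟩
  · intro i u v hu hv
    by_cases hi : Act i
    · -- connected to ρ i
      have hto : ∀ v, (Y i v ∨ (v ∈ D ∧ N i v x)) →
          Con (Rob N E i) (fun v => Y i v ∨ (v ∈ D ∧ N i v x)) (ρ i) v := by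
        intro v hv
        rcases hv with hv | hv
        · have := (hg1 i hi).2 (ρ i) v (Or.inl rfl) hv.2
          exact Con.monoP (fun w hw => Or.inl ⟨hi, hw⟩) this
        · refine Con.single (hx2 i (ρ i) v (Or.inr (hρ i hi).1) (Or.inl hv.1) ?_ (hρ i hi).2.2 hv.2)
            (Or.inr hv)
          rintro h
          exact hρD i hi (h ▸ hv.1)
      exact Con.trans (Con.symm (hAs i) (Or.inl ⟨hi, Or.inl rfl⟩) (hto u hu)) (hto v hv)
    · rcases hu with hu | hu
      · exact absurd hu.1 hi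
      · rcases hv with hv | hv
        · exact absurd hv.1 hi
        · by_cases huv : u = v
          · rw [huv]; exact Con.refl _
          · exact Con.single (hx2 i u v (Or.inl hu.1) (Or.inl hv.1) huv hu.2 hv.2) (Or.inr hv)
  · intro v hvQ
    have hvD : v ∉ D := fun h => hvQ (by simp only [Q, mem_union]; exact Or.inl h)
    obtain ⟨i, hi, hK⟩ := hcov v hvD
    rcases (hg1 i hi).1 v hK with h | ⟨y, hy, hvy⟩
    · exact ⟨i, Or.inl (Or.inl ⟨hi, h⟩)⟩
    · exact ⟨i, Or.inr ⟨y, Or.inl ⟨hi, hy⟩, hvy⟩⟩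

end Pool.Agent.MP5f1228B
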