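import Mathlib
import Pool.Agent.Lib.MP_5f1228_co.DefsB

open scoped Classical
open Finset

namespace Pool.Agent.MP5f1228B

/-- `2 r ≤ 2 ^ r` -/
theorem BParamsA_two_mul_le (r : ℕ) : 2 * r ≤ 2 ^ r := by
  induction r with
  | zero => simp
  | succ n ih =>
    rcases Nat.eq_zero_or_pos n with h | h
    · subst h; norm_num
    · have : 2 ^ (n + 1) = 2 ^ n + 2 ^ n := by ring
      have h2 : 2 ≤ 2 ^ n := by
        calc 2 = 2 ^ 1 := by norm_num
          _ ≤ 2 ^ n := Nat.pow_le_pow_right (by norm_num) h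
      omega

/-- `(1 - 1/x)^x ≤ 1/2` for natural `x ≥ 1` -/
theorem BParamsA_half (x : ℕ) (hx : 1 ≤ x) : (1 - 1 / (x : ℝ)) ^ x ≤ 1 / 2 := by
  have hx0 : (0 : ℝ) < x := by exact_mod_cast hx
  have h1 : (1 : ℝ) - 1 / x ≤ Real.exp (-(1 / x)) := by
    have := Real.add_one_le_exp (-(1 / (x : ℝ)))
    linarith
  have h0 : (0 : ℝ) ≤ 1 - 1 / x := by
    have : 1 / (x : ℝ) ≤ 1 := by
      rw [div_le_one hx0]; exact_mod_cast hx
    linarith
  have h2 : (1 - 1 / (x : ℝ)) ^ x ≤ (Real.exp (-(1 / x))) ^ x := pow_le_pow_left₀ h0 h1 x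
  have h3 : (Real.exp (-(1 / (x : ℝ)))) ^ x = Real.exp (-1) := by
    rw [← Real.exp_nat_mul]
    congr 1
    field_simp
  have h4 : Real.exp (-1) ≤ 1 / 2 := by
    rw [Real.exp_neg, ← one_div]
    apply one_div_le_one_div_of_le (by norm_num)
    have := Real.add_one_le_exp (1 : ℝ)
    linarith
  rw [h3] at h2
  linarith

/-- `(1 - 1/x)^(x * k) ≤ (1/2)^k` -/
theorem BParamsA_half_pow (x k : ℕ) (hx : 1 ≤ x) :
    (1 - 1 / (x : ℝ)) ^ (x * k) ≤ (1 / 2) ^ k := by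
  have hx0 : (0 : ℝ) < x := by exact_mod_cast hx
  have h0 : (0 : ℝ) ≤ 1 - 1 / x := by
    have : 1 / (x : ℝ) ≤ 1 := by
      rw [div_le_one hx0]; exact_mod_cast hx
    linarith
  rw [pow_mul]
  exact pow_le_pow_left₀ (pow_nonneg h0 x) (BParamsA_half x hx) k

/-- the natural number inequality behind the second item -/
theorem BParamsA_nat2 (r m : ℕ) (hr : 1 ≤ r) (hm : 4 ≤ m) :
    640 * r ^ 3 * m ^ 2 * 2 ^ r ≤ 2 ^ (18 * r * m) := by
  have hr' : r ≤ 2 ^ r := (Nat.lt_two_pow_self).le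
  have hm' : m ≤ 2 ^ m := (Nat.lt_two_pow_self).le
  have h1 : 640 * r ^ 3 * m ^ 2 * 2 ^ r ≤ 2 ^ 10 * (2 ^ r) ^ 3 * (2 ^ m) ^ 2 * 2 ^ r := by
    gcongr
    norm_num
  have h2 : 2 ^ 10 * (2 ^ r) ^ 3 * (2 ^ m) ^ 2 * 2 ^ r = 2 ^ (10 + 4 * r + 2 * m) := by
    rw [← pow_mul, ← pow_mul, ← pow_add, ← pow_add, ← pow_add]
    congr 1
    ring
  rw [h2] at h1
  refine h1.trans (Nat.pow_le_pow_right (by norm_num) ?_)
  nlinarith [Nat.mul_le_mul hr hm]

/-- the natural number inequality behind the third item -/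
theorem BParamsA_nat3 (r : ℕ) (hr : 1 ≤ r) :
    r * (2 * r + 1) * (4 * r * 2 ^ r) * 8 ≤ 2 ^ (9 * r) := by
  have h2 := BParamsA_two_mul_le r
  have h3 : (2 * r) ^ 3 ≤ (2 ^ r) ^ 3 := Nat.pow_le_pow_left h2 3
  have h4 : r * (2 * r + 1) * (4 * r * 2 ^ r) * 8 ≤ 12 * (2 * r) ^ 3 * 2 ^ r := by
    have : r * (2 * r + 1) * (4 * r) * 8 ≤ 12 * (2 * r) ^ 3 := by
      nlinarith [Nat.mul_le_mul (Nat.mul_le_mul hr (le_refl r)) (le_refl r)]
    calc r * (2 * r + 1) * (4 * r * 2 ^ r) * 8 = (r * (2 * r + 1) * (4 * r) * 8) * 2 ^ r := by ring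
      _ ≤ 12 * (2 * r) ^ 3 * 2 ^ r := Nat.mul_le_mul_right _ this
  calc r * (2 * r + 1) * (4 * r * 2 ^ r) * 8 ≤ 12 * (2 * r) ^ 3 * 2 ^ r := h4
    _ ≤ 16 * (2 ^ r) ^ 3 * 2 ^ r := by gcongr; norm_num
    _ = 2 ^ (4 + 4 * r) := by
        rw [show (16 : ℕ) = 2 ^ 4 by norm_num, ← pow_mul, ← pow_add, ← pow_add]
        congr 1
        ring
    _ ≤ 2 ^ (9 * r) := Nat.pow_le_pow_right (by norm_num) (by omega)

/-- the parameters which depend only on `r`: `α = 4 r 2^r`, `ℓ = 2 r + 1`, `m = r (ℓ + 1)`,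
`Nn = 9 r m ^ 2`, `lam = 2 Nn + r`, `B = 1 / (32 r ^ 2 2 ^ r)` -/
theorem paramsA (r : ℕ) (hr : 1 ≤ r) (α ℓ m Nn lam : ℕ) (hα : α = 4 * r * 2 ^ r)
    (hℓ : ℓ = 2 * r + 1) (hm : m = r * (ℓ + 1)) (hNn : Nn = 9 * r * m ^ 2)
    (hlam : lam = 2 * Nn + r) (B : ℝ) (hB : B = 1 / (32 * r ^ 2 * 2 ^ r)) :
    α ≤ 2 ^ ℓ ∧
    (∀ d : ℕ, lam ≤ d → ((d : ℝ) + 1) * (1 - 1 / ((r : ℝ) * (ℓ + 1))) ^ (d + 1 - r) ≤ B) ∧
    (r : ℝ) * (α * B + ℓ * (α * (1 - 1 / ((r : ℝ) * (ℓ + 1)) ^ 2) ^ Nn)) ≤ 1 / 4 := by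
  have hm4 : 4 ≤ m := by
    rw [hm, hℓ]; nlinarith
  have hrR : (1 : ℝ) ≤ r := by exact_mod_cast hr
  have hr0 : (0 : ℝ) < r := by linarith
  have hmR : (r : ℝ) * (ℓ + 1) = (m : ℝ) := by rw [hm]; push_cast; ring
  have hm4R : (4 : ℝ) ≤ m := by exact_mod_cast hm4
  have hm0 : (0 : ℝ) < m := by linarith
  have h2r : (0 : ℝ) < 2 ^ r := by positivity
  rw [hmR]
  refine ⟨?_, ?_, ?_⟩
  · rw [hα, hℓ]
    have h2 := BParamsA_two_mul_le r
    calc 4 * r * 2 ^ r = 2 * (2 * r) * 2 ^ r := by ring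
      _ ≤ 2 * 2 ^ r * 2 ^ r := by gcongr
      _ = 2 ^ (2 * r + 1) := by ring
  · -- base case
    set q : ℝ := 1 - 1 / (m : ℝ) with hq
    have hq0 : 0 ≤ q := by
      have : 1 / (m : ℝ) ≤ 1 := by rw [div_le_one hm0]; linarith
      rw [hq]; linarith
    have hq1 : q ≤ 1 := by
      have : 0 < 1 / (m : ℝ) := by positivity
      rw [hq]; linarith
    have hbase : ((lam : ℝ) + 1) * q ^ (lam + 1 - r) ≤ B := by
      have he : lam + 1 - r = m * (18 * r * m) + 1 := by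
        rw [hlam, hNn]
        have : 2 * (9 * r * m ^ 2) + r + 1 - r = 2 * (9 * r * m ^ 2) + 1 := by omega
        rw [this]; ring
      have h1 : q ^ (lam + 1 - r) ≤ (1 / 2) ^ (18 * r * m) := by
        rw [he, pow_succ]
        calc q ^ (m * (18 * r * m)) * q ≤ q ^ (m * (18 * r * m)) * 1 := by gcongr
          _ = q ^ (m * (18 * r * m)) := by ring
          _ ≤ (1 / 2) ^ (18 * r * m) := BParamsA_half_pow m (18 * r * m) (by omega)
      have h2 : ((lam : ℝ) + 1) ≤ 20 * r * m ^ 2 := by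
        have : lam + 1 ≤ 20 * r * m ^ 2 := by
          rw [hlam, hNn]
          nlinarith [Nat.mul_le_mul hr (Nat.pow_le_pow_left hm4 2),
            Nat.mul_le_mul (le_refl r) (Nat.pow_le_pow_left hm4 2)]
        exact_mod_cast this
      have h3 := BParamsA_nat2 r m hr hm4
      have h3R : (640 : ℝ) * r ^ 3 * m ^ 2 * 2 ^ r ≤ 2 ^ (18 * r * m) := by exact_mod_cast h3
      have hpos : (0 : ℝ) < 2 ^ (18 * r * m) := by positivity
      rw [hB]
      calc ((lam : ℝ) + 1) * q ^ (lam + 1 - r)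
          ≤ (20 * r * m ^ 2) * (1 / 2) ^ (18 * r * m) :=
            mul_le_mul h2 h1 (pow_nonneg hq0 _) (by positivity)
        _ = (20 * r * m ^ 2) / 2 ^ (18 * r * m) := by
            rw [div_pow, one_pow]; ring
        _ ≤ 1 / (32 * r ^ 2 * 2 ^ r) := by
            rw [div_le_div_iff₀ hpos (by positivity)]
            calc (20 : ℝ) * r * m ^ 2 * (32 * r ^ 2 * 2 ^ r)
                = 640 * r ^ 3 * m ^ 2 * 2 ^ r := by ring
              _ ≤ 2 ^ (18 * r * m) := h3R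
              _ = 1 * 2 ^ (18 * r * m) := by ring
    intro d hd
    induction d, hd using Nat.le_induction with
    | base => exact hbase
    | succ d hd ih =>
      have hrd : r ≤ d := by rw [hlam] at hd; omega
      have hmd : m ≤ d := by
        rw [hlam, hNn] at hd
        have : m ≤ 2 * (9 * r * m ^ 2) := by nlinarith
        omega
      have he : d + 1 + 1 - r = (d + 1 - r) + 1 := by omega
      have hmdR : (m : ℝ) ≤ d := by exact_mod_cast hmd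
      have hk : (((d + 1 : ℕ) : ℝ) + 1) * q ≤ (d : ℝ) + 1 := by
        push_cast
        rw [hq]
        have : 1 ≤ ((d : ℝ) + 1 + 1) * (1 / m) := by
          rw [mul_one_div, le_div_iff₀ hm0]; linarith
        linarith
      rw [he, pow_succ]
      calc (((d + 1 : ℕ) : ℝ) + 1) * (q ^ (d + 1 - r) * q)
          = ((((d + 1 : ℕ) : ℝ) + 1) * q) * q ^ (d + 1 - r) := by ring
        _ ≤ ((d : ℝ) + 1) * q ^ (d + 1 - r) := by
            gcongr
        _ ≤ B := ih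
  · have h1 : (1 - 1 / (m : ℝ) ^ 2) ^ Nn ≤ (1 / 2) ^ (9 * r) := by
      have := BParamsA_half_pow (m ^ 2) (9 * r) (Nat.one_le_pow _ _ (by omega))
      push_cast at this
      rw [hNn, show 9 * r * m ^ 2 = m ^ 2 * (9 * r) by ring]
      exact this
    have h3 := BParamsA_nat3 r hr
    have h3R : (r : ℝ) * (2 * r + 1) * (4 * r * 2 ^ r) * 8 ≤ 2 ^ (9 * r) := by exact_mod_cast h3
    have hpos : (0 : ℝ) < 2 ^ (9 * r) := by positivity
    have hα' : (α : ℝ) = 4 * r * 2 ^ r := by rw [hα]; push_cast; ring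
    have hℓ' : (ℓ : ℝ) = 2 * r + 1 := by rw [hℓ]; push_cast; ring
    have hA : (r : ℝ) * (α * B) = 1 / 8 := by
      rw [hα', hB]; field_simp; norm_num
    have hC : (r : ℝ) * (ℓ * (α * (1 - 1 / (m : ℝ) ^ 2) ^ Nn)) ≤ 1 / 8 := by
      calc (r : ℝ) * (ℓ * (α * (1 - 1 / (m : ℝ) ^ 2) ^ Nn))
          ≤ (r : ℝ) * (ℓ * (α * (1 / 2) ^ (9 * r))) := by gcongr
        _ = ((r : ℝ) * (2 * r + 1) * (4 * r * 2 ^ r)) / 2 ^ (9 * r) := by
            rw [hα', hℓ', div_pow, one_pow]; ring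
        _ ≤ 1 / 8 := by
            rw [div_le_div_iff₀ hpos (by norm_num)]
            linarith
    rw [mul_add]
    linarith

end Pool.Agent.MP5f1228B
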