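import Mathlib
import Pool.Agent.Lib.MP_5f1228_co.DefsB
import Pool.Agent.Lib.MP_5f1228_co.BParamsA

/-!
# MP_5f1228_co: numerical parameters with the explicit value `n0 = 2 ^ (40 r)`
-/

open scoped Classical
open Finset

namespace Pool.Agent.MP5f1228B

/-- `2 r ≤ 2 ^ r`, so `r ^ 7 ≤ 2 ^ (7 r) / 128` -/
theorem BParamsX_pow7 (r : ℕ) : 128 * r ^ 7 ≤ 2 ^ (7 * r) := by
  have h := BParamsA_two_mul_le r
  calc 128 * r ^ 7 = (2 * r) ^ 7 := by ring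
    _ ≤ (2 ^ r) ^ 7 := Nat.pow_le_pow_left h 7
    _ = 2 ^ (7 * r) := by rw [← pow_mul]; congr 1; ring

theorem BParamsX_pow15 (r : ℕ) : 2 ^ 15 * r ^ 15 ≤ 2 ^ (15 * r) := by
  have h := BParamsA_two_mul_le r
  calc 2 ^ 15 * r ^ 15 = (2 * r) ^ 15 := by ring
    _ ≤ (2 ^ r) ^ 15 := Nat.pow_le_pow_left h 15
    _ = 2 ^ (15 * r) := by rw [← pow_mul]; congr 1; ring

theorem BParamsX_pow3 (r : ℕ) : 8 * r ^ 3 ≤ 2 ^ (3 * r) := by
  have h := BParamsA_two_mul_le r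
  calc 8 * r ^ 3 = (2 * r) ^ 3 := by ring
    _ ≤ (2 ^ r) ^ 3 := Nat.pow_le_pow_left h 3
    _ = 2 ^ (3 * r) := by rw [← pow_mul]; congr 1; ring

/-- the three lower bounds for `C = 2 ^ (18 r + 7)` -/
theorem BParamsX_C (r a Rm L C : ℕ) (hr : 1 ≤ r) (ha : a = 4 * r * 2 ^ r)
    (hRm : Rm = 3 * r * a) (hL : L ≤ 1156 * r ^ 7 * 2 ^ r) (hC : C = 2 ^ (18 * r + 7)) :
    16 * (a + 1) ^ 3 ≤ C ∧ 4 * ((a + 1) * (Rm + 1)) ≤ C ∧ 5 * (r * (L + Rm) ^ 2) ≤ C := by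
  have h2 := BParamsA_two_mul_le r
  have h2r : 2 ≤ 2 ^ r := by
    calc 2 = 2 ^ 1 := by norm_num
      _ ≤ 2 ^ r := Nat.pow_le_pow_right (by norm_num) hr
  have e : 2 ^ (18 * r + 7) = 128 * (2 ^ r) ^ 18 := by
    rw [pow_add, show 18 * r = r * 18 by ring, pow_mul]; ring
  obtain ⟨P, hP⟩ : ∃ P : ℕ, P = 2 ^ r := ⟨_, rfl⟩
  rw [← hP] at ha hL h2 h2r e
  have hrP : r ≤ P := by omega
  -- `a + 1 ≤ 3 P ^ 2`
  have ha1 : a + 1 ≤ 3 * P ^ 2 := by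
    have : 4 * r * P ≤ 2 * P * P := Nat.mul_le_mul_right P (by omega)
    nlinarith
  have hP1 : 1 ≤ P := by omega
  have hRm1 : Rm + 1 ≤ 4 * P ^ 3 := by
    have h3 : 3 * r * a ≤ 3 * P ^ 3 := by
      rw [ha]
      calc 3 * r * (4 * r * P) = 3 * ((2 * r) * (2 * r)) * P := by ring
        _ ≤ 3 * (P * P) * P := by gcongr
        _ = 3 * P ^ 3 := by ring
    have h4 : 1 ≤ P ^ 3 := Nat.one_le_pow _ _ hP1
    omega
  have hPk : ∀ j k : ℕ, j ≤ k → P ^ j ≤ P ^ k := fun j k h => Nat.pow_le_pow_right hP1 h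
  rw [hC, e]
  refine ⟨?_, ?_, ?_⟩
  · calc 16 * (a + 1) ^ 3 ≤ 16 * (3 * P ^ 2) ^ 3 := by gcongr
      _ = 432 * P ^ 6 := by ring
      _ ≤ 128 * (4 * P ^ 6) := by omega
      _ ≤ 128 * (P ^ 2 * P ^ 6) := by
          gcongr
          nlinarith
      _ = 128 * P ^ 8 := by ring
      _ ≤ 128 * P ^ 18 := Nat.mul_le_mul_left _ (hPk 8 18 (by norm_num))
  · calc 4 * ((a + 1) * (Rm + 1)) ≤ 4 * (3 * P ^ 2 * (4 * P ^ 3)) := by gcongr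
      _ = 48 * P ^ 5 := by ring
      _ ≤ 128 * P ^ 5 := by omega
      _ ≤ 128 * P ^ 18 := Nat.mul_le_mul_left _ (hPk 5 18 (by norm_num))
  · -- `L + Rm ≤ 1168 r ^ 7 P`
    have h7 : 1 ≤ r ^ 5 := Nat.one_le_pow _ _ hr
    have hLR : L + Rm ≤ 1168 * r ^ 7 * P := by
      have h5 : Rm ≤ 12 * r ^ 7 * P := by
        rw [hRm, ha]
        calc 3 * r * (4 * r * P) = 12 * (r ^ 2 * 1) * P := by ring
          _ ≤ 12 * (r ^ 2 * r ^ 5) * P := by gcongr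
          _ = 12 * r ^ 7 * P := by ring
      calc L + Rm ≤ 1156 * r ^ 7 * P + 12 * r ^ 7 * P := Nat.add_le_add hL h5
        _ = 1168 * r ^ 7 * P := by ring
    have h15 : 2 ^ 15 * r ^ 15 ≤ P ^ 15 := by
      calc 2 ^ 15 * r ^ 15 = (2 * r) ^ 15 := by ring
        _ ≤ P ^ 15 := Nat.pow_le_pow_left h2 15
    -- `5 * 1168 ^ 2 = 6821120 ≤ 2 ^ 23`
    calc 5 * (r * (L + Rm) ^ 2) ≤ 5 * (r * (1168 * r ^ 7 * P) ^ 2) := by gcongr
      _ = 6821120 * (r ^ 15 * P ^ 2) := by ring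
      _ ≤ 2 ^ 23 * (r ^ 15 * P ^ 2) := Nat.mul_le_mul_right _ (by norm_num)
      _ = 2 ^ 8 * ((2 ^ 15 * r ^ 15) * P ^ 2) := by ring
      _ ≤ 2 ^ 8 * (P ^ 15 * P ^ 2) := by gcongr
      _ = 128 * (2 * P ^ 17) := by ring
      _ ≤ 128 * (P * P ^ 17) := by gcongr
      _ = 128 * P ^ 18 := by ring

/-- the natural number inequalities -/
theorem BParamsX_nat (r a Rm L n q T E C : ℕ) (hr : 1 ≤ r) (ha : a = 4 * r * 2 ^ r)
    (hRm : Rm = 3 * r * a) (hC : C = 2 ^ (18 * r + 7))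
    (hT : T = n / a) (hE : E = n / C) (hL : L ≤ 1156 * r ^ 7 * 2 ^ r)
    (hn : C ≤ n) (hq : 2 ^ (r + 12) * r ^ 7 * q ≤ n) :
    (n + (a + 1) ^ 2 * E < (a + 1) * T) ∧
      (2 * r * n < T * (Rm + 1)) ∧ (2 * (Rm * E) ≤ T) ∧
      (L * q + 2 ^ r * (q + 2 * r * T) + r * ((L + Rm) ^ 2 * E) < n) := by
  obtain ⟨k1, k2, k3⟩ := BParamsX_C r a Rm L C hr ha hRm hL hC
  have ha1 : 1 ≤ a := by
    rw [ha]; exact Nat.mul_pos (by omega) (by positivity)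
  have hCpos : 0 < C := by
    rw [hC]; positivity
  have haT : a * T ≤ n := by rw [hT]; exact Nat.mul_div_le n a
  have haT' : n < a * T + a := by
    rw [hT]
    have := Nat.lt_mul_div_succ n (show 0 < a by omega)
    rw [mul_add, mul_one] at this
    exact this
  have hCE : C * E ≤ n := by rw [hE]; exact Nat.mul_div_le n C
  have c1 : 16 * ((a + 1) * ((a + 1) ^ 2 * E)) ≤ n := by
    calc 16 * ((a + 1) * ((a + 1) ^ 2 * E)) = 16 * (a + 1) ^ 3 * E := by ring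
      _ ≤ C * E := Nat.mul_le_mul_right E k1
      _ ≤ n := hCE
  have c2 : 4 * ((a + 1) * ((Rm + 1) * E)) ≤ n := by
    calc 4 * ((a + 1) * ((Rm + 1) * E)) = 4 * ((a + 1) * (Rm + 1)) * E := by ring
      _ ≤ C * E := Nat.mul_le_mul_right E k2
      _ ≤ n := hCE
  have c3 : 5 * (r * ((L + Rm) ^ 2 * E)) ≤ n := by
    calc 5 * (r * ((L + Rm) ^ 2 * E)) = 5 * (r * (L + Rm) ^ 2) * E := by ring
      _ ≤ C * E := Nat.mul_le_mul_right E k3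
      _ ≤ n := hCE
  have hn16 : 16 * (a + 1) ^ 2 ≤ n := by
    have : 16 * (a + 1) ^ 2 ≤ 16 * (a + 1) ^ 3 :=
      Nat.mul_le_mul_left _ (Nat.pow_le_pow_right (by omega) (by norm_num))
    omega
  have hnpos : 0 < n := by omega
  have hn' : 16 * (a * a) + 32 * a + 16 ≤ n := by
    calc 16 * (a * a) + 32 * a + 16 = 16 * (a + 1) ^ 2 := by ring
      _ ≤ n := hn16
  refine ⟨?_, ?_, ?_, ?_⟩
  · -- a * (a + (a+1)^2 E) ≤ n - a < a T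
    obtain ⟨X, hX⟩ : ∃ X : ℕ, X = (a + 1) ^ 2 * E := ⟨_, rfl⟩
    rw [← hX] at c1 ⊢
    have h1 : a * (a + X) < a * T := by
      have e1 : a * (a + X) = a * a + a * X := by ring
      have e2 : 16 * ((a + 1) * X) = 16 * (a * X) + 16 * X := by ring
      rw [e1]
      rw [e2] at c1
      omega
    have h2 : a + X < T := Nat.lt_of_mul_lt_mul_left h1
    have e3 : (a + 1) * T = a * T + T := by ring
    rw [e3]
    omega
  · have h4 : 3 * a < n := by omega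
    have h5 : r * (3 * a) ≤ r * n := Nat.mul_le_mul_left _ h4.le
    have hTpos : 0 < T := by
      rcases Nat.eq_zero_or_pos T with h | h
      · rw [h] at haT'; omega
      · exact h
    have h3 : 3 * (r * n) ≤ 3 * (r * (a * T)) + r * (3 * a) := by
      calc 3 * (r * n) ≤ 3 * (r * (a * T + a)) := by
            exact Nat.mul_le_mul_left _ (Nat.mul_le_mul_left _ haT'.le)
        _ = 3 * (r * (a * T)) + r * (3 * a) := by ring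
    have e4 : T * (3 * r * a + 1) = 3 * (r * (a * T)) + T := by ring
    have e5 : 2 * r * n = 2 * (r * n) := by ring
    rw [hRm, e4, e5]
    omega
  · have h6 : a * (2 * (Rm * E)) ≤ a * T := by
      have e6 : 4 * ((a + 1) * ((Rm + 1) * E)) =
          4 * (a * (Rm * E)) + 4 * (a * E) + 4 * (Rm * E) + 4 * E := by ring
      have e7 : a * (2 * (Rm * E)) = 2 * (a * (Rm * E)) := by ring
      rw [e6] at c2
      rw [e7]
      omega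
    exact Nat.le_of_mul_le_mul_left h6 (by omega)
  · -- L q + 2^r q ≤ 1157/4096 n
    have hLq : 4096 * ((L + 2 ^ r) * q) ≤ 1157 * n := by
      have h7 : L + 2 ^ r ≤ 1157 * (r ^ 7 * 2 ^ r) := by
        have : 2 ^ r ≤ r ^ 7 * 2 ^ r := Nat.le_mul_of_pos_left _ (by positivity)
        calc L + 2 ^ r ≤ 1156 * r ^ 7 * 2 ^ r + r ^ 7 * 2 ^ r := by omega
          _ = 1157 * (r ^ 7 * 2 ^ r) := by ring
      calc 4096 * ((L + 2 ^ r) * q) ≤ 4096 * (1157 * (r ^ 7 * 2 ^ r) * q) := by gcongr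
        _ = 1157 * (2 ^ (r + 12) * r ^ 7 * q) := by rw [pow_add]; ring
        _ ≤ 1157 * n := by gcongr
    have h8 : 2 * (2 ^ r * (2 * r * T)) = a * T := by rw [ha]; ring
    have h10 : L * q + 2 ^ r * (q + 2 * r * T) = (L + 2 ^ r) * q + 2 ^ r * (2 * r * T) := by ring
    rw [h10]
    omega

/-- the exponential inequality used for the random sampling -/
theorem BParamsX_exp (r s m L : ℕ) (hr : 1 ≤ r) (hs : 40 * r ≤ s) (hm : m = r * (2 * r + 1 + 1))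
    (hL : L ≤ 1156 * r ^ 7 * 2 ^ r) :
    L + r + m * (2 * s + r + 2) ≤ 2 ^ (s - (18 * r + 7)) := by
  obtain ⟨t, rfl⟩ : ∃ t, s = 40 * r + t := ⟨s - 40 * r, by omega⟩
  have h2 := BParamsA_two_mul_le r
  have h2r : 2 ≤ 2 ^ r := by
    calc 2 = 2 ^ 1 := by norm_num
      _ ≤ 2 ^ r := Nat.pow_le_pow_right (by norm_num) hr
  have e : 40 * r + t - (18 * r + 7) = (22 * r - 7) + t := by omega
  have e2 : 2 ^ (22 * r - 7) = 2 ^ (22 * r - 22) * 2 ^ 15 := by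
    rw [← pow_add]; congr 1; omega
  have e3 : 2 ^ (8 * r) * 2 ^ 7 ≤ 2 ^ (22 * r - 7) := by
    rw [← pow_add]
    exact Nat.pow_le_pow_right (by norm_num) (by omega)
  have ht : t + 1 ≤ 2 ^ t := Nat.lt_two_pow_self
  have hP : 2 ^ (8 * r) = (2 ^ r) ^ 8 := by rw [← pow_mul]; congr 1; ring
  rw [e, pow_add]
  refine le_trans ?_ (Nat.mul_le_mul_right _ e3)
  rw [hP]
  obtain ⟨P, hPd⟩ : ∃ P : ℕ, P = 2 ^ r := ⟨_, rfl⟩
  rw [← hPd] at h2 h2r hL ⊢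
  have hP1 : 1 ≤ P := by omega
  have hrP : r ≤ P := by omega
  have h128 : 128 * r ^ 7 ≤ P ^ 7 := by
    calc 128 * r ^ 7 = (2 * r) ^ 7 := by ring
      _ ≤ P ^ 7 := Nat.pow_le_pow_left h2 7
  have hL2 : L ≤ 10 * P ^ 8 := by
    have h1 : 1156 * r ^ 7 ≤ 10 * P ^ 7 := by omega
    calc L ≤ 1156 * r ^ 7 * P := hL
      _ ≤ 10 * P ^ 7 * P := Nat.mul_le_mul_right _ h1
      _ = 10 * P ^ 8 := by ring
  have hm2 : m ≤ P ^ 2 := by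
    rw [hm]
    calc r * (2 * r + 1 + 1) ≤ r * (4 * r) := Nat.mul_le_mul_left _ (by omega)
      _ = (2 * r) * (2 * r) := by ring
      _ ≤ P * P := Nat.mul_le_mul h2 h2
      _ = P ^ 2 := by ring
  have h3 : 2 * (40 * r + t) + r + 2 ≤ 43 * P * 2 ^ t := by
    have h4 : 2 * t + 2 ≤ 2 * 2 ^ t := by omega
    have h5 : 81 * r ≤ 41 * P := by omega
    have h6 : 1 ≤ 2 ^ t := Nat.one_le_two_pow
    calc 2 * (40 * r + t) + r + 2 = 81 * r + (2 * t + 2) := by ring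
      _ ≤ 41 * P * 1 + 2 * 2 ^ t := by omega
      _ ≤ 41 * P * 2 ^ t + 2 * P * 2 ^ t := by
          gcongr
          omega
      _ = 43 * P * 2 ^ t := by ring
  have h6 : 1 ≤ 2 ^ t := Nat.one_le_two_pow
  have hP8 : P ≤ P ^ 8 := Nat.le_self_pow (by norm_num) _
  have hP38 : P ^ 3 ≤ P ^ 8 := Nat.pow_le_pow_right hP1 (by norm_num)
  calc L + r + m * (2 * (40 * r + t) + r + 2)
      ≤ (10 * P ^ 8 + P ^ 8) * 1 + P ^ 2 * (43 * P * 2 ^ t) := by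
        gcongr
        omega
    _ ≤ (10 * P ^ 8 + P ^ 8) * 2 ^ t + P ^ 2 * (43 * P * 2 ^ t) := by gcongr
    _ = 11 * P ^ 8 * 2 ^ t + 43 * P ^ 3 * 2 ^ t := by ring
    _ ≤ 11 * P ^ 8 * 2 ^ t + 43 * P ^ 8 * 2 ^ t := by gcongr
    _ = 54 * P ^ 8 * 2 ^ t := by ring
    _ ≤ 128 * P ^ 8 * 2 ^ t := by gcongr; norm_num
    _ = P ^ 8 * 2 ^ 7 * 2 ^ t := by ring

/-- the parameters with an explicit lower bound for `n` -/
theorem paramsN_explicit (r : ℕ) (hr : 1 ≤ r) : ∀ n q : ℕ, 2 ^ (40 * r) ≤ n →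
    2 ^ (r + 12) * r ^ 7 * q ≤ n →
    ∃ T E α Rm lam ℓ Nn Em : ℕ, ∃ B : ℝ,
      (n + (α + 1) ^ 2 * E < (α + 1) * T) ∧
      (2 * r * n < T * (Rm + 1)) ∧ (2 * (Rm * E) ≤ T) ∧
      (lam * r * α * q + 2 ^ r * (q + 2 * r * T) + r * ((lam * r * α + Rm) ^ 2 * E) < n) ∧
      (2 * Nn + r ≤ lam) ∧ (α ≤ 2 ^ ℓ) ∧
      (∀ d : ℕ, lam ≤ d → ((d : ℝ) + 1) * (1 - 1 / ((r : ℝ) * (ℓ + 1))) ^ (d + 1 - r) ≤ B) ∧
      0 ≤ B ∧ (lam * r * α + r + Em ≤ E) ∧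
      (r * (α * B + ℓ * (α * (1 - 1 / ((r : ℝ) * (ℓ + 1)) ^ 2) ^ Nn)) +
        r * (n : ℝ) ^ 2 * (1 - 1 / ((r : ℝ) * (ℓ + 1))) ^ Em < 1) := by
  intro n q hn hq
  obtain ⟨α, hα⟩ : ∃ α : ℕ, α = 4 * r * 2 ^ r := ⟨_, rfl⟩
  obtain ⟨ℓ, hℓ⟩ : ∃ ℓ : ℕ, ℓ = 2 * r + 1 := ⟨_, rfl⟩
  obtain ⟨m, hm⟩ : ∃ m : ℕ, m = r * (ℓ + 1) := ⟨_, rfl⟩
  obtain ⟨Nn, hNn⟩ : ∃ Nn : ℕ, Nn = 9 * r * m ^ 2 := ⟨_, rfl⟩
  obtain ⟨lam, hlam⟩ : ∃ lam : ℕ, lam = 2 * Nn + r := ⟨_, rfl⟩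
  obtain ⟨B, hB⟩ : ∃ B : ℝ, B = 1 / (32 * r ^ 2 * 2 ^ r) := ⟨_, rfl⟩
  obtain ⟨hA1, hA2, hA3⟩ := paramsA r hr α ℓ m Nn lam hα hℓ hm hNn hlam B hB
  obtain ⟨Rm, hRm⟩ : ∃ Rm : ℕ, Rm = 3 * r * α := ⟨_, rfl⟩
  obtain ⟨L, hL⟩ : ∃ L : ℕ, L = lam * r * α := ⟨_, rfl⟩
  obtain ⟨C, hC⟩ : ∃ C : ℕ, C = 2 ^ (18 * r + 7) := ⟨_, rfl⟩
  -- bound for L
  have hLb : L ≤ 1156 * r ^ 7 * 2 ^ r := by
    have hr2 : (r + 1) ^ 2 ≤ 4 * r ^ 2 := by nlinarith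
    have e1 : L = (288 * (r ^ 5 * (r + 1) ^ 2) + 4 * r ^ 3) * 2 ^ r := by
      rw [hL, hlam, hNn, hm, hℓ, hα]; ring
    have h2 : r ^ 5 * (r + 1) ^ 2 ≤ r ^ 5 * (4 * r ^ 2) := Nat.mul_le_mul_left _ hr2
    have h3 : r ^ 3 ≤ r ^ 7 := Nat.pow_le_pow_right hr (by norm_num)
    have h4 : 288 * (r ^ 5 * (r + 1) ^ 2) + 4 * r ^ 3 ≤ 1156 * r ^ 7 := by
      calc 288 * (r ^ 5 * (r + 1) ^ 2) + 4 * r ^ 3 ≤ 288 * (r ^ 5 * (4 * r ^ 2)) + 4 * r ^ 7 := by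
            gcongr
        _ = 1156 * r ^ 7 := by ring
    rw [e1]
    exact Nat.mul_le_mul_right _ h4
  have hn0 : n ≠ 0 := by
    have : 0 < 2 ^ (40 * r) := by positivity
    omega
  -- the binary logarithm of `n`
  obtain ⟨s, hs1, hs2, hs3⟩ : ∃ s : ℕ, 40 * r ≤ s ∧ 2 ^ s ≤ n ∧ n < 2 ^ (s + 1) := by
    refine ⟨Nat.log 2 n, ?_, Nat.pow_log_le_self 2 hn0, Nat.lt_pow_succ_log_self (by norm_num) n⟩
    exact Nat.le_log_of_pow_le (by norm_num) hn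
  obtain ⟨T, hT⟩ : ∃ T : ℕ, T = n / α := ⟨_, rfl⟩
  obtain ⟨E, hE⟩ : ∃ E : ℕ, E = n / C := ⟨_, rfl⟩
  have hCn : C ≤ n := by
    rw [hC]
    exact le_trans (Nat.pow_le_pow_right (by norm_num) (by omega)) hn
  obtain ⟨h1, h2, h3, h4⟩ := BParamsX_nat r α Rm L n q T E C hr hα hRm hC hT hE hLb hCn hq
  have hEbig : 2 ^ (s - (18 * r + 7)) ≤ E := by
    rw [hE, hC]
    rw [Nat.le_div_iff_mul_le (by positivity), ← pow_add]
    refine le_trans (Nat.pow_le_pow_right (by norm_num) ?_) hs2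
    omega
  have hx := BParamsX_exp r s m L hr hs1 (by rw [hm, hℓ]) hLb
  have hEm : m * (2 * s + r + 2) ≤ E - (L + r) := by omega
  refine ⟨T, E, α, Rm, lam, ℓ, Nn, E - (L + r), B, h1, h2, h3, ?_, by omega, hA1, hA2, ?_, ?_, ?_⟩
  · rw [← hL]; exact h4
  · rw [hB]; positivity
  · rw [← hL]; omega
  · have hm1 : 1 ≤ m := by
      rw [hm, hℓ]
      exact Nat.mul_pos (by omega) (by omega)
    have hmR : (r : ℝ) * (ℓ + 1) = (m : ℝ) := by rw [hm]; push_cast; ring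
    have hm0 : (0 : ℝ) < m := by exact_mod_cast hm1
    have hq0 : (0 : ℝ) ≤ 1 - 1 / (m : ℝ) := by
      have : 1 / (m : ℝ) ≤ 1 := by
        rw [div_le_one hm0]; exact_mod_cast hm1
      linarith
    have hq1 : 1 - 1 / (m : ℝ) ≤ 1 := by
      have : 0 < 1 / (m : ℝ) := by positivity
      linarith
    have h5 : (1 - 1 / (m : ℝ)) ^ (E - (L + r)) ≤ (1 / 2) ^ (2 * s + r + 2) :=
      le_trans (pow_le_pow_of_le_one hq0 hq1 hEm) (BParamsA_half_pow m (2 * s + r + 2) hm1)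
    have h6 : (n : ℝ) ^ 2 ≤ 2 ^ (2 * s + 2) := by
      have h7 : (n : ℝ) ≤ 2 ^ (s + 1) := by exact_mod_cast hs3.le
      calc (n : ℝ) ^ 2 ≤ (2 ^ (s + 1)) ^ 2 := pow_le_pow_left₀ (by positivity) h7 2
        _ = 2 ^ (2 * s + 2) := by rw [← pow_mul]; congr 1; ring
    have h8 : 2 * (r : ℝ) ≤ 2 ^ r := by exact_mod_cast BParamsA_two_mul_le r
    have h9 : (r : ℝ) * (n : ℝ) ^ 2 * (1 - 1 / (m : ℝ)) ^ (E - (L + r)) ≤ 1 / 2 := by
      calc (r : ℝ) * (n : ℝ) ^ 2 * (1 - 1 / (m : ℝ)) ^ (E - (L + r))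
          ≤ (2 ^ r / 2) * 2 ^ (2 * s + 2) * (1 / 2) ^ (2 * s + r + 2) := by
            have hr0 : (r : ℝ) ≤ 2 ^ r / 2 := by linarith
            have : (0 : ℝ) ≤ (1 - 1 / (m : ℝ)) ^ (E - (L + r)) := pow_nonneg hq0 _
            gcongr
        _ = 1 / 2 := by
            rw [one_div, inv_pow, show 2 * s + r + 2 = r + (2 * s + 2) by ring,
              pow_add (2 : ℝ) r (2 * s + 2)]
            obtain ⟨a1, ha1⟩ : ∃ a1 : ℝ, a1 = 2 ^ r := ⟨_, rfl⟩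
            obtain ⟨a2, ha2⟩ : ∃ a2 : ℝ, a2 = 2 ^ (2 * s + 2) := ⟨_, rfl⟩
            have h10 : a1 ≠ 0 := by rw [ha1]; positivity
            have h11 : a2 ≠ 0 := by rw [ha2]; positivity
            rw [← ha1, ← ha2]
            field_simp
    rw [hmR] at hA3 ⊢
    linarith

end Pool.Agent.MP5f1228B
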