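import Mathlib
import Pool.Agent.Lib.MP_5f1228_co.Defs

/-!
# MP_5f1228_co, module TREE: spanning trees of the classes
-/

set_option autoImplicit false

namespace Pool.Agent.MP5f1228

open Finset

/-- a spanning tree of one class, as a subgraph of `G` -/
theorem tree_one {V : Type} [Finite V] (G M : SimpleGraph V) (hM : M ≤ G) (S : Set V)
    (h : (M.induce S).Preconnected) :
    ∃ H : G.Subgraph, (H = ⊥ ∨ H.coe.IsTree) ∧ (∀ v w, H.Adj v w → M.Adj v w) ∧
      H.verts = S := by
  classical
  rcases S.eq_empty_or_nonempty with hS | hS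
  · refine ⟨⊥, Or.inl rfl, fun v w h => h.elim, ?_⟩
    rw [hS]
    rfl
  · have : Nonempty S := hS.to_subtype
    have hc : (M.induce S).Connected := { preconnected := h }
    obtain ⟨T, hT, hTt⟩ := hc.exists_isTree_le
    let H : G.Subgraph :=
      { verts := S
        Adj := fun v w => ∃ (hv : v ∈ S) (hw : w ∈ S), T.Adj ⟨v, hv⟩ ⟨w, hw⟩
        adj_sub := by
          rintro v w ⟨hv, hw, h⟩
          exact hM (hT h)
        edge_vert := by
          rintro v w ⟨hv, -, -⟩
          exact hv
        symm := ⟨by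
          rintro v w ⟨hv, hw, h⟩
          exact ⟨hw, hv, h.symm⟩⟩ }
    refine ⟨H, Or.inr ?_, ?_, rfl⟩
    · have h1 : H.coe = T := by
        ext v w
        constructor
        · rintro ⟨hv, hw, h⟩
          exact h
        · intro h
          exact ⟨v.2, w.2, h⟩
      rw [h1]
      exact hTt
    · rintro v w ⟨hv, hw, h⟩
      exact hT h

theorem trees_of_partition {V : Type} [Fintype V] [DecidableEq V] {r : ℕ} (G : SimpleGraph V)
    (c : Sym2 V → Fin r) (F : V → Fin r)
    (hF : ∀ i, ((mono G c i).induce {v | F v = i}).Preconnected) :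
    ∃ H : Fin r → G.Subgraph, (∀ i, H i = ⊥ ∨ (H i).coe.IsTree) ∧
      (∀ i v w, (H i).Adj v w → c s(v, w) = i) ∧ ∀ v, ∃! i, v ∈ (H i).verts := by
  choose H h1 h2 h3 using fun i : Fin r =>
    tree_one G (mono G c i) (fun _ _ h => h.1) {v | F v = i} (hF i)
  refine ⟨H, h1, fun i v w h => (h2 i v w h).2, fun v => ⟨F v, ?_, ?_⟩⟩
  · show v ∈ (H (F v)).verts
    rw [h3]
    rfl
  · intro j hj
    have hj' : v ∈ (H j).verts := hj
    rw [h3] at hj'
    exact hj'.symm

end Pool.Agent.MP5f1228
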