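import Mathlib
import Pool.Agent.Lib.MP_5f1228_co.BMain
import Pool.Agent.Lib.MP_5f1228_co.BParamsX
import Pool.Agent.Lib.MP_5f1228_co.Tree

/-!
# MP_5f1228_co: from the finite main theorem to graphs
-/

open scoped Classical
open Finset

namespace Pool.Agent.MP5f1228B

/-- the vertex set can be partitioned into classes, class `i` being connected in colour `i` -/
theorem classesB (r : ℕ) (hr : 1 ≤ r) (V : Type) [Fintype V]
    (G : SimpleGraph V) (c : Sym2 V → Fin r) (hn : 2 ^ (40 * r) ≤ Fintype.card V)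
    (hdeg : ∀ v, (1 - 1 / (2 ^ (r + 12) * (r : ℝ) ^ 7)) * (Fintype.card V : ℝ) ≤
      (G.degree v : ℝ)) :
    ∃ F : V → Fin r, ∀ i, ((MP5f1228.mono G c i).induce {v | F v = i}).Preconnected := by
  set q : ℕ := ⌊(Fintype.card V : ℝ) / (2 ^ (r + 12) * (r : ℝ) ^ 7)⌋₊ with hq
  have hr0 : (0 : ℝ) < r := by exact_mod_cast hr
  have hC : (0 : ℝ) < 2 ^ (r + 12) * (r : ℝ) ^ 7 := by positivity
  have hq1 : (q : ℝ) ≤ (Fintype.card V : ℝ) / (2 ^ (r + 12) * (r : ℝ) ^ 7) :=
    Nat.floor_le (by positivity)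
  have hq2 : 2 ^ (r + 12) * r ^ 7 * q ≤ Fintype.card V := by
    rw [le_div_iff₀ hC] at hq1
    have : ((2 ^ (r + 12) * r ^ 7 * q : ℕ) : ℝ) ≤ (Fintype.card V : ℝ) := by
      push_cast
      linarith
    exact_mod_cast this
  obtain ⟨T, E, α, Rm, lam, ℓ, Nn, Em, B, h1, h2, h3, h4, h5, h6, h7, h8, h9, h10⟩ :=
    paramsN_explicit r hr (Fintype.card V) q hn hq2
  obtain ⟨N, hN⟩ : ∃ N : Fin r → V → V → Prop,
      ∀ i a b, N i a b ↔ (G.Adj a b ∧ c s(a, b) = i) := ⟨_, fun _ _ _ => Iff.rfl⟩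
  have hqc : ∀ v : V, (univ.filter (fun x => ¬ ∃ i, N i v x)).card ≤ q := by
    intro v
    rw [hq]
    apply Nat.le_floor
    have hd := hdeg v
    have e1 : (univ.filter (fun x => ¬ ∃ i, N i v x)) = univ.filter (fun x => ¬ G.Adj v x) := by
      ext x
      simp [hN]
    have e2 : G.degree v + (univ.filter (fun x => ¬ G.Adj v x)).card = Fintype.card V := by
      have : G.degree v = (univ.filter (fun x => G.Adj v x)).card := by
        rw [← SimpleGraph.card_neighborFinset_eq_degree]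
        congr 1
        ext x
        simp
      rw [this, ← card_univ]
      exact card_filter_add_card_filter_not _
    rw [e1]
    have e3 : (G.degree v : ℝ) + ((univ.filter (fun x => ¬ G.Adj v x)).card : ℝ) =
        Fintype.card V := by exact_mod_cast e2
    have : (1 - 1 / (2 ^ (r + 12) * (r : ℝ) ^ 7)) * (Fintype.card V : ℝ) =
        Fintype.card V - (Fintype.card V : ℝ) / (2 ^ (r + 12) * (r : ℝ) ^ 7) := by ring
    linarith
  obtain ⟨f, hf⟩ := main_finite N
    (by
      intro i u v h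
      rw [hN] at h ⊢
      refine ⟨h.1.symm, ?_⟩
      rw [Sym2.eq_swap]
      exact h.2)
    (by
      intro i j u v h h'
      rw [hN] at h h'
      rw [← h.2, ← h'.2])
    q T E α Rm lam ℓ Nn Em B hqc h1 h2 h3 h4 h5 h6 h7 h8 h9 h10
  refine ⟨f, fun i => ?_⟩
  rintro ⟨u, hu⟩ ⟨v, hv⟩
  have h := hf i u v hu hv
  have key : ∀ w, Con (N i) (fun w => f w = i) u w → ∀ hw : f w = i,
      ((MP5f1228.mono G c i).induce {v | f v = i}).Reachable ⟨u, hu⟩ ⟨w, hw⟩ := by
    intro w hcon
    induction hcon with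
    | refl => intro _; exact SimpleGraph.Reachable.refl _
    | @tail b d hb hd ih =>
      intro hw
      have hb' : f b = i := Con.end_mem' (P := fun w => f w = i) (show Con _ _ u b from hb) hu
      refine (ih hb').trans (SimpleGraph.Adj.reachable ?_)
      exact (hN i b d).1 hd.1
  exact key v h hv

end Pool.Agent.MP5f1228B
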