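import Mathlib
import Pool.Agent.Lib.MP_5f1228_co.DefsB
import Pool.Agent.Lib.MP_5f1228_co.BParamsA

/-!
# MP_5f1228_co: numerical parameters, existence of n0
-/

open scoped Classical
open Finset

namespace Pool.Agent.MP5f1228B

/-- the limit used for the union bound over pairs of vertices -/
theorem paramsN_lim (D C : ℕ) (ρ : ℝ) (h0 : 0 < ρ) (h1 : ρ < 1) (K : ℝ) :
    ∃ N1 : ℕ, ∀ x : ℕ, N1 ≤ x → K * ((C : ℝ) * ((x : ℝ) + D)) ^ 2 * ρ ^ x < 3 / 4 := by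
  have ht := tendsto_pow_const_mul_const_pow_of_abs_lt_one 2 (r := ρ)
    (by rw [abs_of_pos h0]; exact h1)
  have ht2 : Filter.Tendsto (fun x : ℕ => K * (C : ℝ) ^ 2 / ρ ^ D *
      (((x + D : ℕ) : ℝ) ^ 2 * ρ ^ (x + D))) Filter.atTop (nhds (K * (C : ℝ) ^ 2 / ρ ^ D * 0)) :=
    (ht.comp (Filter.tendsto_add_atTop_nat D)).const_mul _
  rw [mul_zero] at ht2
  have hev := ht2.eventually (gt_mem_nhds (show (0 : ℝ) < 3 / 4 by norm_num))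
  obtain ⟨N1, hN1⟩ := Filter.eventually_atTop.1 hev
  refine ⟨N1, fun x hx => ?_⟩
  have h := hN1 x hx
  have hρ : ρ ^ D ≠ 0 := (pow_pos h0 D).ne'
  have e : K * (C : ℝ) ^ 2 / ρ ^ D * (((x + D : ℕ) : ℝ) ^ 2 * ρ ^ (x + D)) =
      K * ((C : ℝ) * ((x : ℝ) + D)) ^ 2 * ρ ^ x := by
    rw [pow_add]
    push_cast
    field_simp
  rw [e] at h
  exact h

/-- the natural number inequalities -/
theorem paramsN_nat (r a Rm L n q T E C : ℕ) (hr : 1 ≤ r) (ha : a = 4 * r * 2 ^ r)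
    (hRm : Rm = 3 * r * a) (hC : C = 16 * (a + 1) ^ 3 * (Rm + 1) * r * (L + Rm + 1) ^ 2)
    (hT : T = n / a) (hE : E = n / C) (hL : L ≤ 1156 * r ^ 7 * 2 ^ r)
    (hn : 16 * (a + 1) ^ 2 ≤ n) (hq : 2 ^ (r + 12) * r ^ 7 * q ≤ n) :
    (n + (a + 1) ^ 2 * E < (a + 1) * T) ∧
      (2 * r * n < T * (Rm + 1)) ∧ (2 * (Rm * E) ≤ T) ∧
      (L * q + 2 ^ r * (q + 2 * r * T) + r * ((L + Rm) ^ 2 * E) < n) := by
  have ha1 : 1 ≤ a := by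
    rw [ha]; exact Nat.mul_pos (by omega) (by positivity)
  have hCpos : 0 < C := by
    rw [hC]; positivity
  have haT : a * T ≤ n := by rw [hT]; exact Nat.mul_div_le n a
  have haT' : n < a * T + a := by
    rw [hT]
    have := Nat.lt_mul_div_succ n (show 0 < a by omega)
    rw [mul_add, mul_one] at this
    exact this
  have hCE : C * E ≤ n := by rw [hE]; exact Nat.mul_div_le n C
  have hr1 : 1 ≤ (L + Rm + 1) ^ 2 := Nat.one_le_pow _ _ (by omega)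
  -- 16 (a+1)^3 E ≤ n
  have hA1 : 1 ≤ (a + 1) ^ 3 := Nat.one_le_pow _ _ (by omega)
  have hA2 : a + 1 ≤ (a + 1) ^ 3 := Nat.le_self_pow (by norm_num) _
  have hR : 1 ≤ Rm + 1 := by omega
  have hLR : (L + Rm) ^ 2 ≤ (L + Rm + 1) ^ 2 := Nat.pow_le_pow_left (by omega) 2
  have key : ∀ P Q S W : ℕ, P ≤ (a + 1) ^ 3 → Q ≤ Rm + 1 → S ≤ r → W ≤ (L + Rm + 1) ^ 2 →
      16 * (P * Q * (S * W)) * E ≤ n := by
    intro P Q S W hP hQ hS hW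
    refine le_trans (Nat.mul_le_mul_right E ?_) hCE
    have e : C = 16 * ((a + 1) ^ 3 * (Rm + 1) * (r * (L + Rm + 1) ^ 2)) := by rw [hC]; ring
    rw [e]
    exact Nat.mul_le_mul_left _ (Nat.mul_le_mul (Nat.mul_le_mul hP hQ) (Nat.mul_le_mul hS hW))
  have c1 : 16 * ((a + 1) * ((a + 1) ^ 2 * E)) ≤ n := by
    have := key ((a + 1) ^ 3) 1 1 1 le_rfl hR hr hr1
    calc 16 * ((a + 1) * ((a + 1) ^ 2 * E)) = 16 * ((a + 1) ^ 3 * 1 * (1 * 1)) * E := by ring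
      _ ≤ n := this
  have c2 : 16 * ((a + 1) * ((Rm + 1) * E)) ≤ n := by
    have := key (a + 1) (Rm + 1) 1 1 hA2 le_rfl hr hr1
    calc 16 * ((a + 1) * ((Rm + 1) * E)) = 16 * ((a + 1) * (Rm + 1) * (1 * 1)) * E := by ring
      _ ≤ n := this
  have c3 : 16 * (r * ((L + Rm) ^ 2 * E)) ≤ n := by
    have := key 1 1 r ((L + Rm) ^ 2) hA1 hR le_rfl hLR
    calc 16 * (r * ((L + Rm) ^ 2 * E)) = 16 * (1 * 1 * (r * (L + Rm) ^ 2)) * E := by ring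
      _ ≤ n := this
  have hnpos : 0 < n := lt_of_lt_of_le (by positivity) hn
  have hn' : 16 * (a * a) + 32 * a + 16 ≤ n := by
    calc 16 * (a * a) + 32 * a + 16 = 16 * (a + 1) ^ 2 := by ring
      _ ≤ n := hn
  refine ⟨?_, ?_, ?_, ?_⟩
  · -- a * (a + (a+1)^2 E) ≤ n - a < a T
    obtain ⟨X, hX⟩ : ∃ X : ℕ, X = (a + 1) ^ 2 * E := ⟨_, rfl⟩
    rw [← hX] at c1 ⊢
    have h1 : a * (a + X) < a * T := by
      have e1 : a * (a + X) = a * a + a * X := by ring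
      have e2 : 16 * ((a + 1) * X) = 16 * (a * X) + 16 * X := by ring
      rw [e1]
      rw [e2] at c1
      omega
    have h2 : a + X < T := Nat.lt_of_mul_lt_mul_left h1
    have e3 : (a + 1) * T = a * T + T := by ring
    rw [e3]
    omega
  · have h4 : 3 * a < n := by omega
    have h5 : r * (3 * a) ≤ r * n := Nat.mul_le_mul_left _ h4.le
    have hTpos : 0 < T := by
      rcases Nat.eq_zero_or_pos T with h | h
      · rw [h] at haT'; omega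
      · exact h
    have h3 : 3 * (r * n) ≤ 3 * (r * (a * T)) + r * (3 * a) := by
      calc 3 * (r * n) ≤ 3 * (r * (a * T + a)) := by
            exact Nat.mul_le_mul_left _ (Nat.mul_le_mul_left _ haT'.le)
        _ = 3 * (r * (a * T)) + r * (3 * a) := by ring
    have e4 : T * (3 * r * a + 1) = 3 * (r * (a * T)) + T := by ring
    have e5 : 2 * r * n = 2 * (r * n) := by ring
    rw [hRm, e4, e5]
    omega
  · have h6 : a * (2 * (Rm * E)) ≤ a * T := by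
      have e6 : 16 * ((a + 1) * ((Rm + 1) * E)) =
          16 * (a * (Rm * E)) + 16 * (a * E) + 16 * (Rm * E) + 16 * E := by ring
      have e7 : a * (2 * (Rm * E)) = 2 * (a * (Rm * E)) := by ring
      rw [e6] at c2
      rw [e7]
      omega
    exact Nat.le_of_mul_le_mul_left h6 (by omega)
  · -- L q + 2^r q ≤ 1157/4096 n
    have hLq : 4096 * ((L + 2 ^ r) * q) ≤ 1157 * n := by
      have h7 : L + 2 ^ r ≤ 1157 * (r ^ 7 * 2 ^ r) := by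
        have : 2 ^ r ≤ r ^ 7 * 2 ^ r := Nat.le_mul_of_pos_left _ (by positivity)
        calc L + 2 ^ r ≤ 1156 * r ^ 7 * 2 ^ r + r ^ 7 * 2 ^ r := by omega
          _ = 1157 * (r ^ 7 * 2 ^ r) := by ring
      calc 4096 * ((L + 2 ^ r) * q) ≤ 4096 * (1157 * (r ^ 7 * 2 ^ r) * q) := by gcongr
        _ = 1157 * (2 ^ (r + 12) * r ^ 7 * q) := by rw [pow_add]; ring
        _ ≤ 1157 * n := by gcongr
    have h8 : 2 * (2 ^ r * (2 * r * T)) = a * T := by rw [ha]; ring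
    have h10 : L * q + 2 ^ r * (q + 2 * r * T) = (L + 2 ^ r) * q + 2 ^ r * (2 * r * T) := by ring
    rw [h10]
    omega

theorem paramsN (r : ℕ) (hr : 1 ≤ r) : ∃ n0 : ℕ, ∀ n q : ℕ, n0 ≤ n →
    2 ^ (r + 12) * r ^ 7 * q ≤ n →
    ∃ T E α Rm lam ℓ Nn Em : ℕ, ∃ B : ℝ,
      (n + (α + 1) ^ 2 * E < (α + 1) * T) ∧
      (2 * r * n < T * (Rm + 1)) ∧ (2 * (Rm * E) ≤ T) ∧
      (lam * r * α * q + 2 ^ r * (q + 2 * r * T) + r * ((lam * r * α + Rm) ^ 2 * E) < n) ∧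
      (2 * Nn + r ≤ lam) ∧ (α ≤ 2 ^ ℓ) ∧
      (∀ d : ℕ, lam ≤ d → ((d : ℝ) + 1) * (1 - 1 / ((r : ℝ) * (ℓ + 1))) ^ (d + 1 - r) ≤ B) ∧
      0 ≤ B ∧ (lam * r * α + r + Em ≤ E) ∧
      (r * (α * B + ℓ * (α * (1 - 1 / ((r : ℝ) * (ℓ + 1)) ^ 2) ^ Nn)) +
        r * (n : ℝ) ^ 2 * (1 - 1 / ((r : ℝ) * (ℓ + 1))) ^ Em < 1) := by
  obtain ⟨α, hα⟩ : ∃ α : ℕ, α = 4 * r * 2 ^ r := ⟨_, rfl⟩
  obtain ⟨ℓ, hℓ⟩ : ∃ ℓ : ℕ, ℓ = 2 * r + 1 := ⟨_, rfl⟩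
  obtain ⟨m, hm⟩ : ∃ m : ℕ, m = r * (ℓ + 1) := ⟨_, rfl⟩
  obtain ⟨Nn, hNn⟩ : ∃ Nn : ℕ, Nn = 9 * r * m ^ 2 := ⟨_, rfl⟩
  obtain ⟨lam, hlam⟩ : ∃ lam : ℕ, lam = 2 * Nn + r := ⟨_, rfl⟩
  obtain ⟨B, hB⟩ : ∃ B : ℝ, B = 1 / (32 * r ^ 2 * 2 ^ r) := ⟨_, rfl⟩
  obtain ⟨hA1, hA2, hA3⟩ := paramsA r hr α ℓ m Nn lam hα hℓ hm hNn hlam B hB
  obtain ⟨Rm, hRm⟩ : ∃ Rm : ℕ, Rm = 3 * r * α := ⟨_, rfl⟩
  obtain ⟨L, hL⟩ : ∃ L : ℕ, L = lam * r * α := ⟨_, rfl⟩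
  obtain ⟨C, hC⟩ : ∃ C : ℕ, C = 16 * (α + 1) ^ 3 * (Rm + 1) * r * (L + Rm + 1) ^ 2 := ⟨_, rfl⟩
  have hCpos : 0 < C := by rw [hC]; positivity
  -- bound for L
  have hLb : L ≤ 1156 * r ^ 7 * 2 ^ r := by
    have hr2 : (r + 1) ^ 2 ≤ 4 * r ^ 2 := by nlinarith
    have e1 : L = (288 * (r ^ 5 * (r + 1) ^ 2) + 4 * r ^ 3) * 2 ^ r := by
      rw [hL, hlam, hNn, hm, hℓ, hα]; ring
    have h2 : r ^ 5 * (r + 1) ^ 2 ≤ r ^ 5 * (4 * r ^ 2) := Nat.mul_le_mul_left _ hr2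
    have h3 : r ^ 3 ≤ r ^ 7 := Nat.pow_le_pow_right hr (by norm_num)
    have h4 : 288 * (r ^ 5 * (r + 1) ^ 2) + 4 * r ^ 3 ≤ 1156 * r ^ 7 := by
      calc 288 * (r ^ 5 * (r + 1) ^ 2) + 4 * r ^ 3 ≤ 288 * (r ^ 5 * (4 * r ^ 2)) + 4 * r ^ 7 := by
            gcongr
        _ = 1156 * r ^ 7 := by ring
    rw [e1]
    exact Nat.mul_le_mul_right _ h4
  -- the analytic part
  have hmpos : (4 : ℝ) ≤ (r : ℝ) * (ℓ + 1) := by
    have : 4 ≤ r * (ℓ + 1) := by rw [hℓ]; nlinarith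
    exact_mod_cast this
  have hρ0 : (0 : ℝ) < 1 - 1 / ((r : ℝ) * (ℓ + 1)) := by
    have : 1 / ((r : ℝ) * (ℓ + 1)) ≤ 1 / 4 := one_div_le_one_div_of_le (by norm_num) hmpos
    linarith
  have hρ1 : 1 - 1 / ((r : ℝ) * (ℓ + 1)) < 1 := by
    have : 0 < 1 / ((r : ℝ) * (ℓ + 1)) := by positivity
    linarith
  obtain ⟨N1, hN1⟩ := paramsN_lim (L + r + 1) C _ hρ0 hρ1 r
  refine ⟨16 * (α + 1) ^ 2 + C * (N1 + L + r), fun n q hn hq => ?_⟩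
  obtain ⟨T, hT⟩ : ∃ T : ℕ, T = n / α := ⟨_, rfl⟩
  obtain ⟨E, hE⟩ : ∃ E : ℕ, E = n / C := ⟨_, rfl⟩
  obtain ⟨h1, h2, h3, h4⟩ := paramsN_nat r α Rm L n q T E C hr hα hRm hC hT hE hLb
    (by omega) hq
  have hEbig : N1 + L + r ≤ E := by
    rw [hE]
    exact (Nat.le_div_iff_mul_le hCpos).2 (by rw [mul_comm]; omega)
  have hEn : n < C * (E + 1) := by
    rw [hE]; exact Nat.lt_mul_div_succ n hCpos
  refine ⟨T, E, α, Rm, lam, ℓ, Nn, E - (L + r), B, h1, h2, h3, ?_, by omega, hA1, hA2, ?_, ?_, ?_⟩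
  · rw [← hL]; exact h4
  · rw [hB]; positivity
  · rw [← hL]; omega
  · have h5 := hN1 (E - (L + r)) (by omega)
    have h6 : (n : ℝ) ≤ (C : ℝ) * (((E - (L + r) : ℕ) : ℝ) + ((L + r + 1 : ℕ) : ℝ)) := by
      have : n ≤ C * ((E - (L + r)) + (L + r + 1)) := by
        have e : (E - (L + r)) + (L + r + 1) = E + 1 := by omega
        rw [e]; exact hEn.le
      exact_mod_cast this
    have h7 : (n : ℝ) ^ 2 ≤ ((C : ℝ) * (((E - (L + r) : ℕ) : ℝ) + ((L + r + 1 : ℕ) : ℝ))) ^ 2 :=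
      pow_le_pow_left₀ (by positivity) h6 2
    have h8 : (r : ℝ) * (n : ℝ) ^ 2 * (1 - 1 / ((r : ℝ) * (ℓ + 1))) ^ (E - (L + r)) ≤
        (r : ℝ) * ((C : ℝ) * (((E - (L + r) : ℕ) : ℝ) + ((L + r + 1 : ℕ) : ℝ))) ^ 2 *
          (1 - 1 / ((r : ℝ) * (ℓ + 1))) ^ (E - (L + r)) := by
      have hp : (0 : ℝ) ≤ (1 - 1 / ((r : ℝ) * (ℓ + 1))) ^ (E - (L + r)) := by positivity
      have hr0 : (0 : ℝ) ≤ (r : ℝ) := by positivity
      exact mul_le_mul_of_nonneg_right (mul_le_mul_of_nonneg_left h7 hr0) hp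
    linarith

end Pool.Agent.MP5f1228B
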