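import Mathlib
import Pool.Agent.Lib.MP_5f1228_co.Defs

/-!
# MP_5f1228_co, module BLK: numbering of the components
-/

set_option autoImplicit false

namespace Pool.Agent.MP5f1228

open Finset

theorem blk_walk {V : Type} {Γ : SimpleGraph V} {Y S : Finset V}
    (hS : ∀ v ∈ S, ∀ w ∈ Y, Γ.Adj v w → w ∈ S) {a b : (Y : Set V)}
    (p : (Γ.induce (Y : Set V)).Walk a b) :
    ∀ (ha : (a : V) ∈ (S : Set V)) (hb : (b : V) ∈ (S : Set V)),
      (Γ.induce (S : Set V)).Reachable ⟨a, ha⟩ ⟨b, hb⟩ := by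
  induction p with
  | nil => intro ha hb; exact SimpleGraph.Reachable.refl _
  | @cons a c b h p ih =>
    intro ha hb
    have hc : (c : V) ∈ (S : Set V) := mem_coe.2 (hS _ (mem_coe.1 ha) _ (mem_coe.1 c.2) h)
    have h1 : (Γ.induce (S : Set V)).Adj ⟨a, ha⟩ ⟨c, hc⟩ := h
    exact h1.reachable.trans (ih hc hb)

theorem blk_conn {V : Type} {Γ : SimpleGraph V} {Y S : Finset V} (hSY : S ⊆ Y)
    (hS : ∀ v ∈ S, ∀ w ∈ Y, Γ.Adj v w → w ∈ S)
    (hr : ∀ v (hv : v ∈ S), ∀ w (hw : w ∈ S),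
      (Γ.induce (Y : Set V)).Reachable ⟨v, mem_coe.2 (hSY hv)⟩ ⟨w, mem_coe.2 (hSY hw)⟩) :
    Conn Γ S := by
  rintro ⟨v, hv⟩ ⟨w, hw⟩
  obtain ⟨p⟩ := hr v (mem_coe.1 hv) w (mem_coe.1 hw)
  exact blk_walk hS p hv hw

section BLK
variable {V : Type} [Fintype V] [DecidableEq V]

theorem exists_order (Γ : SimpleGraph V) (Y : Finset V) :
    ∃ o : V → ℕ, (∀ j, Conn Γ (Y.filter (fun v => o v = j))) ∧
      ∀ v ∈ Y, ∀ w ∈ Y, Γ.Adj v w → o v = o w := by
  classical
  obtain ⟨H, hH⟩ : ∃ H : SimpleGraph (Y : Set V), H = Γ.induce (Y : Set V) := ⟨_, rfl⟩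
  have hfin : Finite H.ConnectedComponent := inferInstance
  obtain ⟨k, ⟨e⟩⟩ := finite_iff_exists_equiv_fin.1 hfin
  obtain ⟨o, ho⟩ : ∃ o : V → ℕ, o = fun v => if h : v ∈ Y then
    (e (H.connectedComponentMk ⟨v, mem_coe.2 h⟩) : ℕ) else 0 := ⟨_, rfl⟩
  have ho' : ∀ v (h : v ∈ Y), o v = (e (H.connectedComponentMk ⟨v, mem_coe.2 h⟩) : ℕ) := by
    intro v h
    rw [ho]
    simp only [h, dif_pos]
  have hadj : ∀ v ∈ Y, ∀ w ∈ Y, Γ.Adj v w → o v = o w := by
    intro v hv w hw hvw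
    rw [ho' v hv, ho' w hw]
    have h1 : H.Adj ⟨v, mem_coe.2 hv⟩ ⟨w, mem_coe.2 hw⟩ := by rw [hH]; exact hvw
    rw [SimpleGraph.ConnectedComponent.sound h1.reachable]
  refine ⟨o, ?_, hadj⟩
  intro j
  refine blk_conn (filter_subset _ _) ?_ ?_
  · intro v hv w hw hvw
    rw [mem_filter] at hv ⊢
    exact ⟨hw, by rw [← hadj v hv.1 w hw hvw, hv.2]⟩
  · intro v hv w hw
    rw [mem_filter] at hv hw
    have h1 := hv.2.trans hw.2.symm
    rw [ho' v hv.1, ho' w hw.1] at h1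
    have h2 := SimpleGraph.ConnectedComponent.exact (e.injective (Fin.ext h1))
    rw [hH] at h2
    exact h2

theorem exists_block (Γ : SimpleGraph V) (A : Finset V) (M : ℕ)
    (hA : ∀ v w, Γ.Adj v w → v ∈ A)
    (hM : ∀ S : Finset V, S ⊆ A → (∀ v ∈ S, ∀ w ∈ S, ¬ Γ.Adj v w) → S.card ≤ M)
    (Y : Finset V) :
    ∃ o : V → Fin (M + 1), (∀ j, j ≠ Fin.last M → Conn Γ (Y.filter (fun v => o v = j))) ∧
      (∀ v ∈ Y, ∀ w ∈ Y, Γ.Adj v w → o v = o w) ∧ ∀ v ∈ Y, v ∈ A → o v ≠ Fin.last M := by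
  classical
  have _ := hA
  obtain ⟨H, hH⟩ : ∃ H : SimpleGraph (Y : Set V), H = Γ.induce (Y : Set V) := ⟨_, rfl⟩
  -- the components containing an active vertex
  let D : Type := {C : H.ConnectedComponent // ∃ v : (Y : Set V), (v : V) ∈ A ∧
    H.connectedComponentMk v = C}
  have hfin : Fintype D := Fintype.ofFinite D
  choose rep hrepA hrepC using fun C : D => C.2
  have hinj : Function.Injective (fun C : D => ((rep C : (Y : Set V)) : V)) := by
    intro C C' h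
    have h1 : rep C = rep C' := Subtype.ext h
    apply Subtype.ext
    rw [← hrepC C, ← hrepC C', h1]
  have hcard : Fintype.card D ≤ M := by
    have h1 := hM (univ.image (fun C : D => ((rep C : (Y : Set V)) : V))) ?_ ?_
    · rwa [card_image_of_injective _ hinj, card_univ] at h1
    · intro v hv
      obtain ⟨C, _, rfl⟩ := mem_image.1 hv
      exact hrepA C
    · intro v hv w hw hvw
      obtain ⟨C, _, rfl⟩ := mem_image.1 hv
      obtain ⟨C', _, rfl⟩ := mem_image.1 hw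
      have h2 : H.Adj (rep C) (rep C') := by rw [hH]; exact hvw
      have h3 := SimpleGraph.ConnectedComponent.sound h2.reachable
      rw [hrepC, hrepC] at h3
      have h4 : C = C' := Subtype.ext h3
      subst h4
      exact Γ.loopless.irrefl _ hvw
  obtain ⟨e⟩ : Nonempty (D ↪ Fin M) := by
    apply Function.Embedding.nonempty_of_card_le
    rwa [Fintype.card_fin]
  obtain ⟨q, hq⟩ : ∃ q : H.ConnectedComponent → Fin (M + 1), q = fun C =>
    if h : ∃ v : (Y : Set V), (v : V) ∈ A ∧ H.connectedComponentMk v = C then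
      (e ⟨C, h⟩).castSucc else Fin.last M := ⟨_, rfl⟩
  have hq1 : ∀ C (h : ∃ v : (Y : Set V), (v : V) ∈ A ∧ H.connectedComponentMk v = C),
      q C = (e ⟨C, h⟩).castSucc := by
    intro C h
    rw [hq]
    simp only [h, dif_pos]
  have hq2 : ∀ C, q C ≠ Fin.last M →
      ∃ v : (Y : Set V), (v : V) ∈ A ∧ H.connectedComponentMk v = C := by
    intro C hC
    by_contra h
    apply hC
    rw [hq]
    simp only [h, dif_neg, not_false_eq_true]
  obtain ⟨o, ho⟩ : ∃ o : V → Fin (M + 1), o = fun v => if h : v ∈ Y then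
    q (H.connectedComponentMk ⟨v, mem_coe.2 h⟩) else Fin.last M := ⟨_, rfl⟩
  have ho' : ∀ v (h : v ∈ Y), o v = q (H.connectedComponentMk ⟨v, mem_coe.2 h⟩) := by
    intro v h
    rw [ho]
    simp only [h, dif_pos]
  have hadj : ∀ v ∈ Y, ∀ w ∈ Y, Γ.Adj v w → o v = o w := by
    intro v hv w hw hvw
    rw [ho' v hv, ho' w hw]
    have h1 : H.Adj ⟨v, mem_coe.2 hv⟩ ⟨w, mem_coe.2 hw⟩ := by rw [hH]; exact hvw
    rw [SimpleGraph.ConnectedComponent.sound h1.reachable]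
  refine ⟨o, ?_, hadj, ?_⟩
  · intro j hj
    refine blk_conn (filter_subset _ _) ?_ ?_
    · intro v hv w hw hvw
      rw [mem_filter] at hv ⊢
      exact ⟨hw, by rw [← hadj v hv.1 w hw hvw, hv.2]⟩
    · intro v hv w hw
      rw [mem_filter] at hv hw
      have h1 : q (H.connectedComponentMk ⟨v, mem_coe.2 hv.1⟩) = j := by rw [← ho' v hv.1, hv.2]
      have h2 : q (H.connectedComponentMk ⟨w, mem_coe.2 hw.1⟩) = j := by rw [← ho' w hw.1, hw.2]
      have h3 := hq2 _ (by rw [h1]; exact hj)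
      have h4 := hq2 _ (by rw [h2]; exact hj)
      rw [hq1 _ h3] at h1
      rw [hq1 _ h4] at h2
      have h5 := e.injective (Fin.castSucc_injective _ (h1.trans h2.symm))
      have h6 := SimpleGraph.ConnectedComponent.exact (congrArg Subtype.val h5)
      rw [hH] at h6
      exact h6
  · intro v hv hvA
    rw [ho' v hv, hq1 _ ⟨⟨v, mem_coe.2 hv⟩, hvA, rfl⟩]
    exact Fin.castSucc_ne_last _

end BLK

end Pool.Agent.MP5f1228
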