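import Mathlib
import Pool.Agent.Lib.MP_5f1228_co.Asy.Final

/-!
# MP_5f1228_co: the exact threshold for covers by monochromatic trees, by a clique blow-up

The asymptotically exact theorem (`tp_asymptotic`) is applied to the blow-up of `G` in which every
vertex is replaced by a clique of size `t`. The blow-up of a graph with `n` vertices and minimum
degree `d` has `t n` vertices and minimum degree `t (d + 1) - 1`, hence the ratio tends to
`(d + 1) / n`, which is strictly larger than `1 - 2 ^ (-r)` as soon as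
`(1 - 2 ^ (-r)) n < d + 1`. The trees of the blow-up project to connected sets of `G`.
-/

set_option autoImplicit false

open Finset

namespace Pool.Agent.MP5f1228.Asy

/-- the clique blow-up of `G` -/
def blow {V : Type} (G : SimpleGraph V) (t : ℕ) : SimpleGraph (V × Fin t) where
  Adj p q := G.Adj p.1 q.1 ∨ (p.1 = q.1 ∧ p.2 ≠ q.2)
  symm := ⟨by
    rintro p q (h | ⟨h, h'⟩)
    · exact Or.inl h.symm
    · exact Or.inr ⟨h.symm, h'.symm⟩⟩
  loopless := ⟨by
    rintro p (h | ⟨_, h⟩)
    · exact G.loopless.irrefl _ h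
    · exact h rfl⟩

theorem blow_degree {V : Type} [Fintype V] [DecidableEq V] (G : SimpleGraph V)
    [DecidableRel G.Adj] (t : ℕ) [DecidableRel (blow G t).Adj] (p : V × Fin t) :
    t * G.degree p.1 + (t - 1) ≤ (blow G t).degree p := by
  classical
  have hdis : Disjoint ((G.neighborFinset p.1) ×ˢ (univ : Finset (Fin t)))
      (({p.1} : Finset V) ×ˢ ((univ : Finset (Fin t)).erase p.2)) := by
    rw [Finset.disjoint_left]
    rintro ⟨u, a⟩ h1 h2
    simp only [mem_product, SimpleGraph.mem_neighborFinset, mem_univ, and_true,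
      mem_singleton, mem_erase] at h1 h2
    rw [h2.1] at h1
    exact G.loopless.irrefl _ h1
  have hsub : ((G.neighborFinset p.1) ×ˢ (univ : Finset (Fin t))) ∪
      (({p.1} : Finset V) ×ˢ ((univ : Finset (Fin t)).erase p.2)) ⊆
        (blow G t).neighborFinset p := by
    rintro ⟨u, a⟩ h
    rw [SimpleGraph.mem_neighborFinset]
    simp only [mem_union, mem_product, SimpleGraph.mem_neighborFinset, mem_univ, and_true,
      mem_singleton, mem_erase] at h
    rcases h with h | ⟨h, h'⟩
    · exact Or.inl h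
    · exact Or.inr ⟨h.symm, h'.symm⟩
  have h := card_le_card hsub
  rw [card_union_of_disjoint hdis, card_product, card_product, card_singleton, one_mul,
    card_erase_of_mem (mem_univ _), card_univ, Fintype.card_fin,
    SimpleGraph.card_neighborFinset_eq_degree, SimpleGraph.card_neighborFinset_eq_degree] at h
  rw [mul_comm]
  exact h

/-- The conclusion of the tree partition theorem gives a cover by monochromatic components. -/
theorem cover_of_trees {V : Type} [Nonempty V] (G : SimpleGraph V)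
    {r : ℕ} (c : Sym2 V → Fin r) (H : Fin r → G.Subgraph)
    (h1 : ∀ i, H i = ⊥ ∨ (H i).coe.IsTree)
    (h2 : ∀ i v w, (H i).Adj v w → c s(v, w) = i) (h3 : ∀ v, ∃! i, v ∈ (H i).verts) :
    ∃ f : Fin r → V, ∀ x : V, ∃ i : Fin r,
      (SimpleGraph.fromEdgeSet {e : Sym2 V | e ∈ G.edgeSet ∧ c e = i}).Reachable (f i) x := by
  classical
  have hf : ∀ i, ∃ u : V, ∀ x, x ∈ (H i).verts →
      (SimpleGraph.fromEdgeSet {e : Sym2 V | e ∈ G.edgeSet ∧ c e = i}).Reachable u x := by
    intro i
    rcases h1 i with h | h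
    · refine ⟨Classical.arbitrary V, fun x hx => ?_⟩
      rw [h] at hx
      simp at hx
    · obtain ⟨u⟩ := h.connected.nonempty
      refine ⟨u.1, fun x hx => ?_⟩
      let φ : (H i).coe →g
          (SimpleGraph.fromEdgeSet {e : Sym2 V | e ∈ G.edgeSet ∧ c e = i}) :=
        { toFun := fun v => v.1
          map_rel' := by
            intro a b hab
            have hab' : (H i).Adj a.1 b.1 := hab
            rw [SimpleGraph.fromEdgeSet_adj]
            exact ⟨⟨(H i).adj_sub hab', h2 i _ _ hab'⟩, ((H i).adj_sub hab').ne⟩ }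
      have h4 : (H i).coe.Reachable u ⟨x, hx⟩ := h.connected.preconnected _ _
      exact h4.map φ
  choose f hf using hf
  refine ⟨f, fun x => ?_⟩
  obtain ⟨i, hi, -⟩ := h3 x
  exact ⟨i, hf i x hi⟩

/-- Projection of a cover of the blow-up. -/
theorem cover_proj {V : Type} (G : SimpleGraph V) {r t : ℕ} (ht : 0 < t) (c : Sym2 V → Fin r)
    (h : ∃ f : Fin r → V × Fin t, ∀ x : V × Fin t, ∃ i : Fin r,
      (SimpleGraph.fromEdgeSet {e : Sym2 (V × Fin t) |
        e ∈ (blow G t).edgeSet ∧ c (e.map Prod.fst) = i}).Reachable (f i) x) :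
    ∃ f : Fin r → V, ∀ x : V, ∃ i : Fin r,
      (SimpleGraph.fromEdgeSet {e : Sym2 V | e ∈ G.edgeSet ∧ c e = i}).Reachable (f i) x := by
  obtain ⟨f, hf⟩ := h
  refine ⟨fun i => (f i).1, fun x => ?_⟩
  obtain ⟨i, hi⟩ := hf (x, ⟨0, ht⟩)
  refine ⟨i, ?_⟩
  have key : ∀ p q : V × Fin t, (SimpleGraph.fromEdgeSet {e : Sym2 (V × Fin t) |
        e ∈ (blow G t).edgeSet ∧ c (e.map Prod.fst) = i}).Reachable p q →
      (SimpleGraph.fromEdgeSet {e : Sym2 V | e ∈ G.edgeSet ∧ c e = i}).Reachable p.1 q.1 := by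
    rintro p q ⟨w⟩
    induction w with
    | nil => exact SimpleGraph.Reachable.refl _
    | @cons a b d hab w ih =>
      refine SimpleGraph.Reachable.trans ?_ ih
      rw [SimpleGraph.fromEdgeSet_adj] at hab
      obtain ⟨⟨h1, h2⟩, -⟩ := hab
      rcases h1 with h1 | ⟨h1, -⟩
      · apply SimpleGraph.Adj.reachable
        rw [SimpleGraph.fromEdgeSet_adj]
        exact ⟨⟨h1, h2⟩, h1.ne⟩
      · rw [h1]
  exact key _ _ hi

/-- **The exact threshold for covers by monochromatic trees of distinct colours**: if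
`(1 - 2^(-r)) n < δ(G) + 1` then every `r`-coloured graph `G` on `n` vertices is covered by
at most `r` monochromatic components of distinct colours. -/
theorem tc_exact (r : ℕ) (hr : 1 ≤ r) (V : Type) [Fintype V] [DecidableEq V] [Nonempty V]
    (G : SimpleGraph V) [DecidableRel G.Adj]
    (hG : ((1 : ℝ) - (1 / 2 : ℝ) ^ r) * (Fintype.card V : ℝ) < (G.minDegree : ℝ) + 1)
    (c : Sym2 V → Fin r) :
    ∃ f : Fin r → V, ∀ x : V, ∃ i : Fin r,
      (SimpleGraph.fromEdgeSet {e : Sym2 V | e ∈ G.edgeSet ∧ c e = i}).Reachable (f i) x := by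
  classical
  have hn : (0 : ℝ) < (Fintype.card V : ℝ) := by exact_mod_cast Fintype.card_pos
  obtain ⟨η, hη⟩ : ∃ η : ℝ, η = (G.minDegree : ℝ) + 1 -
      ((1 : ℝ) - (1 / 2 : ℝ) ^ r) * (Fintype.card V : ℝ) := ⟨_, rfl⟩
  have hη0 : 0 < η := by rw [hη]; linarith
  have hε : (1 / 2 : ℝ) ^ r - η / (2 * (Fintype.card V : ℝ)) < 1 / 2 ^ r := by
    have : 0 < η / (2 * (Fintype.card V : ℝ)) := by positivity
    rw [one_div, inv_pow, ← one_div]
    linarith
  obtain ⟨n₀, hn₀⟩ := tp_asymptotic r hr _ hε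
  obtain ⟨t₁, ht₁⟩ := exists_nat_ge (2 / η)
  obtain ⟨t, ht, ht'⟩ : ∃ t : ℕ, 0 < t ∧ n₀ ≤ t ∧ t₁ ≤ t :=
    ⟨max 1 (max n₀ t₁), by omega, by omega, by omega⟩
  apply cover_proj G ht c
  have hcard : (Fintype.card (V × Fin t)) = Fintype.card V * t := by
    rw [Fintype.card_prod, Fintype.card_fin]
  have : Nonempty (Fin t) := ⟨⟨0, ht⟩⟩
  obtain ⟨H, h1, h2, h3⟩ := hn₀ (V × Fin t) (blow G t) (fun e => c (e.map Prod.fst))
    (by
      rw [hcard]
      calc n₀ ≤ t := ht'.1
        _ = 1 * t := (one_mul t).symm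
        _ ≤ Fintype.card V * t := Nat.mul_le_mul_right _ Fintype.card_pos)
    (by
      intro p
      rw [hcard]
      have h1 : (t : ℝ) * ((G.minDegree : ℝ) + 1) - 1 ≤ ((blow G t).degree p : ℝ) := by
        have h2 := blow_degree G t p
        have h3 : G.minDegree ≤ G.degree p.1 := G.minDegree_le_degree _
        have h4 : t * G.minDegree + (t - 1) ≤ (blow G t).degree p :=
          le_trans (Nat.add_le_add_right (Nat.mul_le_mul_left _ h3) _) h2
        have h5 : t * G.minDegree + t ≤ (blow G t).degree p + 1 := by omega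
        have h6 : (t : ℝ) * G.minDegree + t ≤ (blow G t).degree p + 1 := by exact_mod_cast h5
        linarith
      have h2 : (t : ℝ) * ((G.minDegree : ℝ) + 1) = t * η +
          ((1 : ℝ) - (1 / 2 : ℝ) ^ r) * ((Fintype.card V : ℝ) * t) := by
        rw [hη]; ring
      have h3 : (1 : ℝ) ≤ t * η / 2 := by
        have h4 : 2 / η ≤ (t : ℝ) := ht₁.trans (by exact_mod_cast ht'.2)
        rw [div_le_iff₀ hη0] at h4
        linarith
      have h4 : (1 - ((1 / 2 : ℝ) ^ r - η / (2 * (Fintype.card V : ℝ)))) *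
          (((Fintype.card V * t : ℕ) : ℝ)) =
          ((1 : ℝ) - (1 / 2 : ℝ) ^ r) * ((Fintype.card V : ℝ) * t) + t * η / 2 := by
        push_cast
        field_simp
        ring
      rw [h4]
      linarith)
  exact cover_of_trees (blow G t) _ H h1 h2 h3

/-- The statement with `(1 - 2^(-r)) n ≤ δ(G)`. -/
theorem tc_exact' (r : ℕ) (hr : 1 ≤ r) (V : Type) [Fintype V] [DecidableEq V] [Nonempty V]
    (G : SimpleGraph V) [DecidableRel G.Adj]
    (hG : ((1 : ℝ) - (1 / 2 : ℝ) ^ r) * (Fintype.card V : ℝ) ≤ (G.minDegree : ℝ))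
    (c : Sym2 V → Fin r) :
    ∃ f : Fin r → V, ∀ x : V, ∃ i : Fin r,
      (SimpleGraph.fromEdgeSet {e : Sym2 V | e ∈ G.edgeSet ∧ c e = i}).Reachable (f i) x :=
  tc_exact r hr V G (by linarith) c

end Pool.Agent.MP5f1228.Asy
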