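import Mathlib
import Pool.Agent.Lib.MP_5f1228_co.Defs

/-!
# MP_5f1228_co, module GOOD: connected sets and good sets
-/

set_option autoImplicit false

namespace Pool.Agent.MP5f1228

open Finset

section GOOD
variable {ι V : Type} [DecidableEq V] {Γ : ι → SimpleGraph V} {Q : ι → Finset V}
  {σ : Finset ι}

theorem Conn.empty (Γ : SimpleGraph V) : Conn Γ ∅ := by
  intro v
  exact absurd v.2 (by simp)

/-- reachability in a larger induced subgraph -/
theorem good_reach_mono {Γ : SimpleGraph V} {S S' : Finset V} (h : S ⊆ S') {a b : V}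
    (ha : a ∈ (S : Set V)) (hb : b ∈ (S : Set V))
    (hr : (Γ.induce (S : Set V)).Reachable ⟨a, ha⟩ ⟨b, hb⟩) :
    (Γ.induce (S' : Set V)).Reachable ⟨a, Finset.coe_subset.2 h ha⟩
      ⟨b, Finset.coe_subset.2 h hb⟩ :=
  hr.map (SimpleGraph.induceHomOfLE Γ (Finset.coe_subset.2 h)).toHom

/-- connectivity from reachability from one vertex -/
theorem good_conn_of_center {Γ : SimpleGraph V} {C : Finset V} {x : V} (hx : x ∈ (C : Set V))
    (h : ∀ v (hv : v ∈ (C : Set V)), (Γ.induce (C : Set V)).Reachable ⟨x, hx⟩ ⟨v, hv⟩) :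
    Conn Γ C :=
  fun a b => (h a.1 a.2).symm.trans (h b.1 b.2)

theorem Conn.star {Γ : SimpleGraph V} {C : Finset V} {x : V} (hx : x ∈ C)
    (h : ∀ v ∈ C, v ≠ x → Γ.Adj x v) : Conn Γ C := by
  have hx' : x ∈ (C : Set V) := hx
  refine good_conn_of_center hx' fun v hv => ?_
  by_cases hvx : v = x
  · subst hvx
    exact SimpleGraph.Reachable.refl _
  · have h1 : (Γ.induce (C : Set V)).Adj ⟨x, hx'⟩ ⟨v, hv⟩ := h v hv hvx
    exact h1.reachable

/-- gluing along an edge or a common vertex -/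
theorem Conn.union {Γ : SimpleGraph V} {C C' : Finset V} (h : Conn Γ C) (h' : Conn Γ C')
    {x y : V} (hx : x ∈ C) (hy : y ∈ C') (hxy : x = y ∨ Γ.Adj x y) : Conn Γ (C ∪ C') := by
  have hxm : x ∈ ((C ∪ C' : Finset V) : Set V) := Finset.mem_union_left _ hx
  have hym : y ∈ ((C ∪ C' : Finset V) : Set V) := Finset.mem_union_right _ hy
  have h1 : (Γ.induce ((C ∪ C' : Finset V) : Set V)).Reachable ⟨x, hxm⟩ ⟨y, hym⟩ := by
    rcases hxy with hxy | hxy
    · subst hxy
      exact SimpleGraph.Reachable.refl _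
    · have h2 : (Γ.induce ((C ∪ C' : Finset V) : Set V)).Adj ⟨x, hxm⟩ ⟨y, hym⟩ := hxy
      exact h2.reachable
  refine good_conn_of_center hxm fun v hv => ?_
  rcases Finset.mem_union.1 hv with hv' | hv'
  · exact good_reach_mono (Finset.subset_union_left) hx hv' (h ⟨x, hx⟩ ⟨v, hv'⟩)
  · exact h1.trans (good_reach_mono (Finset.subset_union_right) hy hv' (h' ⟨y, hy⟩ ⟨v, hv'⟩))

theorem Good.empty : Good Γ Q σ ∅ := by
  refine ⟨fun _ => ∅, fun i _ => ⟨Conn.empty _, Or.inl rfl⟩,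
    fun i _ j _ _ => Finset.disjoint_empty_left _, ?_⟩
  ext v
  simp

theorem good_nil {Y : Finset V} : Good Γ Q ∅ Y ↔ Y = ∅ := by
  constructor
  · rintro ⟨W, _, _, h⟩
    rw [Finset.biUnion_empty] at h
    exact h.symm
  · rintro rfl
    exact Good.empty

theorem Good.union (hQ : ∀ i ∈ σ, Clq (Γ i) (Q i)) {Y Y' : Finset V} (hd : Disjoint Y Y')
    (h : Good Γ Q σ Y) (h' : Good Γ Q σ Y') : Good Γ Q σ (Y ∪ Y') := by
  obtain ⟨W, hW, hWd, hWY⟩ := h
  obtain ⟨W', hW', hWd', hWY'⟩ := h'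
  have hs : ∀ i ∈ σ, W i ⊆ Y := fun i hi => hWY ▸ Finset.subset_biUnion_of_mem W hi
  have hs' : ∀ i ∈ σ, W' i ⊆ Y' := fun i hi => hWY' ▸ Finset.subset_biUnion_of_mem W' hi
  refine ⟨fun i => W i ∪ W' i, fun i hi => ?_, fun i hi j hj hij => ?_, ?_⟩
  · rcases (hW i hi).2 with h1 | ⟨q, hq⟩
    · have h2 : W i ∪ W' i = W' i := by rw [h1, Finset.empty_union]
      show Conn (Γ i) (W i ∪ W' i) ∧ (W i ∪ W' i = ∅ ∨ ((W i ∪ W' i) ∩ Q i).Nonempty)
      rw [h2]
      exact hW' i hi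
    · rcases (hW' i hi).2 with h1 | ⟨q', hq'⟩
      · have h2 : W i ∪ W' i = W i := by rw [h1, Finset.union_empty]
        show Conn (Γ i) (W i ∪ W' i) ∧ (W i ∪ W' i = ∅ ∨ ((W i ∪ W' i) ∩ Q i).Nonempty)
        rw [h2]
        exact hW i hi
      · rw [Finset.mem_inter] at hq hq'
        refine ⟨(hW i hi).1.union (hW' i hi).1 hq.1 hq'.1 (Or.inr (hQ i hi q hq.2 q' hq'.2 ?_)),
          Or.inr ⟨q, Finset.mem_inter.2 ⟨Finset.mem_union_left _ hq.1, hq.2⟩⟩⟩
        rintro rfl
        exact Finset.disjoint_left.1 hd (hs i hi hq.1) (hs' i hi hq'.1)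
  · rw [Finset.disjoint_union_left, Finset.disjoint_union_right, Finset.disjoint_union_right]
    exact ⟨⟨hWd i hi j hj hij, hd.mono (hs i hi) (hs' j hj)⟩,
      hd.symm.mono (hs' i hi) (hs j hj), hWd' i hi j hj hij⟩
  · rw [← hWY, ← hWY']
    ext v
    simp only [Finset.mem_biUnion, Finset.mem_union]
    constructor
    · rintro ⟨i, hi, hv | hv⟩
      · exact Or.inl ⟨i, hi, hv⟩
      · exact Or.inr ⟨i, hi, hv⟩
    · rintro (⟨i, hi, hv⟩ | ⟨i, hi, hv⟩)
      · exact ⟨i, hi, Or.inl hv⟩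
      · exact ⟨i, hi, Or.inr hv⟩

theorem Good.insert [DecidableEq ι] {i : ι} (hi : i ∈ σ) {C Y : Finset V} (hC : C ⊆ Y)
    (hc : Conn (Γ i) C) (hm : C = ∅ ∨ (C ∩ Q i).Nonempty)
    (h : Good Γ Q (σ.erase i) (Y \ C)) : Good Γ Q σ Y := by
  obtain ⟨W, hW, hWd, hWY⟩ := h
  have hs : ∀ j ∈ σ.erase i, W j ⊆ Y \ C := fun j hj => hWY ▸ Finset.subset_biUnion_of_mem W hj
  have hup : ∀ j, j ≠ i → Function.update W i C j = W j := fun j hj =>
    Function.update_of_ne hj _ _
  refine ⟨Function.update W i C, fun j hj => ?_, fun j hj k hk hjk => ?_, ?_⟩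
  · by_cases hji : j = i
    · subst hji
      rw [Function.update_self]
      exact ⟨hc, hm⟩
    · rw [hup j hji]
      exact hW j (Finset.mem_erase.2 ⟨hji, hj⟩)
  · by_cases hji : j = i
    · subst hji
      have hkj : k ≠ j := fun h => hjk h.symm
      rw [Function.update_self, hup k hkj]
      exact (Finset.disjoint_sdiff (s := C) (t := Y)).mono_right
        (hs k (Finset.mem_erase.2 ⟨hkj, hk⟩))
    · by_cases hki : k = i
      · subst hki
        rw [Function.update_self, hup j hji]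
        exact ((Finset.disjoint_sdiff (s := C) (t := Y)).mono_right
          (hs j (Finset.mem_erase.2 ⟨hji, hj⟩))).symm
      · rw [hup j hji, hup k hki]
        exact hWd j (Finset.mem_erase.2 ⟨hji, hj⟩) k (Finset.mem_erase.2 ⟨hki, hk⟩) hjk
  · have h1 : σ.biUnion (Function.update W i C) = C ∪ (σ.erase i).biUnion W := by
      ext v
      simp only [Finset.mem_biUnion, Finset.mem_union]
      constructor
      · rintro ⟨j, hj, hv⟩
        by_cases hji : j = i
        · subst hji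
          rw [Function.update_self] at hv
          exact Or.inl hv
        · rw [hup j hji] at hv
          exact Or.inr ⟨j, Finset.mem_erase.2 ⟨hji, hj⟩, hv⟩
      · rintro (hv | ⟨j, hj, hv⟩)
        · exact ⟨i, hi, by rw [Function.update_self]; exact hv⟩
        · have hj' := Finset.mem_erase.1 hj
          exact ⟨j, hj'.2, by rw [hup j hj'.1]; exact hv⟩
    rw [h1, hWY, Finset.union_sdiff_of_subset hC]

end GOOD

end Pool.Agent.MP5f1228
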