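import Mathlib
import Pool.Agent.Lib.MP_5f1228_co.Defs
import Pool.Agent.Lib.MP_5f1228_co.Good

/-!
# MP_5f1228_co, module CH: greedy chain certificates
-/

set_option autoImplicit false

namespace Pool.Agent.MP5f1228

open Finset

theorem ch_unc {ι V : Type} [DecidableEq V] [DecidableEq ι] {σ : Finset ι} {Q : ι → Finset V}
    {i : ι} {S Y : Finset V} (hSY : S ⊆ Y) (hS : ∀ v ∈ S, v ∉ Q i) :
    unc Q (σ.erase i) S ⊆ unc Q σ Y := by
  intro v hv
  unfold unc at hv ⊢
  rw [mem_filter] at hv ⊢
  refine ⟨hSY hv.1, fun j hj => ?_⟩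
  rcases eq_or_ne j i with rfl | hji
  · exact hS v hv.1
  · exact hv.2 j (mem_erase.2 ⟨hji, hj⟩)

theorem ch_adm {ι V : Type} [DecidableEq ι] {σ : Finset ι} {Q : ι → Finset V}
    {Γ : ι → SimpleGraph V} {Act : ι → Finset V} {i : ι} (hQ : Adm Γ Act σ Q) :
    Adm Γ Act (σ.erase i) Q :=
  fun j hj => hQ j (mem_of_mem_erase hj)

/-- the initial segments of a nonempty set contain the minimal element -/
theorem ch_min {V : Type} [DecidableEq V] {Y : Finset V} {o : V → ℕ} {x : V} (hx : x ∈ Y)
    (hmin : ∀ v ∈ Y, o x ≤ o v) {t : ℕ} (hne : Y.filter (fun v => o v < t) ≠ ∅) :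
    x ∈ Y.filter (fun v => o v < t) := by
  obtain ⟨v, hv⟩ := nonempty_iff_ne_empty.2 hne
  rw [mem_filter] at hv ⊢
  exact ⟨hx, (hmin v hv.1).trans_lt hv.2⟩

section CERT
variable {ι V : Type} [Fintype V] [DecidableEq V] [DecidableEq ι] {Γ : ι → SimpleGraph V}
  {Act : ι → Finset V} {σ : Finset ι}

theorem ccert_zero : CCert Γ Act (∅ : Finset ι) 1 1 := by
  classical
  intro Y o
  rcases Y.eq_empty_or_nonempty with rfl | hY
  · refine ⟨fun _ => 0, fun _ => le_rfl, by simp, by simp, ?_⟩
    intro t Q _ hg
    exact absurd (by rw [filter_empty]; exact Good.empty) hg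
  · obtain ⟨x, hx, hmin⟩ := exists_min_image Y o hY
    refine ⟨fun v => if v = x then 1 else 0, fun v => ?_, ?_, ?_, ?_⟩
    · show (0 : ℝ) ≤ if v = x then 1 else 0
      split_ifs <;> norm_num
    · rw [sum_ite_eq' univ x, if_pos (mem_univ x)]
    · refine (card_le_card (t := {x}) ?_).trans (card_singleton x).le
      intro v hv
      rw [mem_filter] at hv
      rw [mem_singleton]
      by_contra hc
      exact hv.2 (if_neg hc)
    · intro t Q _ hg
      have hne : Y.filter (fun v => o v < t) ≠ ∅ := by
        intro h0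
        apply hg
        rw [h0]
        exact Good.empty
      have hxt := ch_min hx hmin hne
      have hxu : x ∈ unc Q ∅ (Y.filter (fun v => o v < t)) := by
        unfold unc
        rw [mem_filter]
        exact ⟨hxt, fun i hi => absurd hi (notMem_empty i)⟩
      rw [sum_ite_eq' _ x, if_pos hxu]

theorem ccert_step {c : ℝ} {N : ℕ} (h : ∀ i ∈ σ, CCert Γ Act (σ.erase i) c N) :
    CCert Γ Act σ (σ.card * c + 1) (σ.card * N + 1) := by
  classical
  intro Y o
  rcases Y.eq_empty_or_nonempty with rfl | hY
  · refine ⟨fun _ => 0, fun _ => le_rfl, ?_, by simp, ?_⟩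
    · have h1 : 0 ≤ (σ.card : ℝ) * c := by
        rcases σ.eq_empty_or_nonempty with rfl | ⟨i, hi⟩
        · simp
        · obtain ⟨w, hw1, hw2, _⟩ := h i hi ∅ (fun _ => 0)
          exact mul_nonneg (Nat.cast_nonneg _) ((sum_nonneg fun v _ => hw1 v).trans hw2)
      simp only [sum_const_zero]
      linarith
    · intro t Q _ hg
      exact absurd (by rw [filter_empty]; exact Good.empty) hg
  · obtain ⟨x, hx, hmin⟩ := exists_min_image Y o hY
    have hex := fun (i : ι) (hi : i ∈ σ) =>
      h i hi (Y.filter (fun v => v ≠ x ∧ ¬ (Γ i).Adj x v)) o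
    choose! w hw1 hw2 hw3 hw4 using hex
    refine ⟨fun v => (if v = x then 1 else 0) + ∑ i ∈ σ, w i v, fun v => ?_, ?_, ?_, ?_⟩
    · refine add_nonneg ?_ (sum_nonneg fun i hi => hw1 i hi v)
      split_ifs <;> norm_num
    · rw [sum_add_distrib, sum_ite_eq' univ x, if_pos (mem_univ x), sum_comm, add_comm]
      have h1 : ∑ i ∈ σ, ∑ v, w i v ≤ ∑ i ∈ σ, c := sum_le_sum fun i hi => hw2 i hi
      rw [sum_const, nsmul_eq_mul] at h1
      linarith
    · refine (card_le_card (t := {x} ∪ σ.biUnion (fun i => univ.filter (fun v => w i v ≠ 0))) ?_).trans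
        ((card_union_le _ _).trans ?_)
      · intro v hv
        rw [mem_filter] at hv
        rw [mem_union, mem_singleton, mem_biUnion]
        by_contra hc
        push Not at hc
        apply hv.2
        show (if v = x then (1 : ℝ) else 0) + ∑ i ∈ σ, w i v = 0
        rw [if_neg hc.1, zero_add]
        refine sum_eq_zero fun i hi => ?_
        by_contra hne
        exact hc.2 i hi (mem_filter.2 ⟨mem_univ v, hne⟩)
      · have h1 := card_biUnion_le_card_mul σ (fun i => univ.filter (fun v => w i v ≠ 0)) N hw3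
        rw [card_singleton]
        omega
    · intro t Q hQ hg
      have hne : Y.filter (fun v => o v < t) ≠ ∅ := by
        intro h0
        apply hg
        rw [h0]
        exact Good.empty
      have hxt := ch_min hx hmin hne
      have hnn : ∀ v, 0 ≤ (if v = x then (1 : ℝ) else 0) + ∑ i ∈ σ, w i v := by
        intro v
        refine add_nonneg ?_ (sum_nonneg fun i hi => hw1 i hi v)
        split_ifs <;> norm_num
      by_cases hxQ : ∀ i ∈ σ, x ∉ Q i
      · have hxu : x ∈ unc Q σ (Y.filter (fun v => o v < t)) := by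
          unfold unc
          rw [mem_filter]
          exact ⟨hxt, hxQ⟩
        refine le_trans ?_ (single_le_sum (fun v _ => hnn v) hxu)
        rw [if_pos rfl]
        have := sum_nonneg fun i hi => hw1 i hi x
        linarith
      · push Not at hxQ
        obtain ⟨i, hi, hxi⟩ := hxQ
        have hclq : Clq (Γ i) (Q i) := (hQ i hi).2
        obtain ⟨S, hS⟩ : ∃ S, S = Y.filter (fun v => o v < t) := ⟨_, rfl⟩
        obtain ⟨C, hC⟩ : ∃ C, C = S.filter (fun v => v = x ∨ (Γ i).Adj x v) := ⟨_, rfl⟩
        rw [← hS] at hxt hg ⊢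
        have hxC : x ∈ C := by rw [hC, mem_filter]; exact ⟨hxt, Or.inl rfl⟩
        have hconn : Conn (Γ i) C := by
          refine Conn.star hxC fun v hv hvx => ?_
          rw [hC, mem_filter] at hv
          exact hv.2.resolve_left hvx
        have hsd : S \ C = (Y.filter (fun v => v ≠ x ∧ ¬ (Γ i).Adj x v)).filter
            (fun v => o v < t) := by
          ext v
          simp only [hC, hS, mem_sdiff, mem_filter]
          tauto
        have hnot : ¬ Good Γ Q (σ.erase i) ((Y.filter (fun v => v ≠ x ∧ ¬ (Γ i).Adj x v)).filter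
            (fun v => o v < t)) := by
          rw [← hsd]
          intro hgd
          refine hg (Good.insert hi (by rw [hC]; exact filter_subset _ _) hconn
            (Or.inr ⟨x, mem_inter.2 ⟨hxC, hxi⟩⟩) hgd)
        have h1 := hw4 i hi t Q (ch_adm hQ) hnot
        have hsub : unc Q (σ.erase i) ((Y.filter (fun v => v ≠ x ∧ ¬ (Γ i).Adj x v)).filter
            (fun v => o v < t)) ⊆ unc Q σ S := by
          refine ch_unc ?_ ?_
          · rw [← hsd]
            exact sdiff_subset
          · intro v hv hvQ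
            rw [mem_filter, mem_filter] at hv
            exact hv.1.2.2 (hclq x hxi v hvQ (Ne.symm hv.1.2.1))
        calc (1 : ℝ) ≤ _ := h1
          _ ≤ ∑ v ∈ unc Q σ S, w i v :=
            sum_le_sum_of_subset_of_nonneg hsub fun v _ _ => hw1 i hi v
          _ ≤ _ := by
            refine sum_le_sum fun v _ => ?_
            have h2 : w i v ≤ ∑ k ∈ σ, w k v :=
              single_le_sum (f := fun k => w k v) (fun k hk => hw1 k hk v) hi
            have h3 : (0 : ℝ) ≤ (if v = x then (1 : ℝ) else 0) := by split_ifs <;> norm_num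
            linarith

end CERT

end Pool.Agent.MP5f1228
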