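import Mathlib
import Pool.Agent.Lib.MP_5f1228_co.Defs
import Pool.Agent.Lib.MP_5f1228_co.Good
import Pool.Agent.Lib.MP_5f1228_co.Ch

/-!
# MP_5f1228_co, module CTWO: the chain certificate with four points for two colours
-/

set_option autoImplicit false

namespace Pool.Agent.MP5f1228

open Finset

section CERT
variable {ι V : Type} [Fintype V] [DecidableEq V] [DecidableEq ι] {Γ : ι → SimpleGraph V}
  {Act : ι → Finset V} {σ : Finset ι}

/-- the mass of an indicator -/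
theorem ctwo_sum (x : V) : ∑ v, (if v = x then (1 : ℝ) else 0) = 1 := by
  simp

theorem ctwo_supp (f g : V → ℝ) {a b : ℕ} (hf : (univ.filter (fun v => f v ≠ 0)).card ≤ a)
    (hg : (univ.filter (fun v => g v ≠ 0)).card ≤ b) :
    (univ.filter (fun v => f v + g v ≠ 0)).card ≤ a + b := by
  refine le_trans (card_le_card (t := univ.filter (fun v => f v ≠ 0) ∪
    univ.filter (fun v => g v ≠ 0)) ?_) ((card_union_le _ _).trans (add_le_add hf hg))
  intro v hv
  simp only [mem_filter, mem_univ, true_and, mem_union] at hv ⊢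
  by_contra hcon
  push Not at hcon
  exact hv (by rw [hcon.1, hcon.2, add_zero])

theorem ctwo_supp1 (x : V) :
    (univ.filter (fun v => (if v = x then (1 : ℝ) else 0) ≠ 0)).card ≤ 1 := by
  refine le_trans (card_le_card (t := {x}) ?_) (card_singleton x).le
  intro v hv
  simp only [mem_filter, mem_univ, true_and, ne_eq, ite_eq_right_iff, one_ne_zero, imp_false,
    not_not] at hv
  rw [mem_singleton]
  exact hv

/-- a lower bound for the weight of a set -/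
theorem ctwo_le {A B : Finset V} {w w' : V → ℝ} (hAB : A ⊆ B) (hw : ∀ v, 0 ≤ w v)
    (hww : ∀ v, w' v ≤ w v) (h : 1 ≤ ∑ v ∈ A, w' v) : 1 ≤ ∑ v ∈ B, w v :=
  h.trans ((sum_le_sum fun v _ => hww v).trans (sum_le_sum_of_subset_of_nonneg hAB
    fun v _ _ => hw v))

theorem ctwo_mem {B : Finset V} {w : V → ℝ} {x : V} (hx : x ∈ B) (hw : ∀ v, 0 ≤ w v)
    (h1 : 1 ≤ w x) : 1 ≤ ∑ v ∈ B, w v :=
  h1.trans (single_le_sum (fun v _ => hw v) hx)

/-- the reduction to the remaining weight -/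
theorem ctwo_aux {Y : Finset V} {o : V → ℕ} {x e : V}
    (hS : ∀ (t : ℕ) (Q : ι → Finset V), Adm Γ Act σ Q →
      ¬ Good Γ Q σ (Y.filter (fun v => o v < t)) → (∃ i ∈ σ, x ∈ Q i) →
      x ∈ Y.filter (fun v => o v < t) ∧ e ∈ Y.filter (fun v => o v < t))
    (hx : ∀ (t : ℕ) (Q : ι → Finset V), Adm Γ Act σ Q →
      ¬ Good Γ Q σ (Y.filter (fun v => o v < t)) → x ∈ Y.filter (fun v => o v < t))
    (hw : ∃ w' : V → ℝ, (∀ v, 0 ≤ w' v) ∧ ∑ v, w' v ≤ 2 ∧
      (univ.filter (fun v => w' v ≠ 0)).card ≤ 2 ∧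
      ∀ (t : ℕ) (Q : ι → Finset V), Adm Γ Act σ Q →
        ¬ Good Γ Q σ (Y.filter (fun v => o v < t)) →
        x ∈ Y.filter (fun v => o v < t) → e ∈ Y.filter (fun v => o v < t) →
        (∃ i ∈ σ, x ∈ Q i) → (∃ i ∈ σ, e ∈ Q i) →
        1 ≤ ∑ v ∈ unc Q σ (Y.filter (fun v => o v < t)), w' v) :
    ∃ w : V → ℝ, (∀ v, 0 ≤ w v) ∧ ∑ v, w v ≤ 4 ∧
      (univ.filter (fun v => w v ≠ 0)).card ≤ 4 ∧
      ∀ (t : ℕ) (Q : ι → Finset V), Adm Γ Act σ Q →
        ¬ Good Γ Q σ (Y.filter (fun v => o v < t)) →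
        1 ≤ ∑ v ∈ unc Q σ (Y.filter (fun v => o v < t)), w v := by
  obtain ⟨w', h0, h1, h2, h3⟩ := hw
  set f : V → ℝ := fun v => (if v = x then (1 : ℝ) else 0) with hf
  set g : V → ℝ := fun v => (if v = e then (1 : ℝ) else 0) with hg
  have hf0 : ∀ v, 0 ≤ f v := fun v => by rw [hf]; simp only; split_ifs <;> norm_num
  have hg0 : ∀ v, 0 ≤ g v := fun v => by rw [hg]; simp only; split_ifs <;> norm_num
  have hw0 : ∀ v, 0 ≤ f v + (g v + w' v) := fun v =>
    add_nonneg (hf0 v) (add_nonneg (hg0 v) (h0 v))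
  refine ⟨fun v => f v + (g v + w' v), hw0, ?_, ?_, ?_⟩
  · rw [sum_add_distrib, sum_add_distrib, hf, hg, ctwo_sum, ctwo_sum]
    linarith
  · exact ctwo_supp f _ (ctwo_supp1 x) (ctwo_supp g w' (ctwo_supp1 e) h2)
  · intro t Q hQ hbad
    by_cases hxc : ∃ i ∈ σ, x ∈ Q i
    · obtain ⟨hxS, heS⟩ := hS t Q hQ hbad hxc
      by_cases hec : ∃ i ∈ σ, e ∈ Q i
      · exact ctwo_le Subset.rfl hw0 (fun v => by have := hf0 v; have := hg0 v; linarith)
          (h3 t Q hQ hbad hxS heS hxc hec)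
      · push Not at hec
        refine ctwo_mem (x := e) (mem_filter.2 ⟨heS, hec⟩) hw0 ?_
        have : g e = 1 := by rw [hg]; simp
        have h4 := hf0 e
        have h5 := h0 e
        linarith
    · push Not at hxc
      refine ctwo_mem (x := x) (mem_filter.2 ⟨hx t Q hQ hbad, hxc⟩) hw0 ?_
      have : f x = 1 := by rw [hf]; simp
      have h4 := hg0 x
      have h5 := h0 x
      linarith

/-- Case A: `x`, `e` adjacent in `Γ j` and not in `Γ i`. -/
theorem ctwo_caseA {i j : ι} (hij : i ≠ j) {Y : Finset V} {o : V → ℕ} {x e : V} (hxe : e ≠ x)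
    (hi : ¬ (Γ i).Adj x e) (hj : (Γ j).Adj x e) :
    ∃ w' : V → ℝ, (∀ v, 0 ≤ w' v) ∧ ∑ v, w' v ≤ 2 ∧
      (univ.filter (fun v => w' v ≠ 0)).card ≤ 2 ∧
      ∀ (t : ℕ) (Q : ι → Finset V), Adm Γ Act {i, j} Q →
        ¬ Good Γ Q {i, j} (Y.filter (fun v => o v < t)) →
        x ∈ Y.filter (fun v => o v < t) → e ∈ Y.filter (fun v => o v < t) →
        (∃ k ∈ ({i, j} : Finset ι), x ∈ Q k) → (∃ k ∈ ({i, j} : Finset ι), e ∈ Q k) →
        1 ≤ ∑ v ∈ unc Q {i, j} (Y.filter (fun v => o v < t)), w' v := by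
  classical
  have hcert : CCert Γ Act ({i} : Finset ι) 2 2 := by
    have h := ccert_step (Γ := Γ) (Act := Act) (σ := {i}) (c := 1) (N := 1) (fun k hk => by
      rw [mem_singleton] at hk
      subst hk
      rw [erase_singleton]
      exact ccert_zero)
    rw [card_singleton] at h
    norm_num at h
    exact h
  set X : Finset V := Y.filter (fun v => v ≠ x ∧ v ≠ e ∧ ¬ (Γ j).Adj x v ∧ ¬ (Γ j).Adj e v)
    with hX
  obtain ⟨w, h0, h1, h2, h3⟩ := hcert X o
  refine ⟨w, h0, h1, h2, ?_⟩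
  intro t Q hQ hbad hx he hxc hec
  set S : Finset V := Y.filter (fun v => o v < t) with hS
  have hjm : j ∈ ({i, j} : Finset ι) := by simp
  have him : i ∈ ({i, j} : Finset ι) := by simp
  -- `Q j` meets `{x, e}`
  have hmeet : x ∈ Q j ∨ e ∈ Q j := by
    obtain ⟨k, hk, hxk⟩ := hxc
    obtain ⟨k', hk', hek⟩ := hec
    rw [mem_insert, mem_singleton] at hk hk'
    rcases hk with rfl | rfl
    · rcases hk' with rfl | rfl
      · exact absurd ((hQ _ him).2 x hxk e hek hxe.symm) hi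
      · exact Or.inr hek
    · exact Or.inl hxk
  set C₁ : Finset V := S.filter (fun v => v = x ∨ (Γ j).Adj x v) with hC₁
  set C₂ : Finset V := S.filter (fun v => v = e ∨ (Γ j).Adj e v) with hC₂
  have c1 : Conn (Γ j) C₁ := Conn.star (x := x) (mem_filter.2 ⟨hx, Or.inl rfl⟩) fun v hv hne =>
    (mem_filter.1 hv).2.resolve_left hne
  have c2 : Conn (Γ j) C₂ := Conn.star (x := e) (mem_filter.2 ⟨he, Or.inl rfl⟩) fun v hv hne =>
    (mem_filter.1 hv).2.resolve_left hne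
  have c12 : Conn (Γ j) (C₁ ∪ C₂) := c1.union c2 (mem_filter.2 ⟨hx, Or.inl rfl⟩)
    (mem_filter.2 ⟨he, Or.inl rfl⟩) (Or.inr hj)
  have hsub : C₁ ∪ C₂ ⊆ S := union_subset (filter_subset _ _) (filter_subset _ _)
  have hm : ((C₁ ∪ C₂) ∩ Q j).Nonempty := by
    rcases hmeet with h | h
    · exact ⟨x, mem_inter.2 ⟨mem_union_left _ (mem_filter.2 ⟨hx, Or.inl rfl⟩), h⟩⟩
    · exact ⟨e, mem_inter.2 ⟨mem_union_right _ (mem_filter.2 ⟨he, Or.inl rfl⟩), h⟩⟩
  have hrest : S \ (C₁ ∪ C₂) = X.filter (fun v => o v < t) := by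
    ext v
    simp only [hC₁, hC₂, hX, hS, mem_sdiff, mem_union, mem_filter, not_or, not_and]
    constructor
    · rintro ⟨⟨hv, ht⟩, h4, h5⟩
      have h4' := h4 ⟨hv, ht⟩
      have h5' := h5 ⟨hv, ht⟩
      exact ⟨⟨hv, h4'.1, h5'.1, h4'.2, h5'.2⟩, ht⟩
    · rintro ⟨⟨hv, h4, h5, h6, h7⟩, ht⟩
      exact ⟨⟨hv, ht⟩, fun _ => ⟨h4, h6⟩, fun _ => ⟨h5, h7⟩⟩
  have herase : ({i, j} : Finset ι).erase j = {i} := by
    ext k
    simp only [mem_erase, mem_insert, mem_singleton]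
    constructor
    · rintro ⟨h4, h5⟩
      exact h5.resolve_right h4
    · rintro rfl
      exact ⟨hij, Or.inl rfl⟩
  have hbad' : ¬ Good Γ Q {i} (X.filter (fun v => o v < t)) := by
    intro hg
    refine hbad (Good.insert hjm hsub c12 (Or.inr hm) ?_)
    rw [herase, hrest]
    exact hg
  have hQ' : Adm Γ Act {i} Q := fun k hk => hQ k (by
    rw [mem_singleton] at hk
    rw [hk]
    exact him)
  refine ctwo_le ?_ h0 (fun v => le_rfl) (h3 t Q hQ' hbad')
  intro v hv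
  have hv1 := (mem_filter.1 hv).1
  have hv2 := (mem_filter.1 hv).2 i (mem_singleton_self i)
  rw [hX, mem_filter, mem_filter] at hv1
  obtain ⟨⟨hvY, h4, h5, h6, h7⟩, ht⟩ := hv1
  refine mem_filter.2 ⟨mem_filter.2 ⟨hvY, ht⟩, ?_⟩
  intro k hk
  rw [mem_insert, mem_singleton] at hk
  rcases hk with rfl | rfl
  · exact hv2
  · intro hvk
    rcases hmeet with h | h
    · exact h6 ((hQ _ hjm).2 x h v hvk h4.symm)
    · exact h7 ((hQ _ hjm).2 e h v hvk h5.symm)

/-- absorbing two stars -/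
theorem ctwo_two {i j : ι} (hij : i ≠ j) {Y : Finset V} {o : V → ℕ} {x e : V} (hxe : e ≠ x)
    {t : ℕ} {Q : ι → Finset V} (hQ : Adm Γ Act {i, j} Q)
    (hbad : ¬ Good Γ Q {i, j} (Y.filter (fun v => o v < t)))
    (hx : x ∈ Y.filter (fun v => o v < t)) (he : e ∈ Y.filter (fun v => o v < t))
    (hxi : x ∈ Q i) (hej : e ∈ Q j) [DecidableRel (Γ i).Adj] [DecidableRel (Γ j).Adj] :
    ¬ Good Γ Q ∅ ((Y.filter (fun v => v ≠ x ∧ v ≠ e ∧ ¬ (Γ i).Adj x v ∧
      ¬ (Γ j).Adj e v)).filter (fun v => o v < t)) ∧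
    ((Y.filter (fun v => v ≠ x ∧ v ≠ e ∧ ¬ (Γ i).Adj x v ∧
      ¬ (Γ j).Adj e v)).filter (fun v => o v < t)) ⊆
        unc Q {i, j} (Y.filter (fun v => o v < t)) := by
  set S : Finset V := Y.filter (fun v => o v < t) with hS
  have hjm : j ∈ ({i, j} : Finset ι) := by simp
  have him : i ∈ ({i, j} : Finset ι) := by simp
  have herase : ({i, j} : Finset ι).erase i = {j} := by
    ext k
    simp only [mem_erase, mem_insert, mem_singleton]
    constructor
    · rintro ⟨h4, h5⟩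
      exact h5.resolve_left h4
    · rintro rfl
      exact ⟨hij.symm, Or.inr rfl⟩
  set C₁ : Finset V := S.filter (fun v => v ≠ e ∧ (v = x ∨ (Γ i).Adj x v)) with hC₁
  set C₂ : Finset V := (S \ C₁).filter (fun v => v = e ∨ (Γ j).Adj e v) with hC₂
  have hx1 : x ∈ C₁ := mem_filter.2 ⟨hx, hxe.symm, Or.inl rfl⟩
  have he2 : e ∈ C₂ := mem_filter.2 ⟨mem_sdiff.2 ⟨he, fun h => (mem_filter.1 h).2.1 rfl⟩,
    Or.inl rfl⟩
  have c1 : Conn (Γ i) C₁ := Conn.star hx1 fun v hv hne =>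
    (mem_filter.1 hv).2.2.resolve_left hne
  have c2 : Conn (Γ j) C₂ := Conn.star he2 fun v hv hne =>
    (mem_filter.1 hv).2.resolve_left hne
  have hrest : (S \ C₁) \ C₂ = (Y.filter (fun v => v ≠ x ∧ v ≠ e ∧ ¬ (Γ i).Adj x v ∧
      ¬ (Γ j).Adj e v)).filter (fun v => o v < t) := by
    ext v
    simp only [hC₁, hC₂, hS, mem_sdiff, mem_filter]
    constructor
    · rintro ⟨⟨⟨hv, ht⟩, h4⟩, h5⟩
      have h6 : v ≠ e := fun h => h5 ⟨⟨⟨hv, ht⟩, h4⟩, Or.inl h⟩
      have h7 : ¬ (Γ j).Adj e v := fun h => h5 ⟨⟨⟨hv, ht⟩, h4⟩, Or.inr h⟩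
      have h8 : v ≠ x := fun h => h4 ⟨⟨hv, ht⟩, h6, Or.inl h⟩
      have h9 : ¬ (Γ i).Adj x v := fun h => h4 ⟨⟨hv, ht⟩, h6, Or.inr h⟩
      exact ⟨⟨hv, h8, h6, h9, h7⟩, ht⟩
    · rintro ⟨⟨hv, h4, h5, h6, h7⟩, ht⟩
      refine ⟨⟨⟨hv, ht⟩, ?_⟩, ?_⟩
      · rintro ⟨-, -, h8 | h8⟩
        · exact h4 h8
        · exact h6 h8
      · rintro ⟨-, h8 | h8⟩
        · exact h5 h8
        · exact h7 h8
  refine ⟨fun hg => hbad ?_, ?_⟩
  · refine Good.insert him (filter_subset _ _) c1 (Or.inr ⟨x, mem_inter.2 ⟨hx1, hxi⟩⟩) ?_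
    rw [herase]
    refine Good.insert (mem_singleton_self j) (filter_subset _ _) c2
      (Or.inr ⟨e, mem_inter.2 ⟨he2, hej⟩⟩) ?_
    rw [erase_singleton, hrest]
    exact hg
  · intro v hv
    rw [mem_filter, mem_filter] at hv
    obtain ⟨⟨hvY, h4, h5, h6, h7⟩, ht⟩ := hv
    refine mem_filter.2 ⟨mem_filter.2 ⟨hvY, ht⟩, ?_⟩
    intro k hk
    rw [mem_insert, mem_singleton] at hk
    rcases hk with rfl | rfl
    · exact fun hvk => h6 ((hQ _ him).2 x hxi v hvk h4.symm)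
    · exact fun hvk => h7 ((hQ _ hjm).2 e hej v hvk h5.symm)

/-- Case B: `x`, `e` not adjacent. -/
theorem ctwo_caseB {i j : ι} (hij : i ≠ j) {Y : Finset V} {o : V → ℕ} {x e : V} (hxe : e ≠ x)
    (hi : ¬ (Γ i).Adj x e) (hj : ¬ (Γ j).Adj x e) :
    ∃ w' : V → ℝ, (∀ v, 0 ≤ w' v) ∧ ∑ v, w' v ≤ 2 ∧
      (univ.filter (fun v => w' v ≠ 0)).card ≤ 2 ∧
      ∀ (t : ℕ) (Q : ι → Finset V), Adm Γ Act {i, j} Q →
        ¬ Good Γ Q {i, j} (Y.filter (fun v => o v < t)) →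
        x ∈ Y.filter (fun v => o v < t) → e ∈ Y.filter (fun v => o v < t) →
        (∃ k ∈ ({i, j} : Finset ι), x ∈ Q k) → (∃ k ∈ ({i, j} : Finset ι), e ∈ Q k) →
        1 ≤ ∑ v ∈ unc Q {i, j} (Y.filter (fun v => o v < t)), w' v := by
  classical
  obtain ⟨w₁, a0, a1, a2, a3⟩ := ccert_zero (Γ := Γ) (Act := Act)
    (Y.filter (fun v => v ≠ x ∧ v ≠ e ∧ ¬ (Γ i).Adj x v ∧ ¬ (Γ j).Adj e v)) o
  obtain ⟨w₂, b0, b1, b2, b3⟩ := ccert_zero (Γ := Γ) (Act := Act)
    (Y.filter (fun v => v ≠ x ∧ v ≠ e ∧ ¬ (Γ j).Adj x v ∧ ¬ (Γ i).Adj e v)) o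
  have hw0 : ∀ v, 0 ≤ w₁ v + w₂ v := fun v => add_nonneg (a0 v) (b0 v)
  refine ⟨fun v => w₁ v + w₂ v, hw0, ?_, ?_, ?_⟩
  · rw [sum_add_distrib]
    linarith
  · exact ctwo_supp w₁ w₂ a2 b2
  intro t Q hQ hbad hx he hxc hec
  have hunc : ∀ Z : Finset V, unc Q ∅ Z = Z := fun Z => by
    unfold unc
    exact filter_true_of_mem fun v _ k hk => absurd hk (notMem_empty k)
  have hadm : Adm Γ Act ∅ Q := fun k hk => absurd hk (notMem_empty k)
  have hjm : j ∈ ({i, j} : Finset ι) := by simp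
  have him : i ∈ ({i, j} : Finset ι) := by simp
  have hcase : (x ∈ Q i ∧ e ∈ Q j) ∨ (x ∈ Q j ∧ e ∈ Q i) := by
    obtain ⟨k, hk, hxk⟩ := hxc
    obtain ⟨k', hk', hek⟩ := hec
    rw [mem_insert, mem_singleton] at hk hk'
    rcases hk with rfl | rfl
    · rcases hk' with rfl | rfl
      · exact absurd ((hQ _ him).2 x hxk e hek hxe.symm) hi
      · exact Or.inl ⟨hxk, hek⟩
    · rcases hk' with rfl | rfl
      · exact Or.inr ⟨hxk, hek⟩
      · exact absurd ((hQ _ hjm).2 x hxk e hek hxe.symm) hj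
  rcases hcase with ⟨hxi, hej⟩ | ⟨hxj, hei⟩
  · obtain ⟨h4, h5⟩ := ctwo_two hij hxe hQ hbad hx he hxi hej
    have h6 := a3 t Q hadm h4
    rw [hunc] at h6
    exact ctwo_le h5 hw0 (fun v => by have := b0 v; linarith) h6
  · rw [pair_comm] at hQ hbad ⊢
    obtain ⟨h4, h5⟩ := ctwo_two hij.symm hxe hQ hbad hx he hxj hei
    have h6 := b3 t Q hadm h4
    rw [hunc] at h6
    exact ctwo_le h5 hw0 (fun v => by have := a0 v; linarith) h6

/-- **Chain certificate with four points for two colours.** -/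
theorem ccert_two (hσ : σ.card = 2) : CCert Γ Act σ 4 4 := by
  classical
  obtain ⟨i, j, hij, rfl⟩ := card_eq_two.1 hσ
  intro Y o
  rcases Y.eq_empty_or_nonempty with rfl | hY
  · refine ⟨fun _ => 0, fun _ => le_rfl, by simp, by simp, ?_⟩
    intro t Q _ hbad
    exact absurd (by rw [filter_empty]; exact Good.empty) hbad
  obtain ⟨x, hx, hxmin⟩ := Y.exists_min_image o hY
  have hxS : ∀ (t : ℕ) (Q : ι → Finset V), Adm Γ Act {i, j} Q →
      ¬ Good Γ Q {i, j} (Y.filter (fun v => o v < t)) → x ∈ Y.filter (fun v => o v < t) := by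
    intro t Q _ hbad
    by_contra hcon
    apply hbad
    have : Y.filter (fun v => o v < t) = ∅ := by
      rw [filter_eq_empty_iff]
      intro v hv ht
      exact hcon (mem_filter.2 ⟨hx, (hxmin v hv).trans_lt ht⟩)
    rw [this]
    exact Good.empty
  -- if `S_t` is a star at `x` in both graphs then `x` is not covered
  have hstar : ∀ (t : ℕ) (Q : ι → Finset V), Adm Γ Act {i, j} Q →
      ¬ Good Γ Q {i, j} (Y.filter (fun v => o v < t)) →
      (∀ v ∈ Y.filter (fun v => o v < t), v ≠ x → (Γ i).Adj x v ∧ (Γ j).Adj x v) →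
      ∀ k ∈ ({i, j} : Finset ι), x ∉ Q k := by
    intro t Q hQ hbad hst k hk hxk
    apply hbad
    have hxm := hxS t Q hQ hbad
    refine Good.insert hk Subset.rfl (Conn.star hxm fun v hv hne => ?_)
      (Or.inr ⟨x, mem_inter.2 ⟨hxm, hxk⟩⟩) ?_
    · rw [mem_insert, mem_singleton] at hk
      rcases hk with rfl | rfl
      · exact (hst v hv hne).1
      · exact (hst v hv hne).2
    · rw [sdiff_self]
      exact Good.empty
  rcases (Y.filter (fun v => v ≠ x ∧ (¬ (Γ i).Adj x v ∨ ¬ (Γ j).Adj x v))).eq_empty_or_nonempty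
    with hB | hB
  · refine ⟨fun v => if v = x then 1 else 0, fun v => by dsimp only; split_ifs <;> norm_num, ?_,
      (ctwo_supp1 x).trans (by norm_num), ?_⟩
    · rw [ctwo_sum]
      norm_num
    · intro t Q hQ hbad
      refine ctwo_mem (x := x) (mem_filter.2 ⟨hxS t Q hQ hbad, hstar t Q hQ hbad ?_⟩)
        (fun v => by split_ifs <;> norm_num) (by simp)
      intro v hv hne
      rw [filter_eq_empty_iff] at hB
      have h4 := hB (mem_filter.1 hv).1
      push Not at h4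
      have h5 := h4 hne
      exact h5
  · obtain ⟨e, he, hemin⟩ := exists_min_image _ o hB
    have heY := (mem_filter.1 he).1
    have hex := (mem_filter.1 he).2.1
    refine ctwo_aux (x := x) (e := e) ?_ hxS ?_
    · intro t Q hQ hbad hxc
      refine ⟨hxS t Q hQ hbad, ?_⟩
      by_contra hcon
      obtain ⟨k, hk, hxk⟩ := hxc
      refine hstar t Q hQ hbad ?_ k hk hxk
      intro v hv hne
      by_contra hcon2
      have hvB : v ∈ Y.filter (fun v => v ≠ x ∧ (¬ (Γ i).Adj x v ∨ ¬ (Γ j).Adj x v)) := by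
        refine mem_filter.2 ⟨(mem_filter.1 hv).1, hne, ?_⟩
        by_contra h6
        push Not at h6
        exact hcon2 h6
      exact hcon (mem_filter.2 ⟨heY, (hemin v hvB).trans_lt (mem_filter.1 hv).2⟩)
    · by_cases hi : (Γ i).Adj x e
      · by_cases hj : (Γ j).Adj x e
        · have := (mem_filter.1 he).2.2
          tauto
        · have h := ctwo_caseA (Γ := Γ) (Act := Act) hij.symm (Y := Y) (o := o) hex hj hi
          rw [pair_comm] at h
          exact h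
      · by_cases hj : (Γ j).Adj x e
        · exact ctwo_caseA hij hex hi hj
        · exact ctwo_caseB hij hex hi hj

end CERT

end Pool.Agent.MP5f1228
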