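import Mathlib
import Pool.Agent.Lib.MP_5f1228_co.Defs
import Pool.Agent.Lib.MP_5f1228_co.Good
import Pool.Agent.Lib.MP_5f1228_co.Blk

/-!
# MP_5f1228_co, module FB: forward and backward chains
-/

set_option autoImplicit false

namespace Pool.Agent.MP5f1228

open Finset

section CERT
variable {ι V : Type} [Fintype V] [DecidableEq V] [DecidableEq ι] {Γ : ι → SimpleGraph V}
  {Act : ι → Finset V} {σ : Finset ι}

theorem fb_unc {Q : ι → Finset V} {i : ι} {S Y : Finset V} (hSY : S ⊆ Y)
    (hS : ∀ v ∈ S, v ∉ Q i) : unc Q (σ.erase i) S ⊆ unc Q σ Y := by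
  intro v hv
  unfold unc at hv ⊢
  rw [mem_filter] at hv ⊢
  refine ⟨hSY hv.1, fun j hj => ?_⟩
  rcases eq_or_ne j i with rfl | hji
  · exact hS v hv.1
  · exact hv.2 j (mem_erase.2 ⟨hji, hj⟩)

theorem fb_adm {Q : ι → Finset V} {i : ι} (hQ : Adm Γ Act σ Q) : Adm Γ Act (σ.erase i) Q :=
  fun j hj => hQ j (mem_of_mem_erase hj)

theorem cert_of_ccert {i : ι} (hi : i ∈ σ) {c : ℝ} {N : ℕ}
    (h : CCert Γ Act (σ.erase i) c N) : Cert Γ Act σ (2 * c) (2 * N) := by
  classical
  intro Y
  obtain ⟨o, ho1, ho2⟩ := exists_order (Γ i) Y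
  obtain ⟨L, hL⟩ : ∃ L : ℕ, ∀ v, o v < L := by
    refine ⟨univ.sup o + 1, fun v => ?_⟩
    exact Nat.lt_succ_of_le (le_sup (mem_univ v))
  obtain ⟨w1, hw1, hc1, hN1, hQ1⟩ := h Y o
  obtain ⟨w2, hw2, hc2, hN2, hQ2⟩ := h Y (fun v => L - o v)
  refine ⟨fun v => w1 v + w2 v, fun v => add_nonneg (hw1 v) (hw2 v), ?_, ?_, ?_⟩
  · rw [sum_add_distrib]
    linarith
  · calc (univ.filter (fun v => w1 v + w2 v ≠ 0)).card
        ≤ ((univ.filter (fun v => w1 v ≠ 0)) ∪ (univ.filter (fun v => w2 v ≠ 0))).card := by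
          apply card_le_card
          intro v hv
          rw [mem_filter] at hv
          rw [mem_union, mem_filter, mem_filter]
          by_contra hc
          push Not at hc
          apply hv.2
          rw [hc.1 (mem_univ v), hc.2 (mem_univ v), add_zero]
      _ ≤ _ := card_union_le _ _
      _ ≤ 2 * N := by omega
  · intro Q hQ hY
    have hclq : Clq (Γ i) (Q i) := (hQ i hi).2
    -- the reduction to one segment
    have red : ∀ (S : Finset V) (w : V → ℝ), (∀ v, 0 ≤ w v) → (∀ v, w v ≤ w1 v + w2 v) → S ⊆ Y →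
        (∀ v ∈ S, v ∉ Q i) → 1 ≤ ∑ v ∈ unc Q (σ.erase i) S, w v →
        1 ≤ ∑ v ∈ unc Q σ Y, (w1 v + w2 v) := by
      intro S w hw hle hSY hS h1
      calc (1 : ℝ) ≤ ∑ v ∈ unc Q (σ.erase i) S, w v := h1
        _ ≤ ∑ v ∈ unc Q (σ.erase i) S, (w1 v + w2 v) := sum_le_sum fun v _ => hle v
        _ ≤ _ := sum_le_sum_of_subset_of_nonneg (fb_unc hSY hS)
          fun v _ _ => add_nonneg (hw1 v) (hw2 v)
    have hle1 : ∀ v, w1 v ≤ w1 v + w2 v := fun v => le_add_of_nonneg_right (hw2 v)
    have hle2 : ∀ v, w2 v ≤ w1 v + w2 v := fun v => le_add_of_nonneg_left (hw1 v)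
    by_cases hq : ∃ q ∈ Y, q ∈ Q i
    · obtain ⟨q, hqY, hqQ⟩ := hq
      have hcl : ∀ v ∈ Y, v ∈ Q i → o v = o q := by
        intro v hv hvQ
        rcases eq_or_ne v q with rfl | hne
        · rfl
        · exact ho2 v hv q hqY (hclq v hvQ q hqQ hne)
      have hnot : ¬ Good Γ Q (σ.erase i) (Y \ Y.filter (fun v => o v = o q)) := by
        intro hg
        refine hY (Good.insert hi (filter_subset _ _) (ho1 (o q)) (Or.inr ⟨q, ?_⟩) hg)
        exact mem_inter.2 ⟨mem_filter.2 ⟨hqY, rfl⟩, hqQ⟩
      have hsplit : Y \ Y.filter (fun v => o v = o q) =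
          Y.filter (fun v => o v < o q) ∪ Y.filter (fun v => L - o v < L - o q) := by
        ext v
        have h1 := hL v
        have h2 := hL q
        simp only [mem_sdiff, mem_filter, mem_union, not_and]
        constructor
        · rintro ⟨h3, h4⟩
          have h5 := h4 h3
          rcases lt_or_gt_of_ne h5 with h6 | h6
          · exact Or.inl ⟨h3, h6⟩
          · exact Or.inr ⟨h3, by omega⟩
        · rintro (⟨h3, h4⟩ | ⟨h3, h4⟩)
          · exact ⟨h3, fun _ => by omega⟩
          · exact ⟨h3, fun _ => by omega⟩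
      have hdisj : Disjoint (Y.filter (fun v => o v < o q))
          (Y.filter (fun v => L - o v < L - o q)) := by
        rw [disjoint_left]
        intro v hv hv'
        rw [mem_filter] at hv hv'
        have h1 := hv.2
        have h2 := hv'.2
        omega
      by_cases hg1 : Good Γ Q (σ.erase i) (Y.filter (fun v => o v < o q))
      · by_cases hg2 : Good Γ Q (σ.erase i) (Y.filter (fun v => L - o v < L - o q))
        · exact absurd (hsplit ▸ Good.union (fun j hj => (fb_adm hQ j hj).2) hdisj hg1 hg2) hnot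
        · refine red _ w2 hw2 hle2 (filter_subset _ _) ?_ (hQ2 (L - o q) Q (fb_adm hQ) hg2)
          intro v hv hvQ
          rw [mem_filter] at hv
          have h1 := hcl v hv.1 hvQ
          have h2 := hv.2
          omega
      · refine red _ w1 hw1 hle1 (filter_subset _ _) ?_ (hQ1 (o q) Q (fb_adm hQ) hg1)
        intro v hv hvQ
        rw [mem_filter] at hv
        have h1 := hcl v hv.1 hvQ
        have h2 := hv.2
        omega
    · push Not at hq
      have hall : Y.filter (fun v => o v < L) = Y := by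
        rw [filter_eq_self]
        exact fun v _ => hL v
      have hnot : ¬ Good Γ Q (σ.erase i) (Y.filter (fun v => o v < L)) := by
        rw [hall]
        intro hg
        refine hY (Good.insert hi (empty_subset Y) (Conn.empty _) (Or.inl rfl) ?_)
        rwa [sdiff_empty]
      refine red _ w1 hw1 hle1 (filter_subset _ _) ?_ (hQ1 L Q (fb_adm hQ) hnot)
      intro v hv
      rw [mem_filter] at hv
      exact hq v hv.1

end CERT

end Pool.Agent.MP5f1228
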