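import Mathlib
import Pool.Agent.Lib.MP_5f1228_co.Defs
import Pool.Agent.Lib.MP_5f1228_co.Good
import Pool.Agent.Lib.MP_5f1228_co.Blk

/-!
# MP_5f1228_co, module LAB: the label step
-/

set_option autoImplicit false

namespace Pool.Agent.MP5f1228

open Finset

/-- a counting lemma: if `τ` is injective and for every `x ∈ S` one of `x`, `τ x` is in `B`, then
`S` has at most `2 |B|` elements -/
theorem lab_count {α : Type} [DecidableEq α] (S B : Finset α) (τ : α → α)
    (hτ : Function.Injective τ) (h : ∀ x ∈ S, x ∈ B ∨ τ x ∈ B) : S.card ≤ 2 * B.card := by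
  classical
  have h1 : S ⊆ B ∪ S.filter (fun x => τ x ∈ B) := by
    intro x hx
    rcases h x hx with h2 | h2
    · exact mem_union_left _ h2
    · exact mem_union_right _ (mem_filter.2 ⟨hx, h2⟩)
  have h2 : (S.filter (fun x => τ x ∈ B)).card ≤ B.card :=
    card_le_card_of_injOn τ (fun x hx => (mem_filter.1 hx).2) (hτ.injOn)
  calc S.card ≤ (B ∪ S.filter (fun x => τ x ∈ B)).card := card_le_card h1
    _ ≤ B.card + (S.filter (fun x => τ x ∈ B)).card := card_union_le _ _
    _ ≤ 2 * B.card := by omega

section LAB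
/-- the part of `Y` labelled `true` -/
def lab_part {V : Type} [DecidableEq V] {M : ℕ} (Y : Finset V) (o : V → Fin (M + 1))
    (l : Fin (M + 1) → Bool) : Finset V :=
  Y.filter (fun v => l (o v) = true)

theorem lab_unc {ι V : Type} [DecidableEq V] [DecidableEq ι] {σ : Finset ι} {M : ℕ} {i : ι} {Y : Finset V} {o : V → Fin (M + 1)}
    {l : Fin (M + 1) → Bool} {Q : ι → Finset V}
    (hd : ∀ v ∈ Y, v ∈ Q i → l (o v) = false) :
    unc Q (σ.erase i) (lab_part Y o l) ⊆ unc Q σ Y := by
  intro v hv
  unfold unc lab_part at hv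
  rw [mem_filter, mem_filter] at hv
  obtain ⟨⟨hvY, hl⟩, hQ⟩ := hv
  unfold unc
  rw [mem_filter]
  refine ⟨hvY, fun k hk hvk => ?_⟩
  by_cases hki : k = i
  · subst hki
    rw [hd v hvY hvk] at hl
    exact Bool.false_ne_true hl
  · exact hQ k (mem_erase.2 ⟨hki, hk⟩) hvk

variable {ι V : Type} [Fintype V] [DecidableEq V] [DecidableEq ι] {Γ : ι → SimpleGraph V}
  {Act : ι → Finset V} {σ : Finset ι}

/-- the labels for which the labelled part is not good, restricted by `P` -/
theorem lab_sum {M : ℕ} {i : ι} {c : ℝ} {N : ℕ} (h : Cert Γ Act (σ.erase i) c N)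
    (Y : Finset V) (o : V → Fin (M + 1)) :
    ∃ w : V → ℝ, (∀ v, 0 ≤ w v) ∧ ∑ v, w v ≤ 4 * c ∧
      (univ.filter (fun v => w v ≠ 0)).card ≤ 2 ^ (M + 1) * N ∧
      ∀ (Q : ι → Finset V) (B : Finset (Fin (M + 1) → Bool)), Adm Γ Act σ Q →
        (∀ l ∈ B, ¬ Good Γ Q (σ.erase i) (lab_part Y o l)) →
        (∀ l ∈ B, ∀ v ∈ Y, v ∈ Q i → l (o v) = false) → 2 ^ (M + 1) ≤ 4 * B.card →
        1 ≤ ∑ v ∈ unc Q σ Y, w v := by
  classical
  choose W hW0 hWc hWN hWQ using fun l : Fin (M + 1) → Bool => h (lab_part Y o l)
  have hcard : (univ : Finset (Fin (M + 1) → Bool)).card = 2 ^ (M + 1) := by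
    rw [card_univ, Fintype.card_fun, Fintype.card_bool, Fintype.card_fin]
  have hp : (0 : ℝ) < 2 ^ (M + 1) := by positivity
  refine ⟨fun v => 4 / 2 ^ (M + 1) * ∑ l, W l v, fun v => ?_, ?_, ?_, ?_⟩
  · exact mul_nonneg (by positivity) (sum_nonneg fun l _ => hW0 l v)
  · rw [← mul_sum, sum_comm]
    have h1 : ∑ l, ∑ v, W l v ≤ 2 ^ (M + 1) * c := by
      calc ∑ l, ∑ v, W l v ≤ ∑ _l : Fin (M + 1) → Bool, c := sum_le_sum fun l _ => hWc l
        _ = 2 ^ (M + 1) * c := by
          rw [sum_const, hcard, nsmul_eq_mul]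
          push_cast
          ring
    calc 4 / 2 ^ (M + 1) * ∑ l, ∑ v, W l v ≤ 4 / 2 ^ (M + 1) * (2 ^ (M + 1) * c) :=
          mul_le_mul_of_nonneg_left h1 (by positivity)
      _ = 4 * c := by field_simp
  · have h1 : univ.filter (fun v => 4 / 2 ^ (M + 1) * ∑ l, W l v ≠ 0) ⊆
        univ.biUnion (fun l => univ.filter (fun v => W l v ≠ 0)) := by
      intro v hv
      rw [mem_filter] at hv
      rw [mem_biUnion]
      by_contra hcon
      push Not at hcon
      refine hv.2 ?_
      rw [sum_eq_zero, mul_zero]
      intro l _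
      by_contra h2
      exact hcon l (mem_univ _) (mem_filter.2 ⟨mem_univ _, h2⟩)
    calc (univ.filter (fun v => 4 / 2 ^ (M + 1) * ∑ l, W l v ≠ 0)).card
        ≤ (univ.biUnion (fun l => univ.filter (fun v => W l v ≠ 0))).card := card_le_card h1
      _ ≤ ∑ l, (univ.filter (fun v => W l v ≠ 0)).card := card_biUnion_le
      _ ≤ ∑ _l : Fin (M + 1) → Bool, N := sum_le_sum fun l _ => hWN l
      _ = 2 ^ (M + 1) * N := by rw [sum_const, hcard, smul_eq_mul]
  · intro Q B hQ hB1 hB2 hB3
    have hQ' : Adm Γ Act (σ.erase i) Q := fun k hk => hQ k (mem_of_mem_erase hk)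
    have h1 : ∀ l ∈ B, 1 ≤ ∑ v ∈ unc Q σ Y, W l v := by
      intro l hl
      refine (hWQ l Q hQ' (hB1 l hl)).trans ?_
      exact sum_le_sum_of_subset_of_nonneg (lab_unc (hB2 l hl)) fun v _ _ => hW0 l v
    have h2 : (B.card : ℝ) ≤ ∑ l, ∑ v ∈ unc Q σ Y, W l v := by
      calc (B.card : ℝ) = ∑ _l ∈ B, (1 : ℝ) := by rw [sum_const, nsmul_eq_mul, mul_one]
        _ ≤ ∑ l ∈ B, ∑ v ∈ unc Q σ Y, W l v := sum_le_sum h1
        _ ≤ ∑ l, ∑ v ∈ unc Q σ Y, W l v :=
          sum_le_sum_of_subset_of_nonneg (subset_univ _) fun l _ _ =>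
            sum_nonneg fun v _ => hW0 l v
    rw [← mul_sum, sum_comm]
    have h3 : (2 : ℝ) ^ (M + 1) ≤ 4 * (B.card : ℝ) := by exact_mod_cast hB3
    calc (1 : ℝ) = 4 / 2 ^ (M + 1) * (2 ^ (M + 1) / 4) := by field_simp
      _ ≤ 4 / 2 ^ (M + 1) * ∑ l, ∑ v ∈ unc Q σ Y, W l v := by
        refine mul_le_mul_of_nonneg_left ?_ (by positivity)
        linarith

/-- **The label step.** -/
theorem cert_label {M : ℕ} {i : ι} (hi : i ∈ σ)
    (hA : ∀ v w, (Γ i).Adj v w → v ∈ Act i)
    (hM : ∀ S : Finset V, S ⊆ Act i → (∀ v ∈ S, ∀ w ∈ S, ¬ (Γ i).Adj v w) → S.card ≤ M)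
    {c : ℝ} {N : ℕ} (h : Cert Γ Act (σ.erase i) c N) :
    Cert Γ Act σ (4 * c) (2 ^ (M + 1) * N) := by
  classical
  intro Y
  obtain ⟨o, hoc, hoa, hol⟩ := exists_block (Γ i) (Act i) M hA hM Y
  obtain ⟨w, hw0, hwc, hwN, hw⟩ := lab_sum h Y o
  refine ⟨w, hw0, hwc, hwN, fun Q hQ hng => ?_⟩
  have hcard : (univ : Finset (Fin (M + 1) → Bool)).card = 2 ^ (M + 1) := by
    rw [card_univ, Fintype.card_fun, Fintype.card_bool, Fintype.card_fin]
  have hclq : ∀ k ∈ σ.erase i, Clq (Γ k) (Q k) := fun k hk => (hQ k (mem_of_mem_erase hk)).2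
  by_cases hne : (Q i ∩ Y).Nonempty
  · -- the clique meets `Y`
    obtain ⟨q, hq⟩ := hne
    obtain ⟨hqQ, hqY⟩ := mem_inter.1 hq
    obtain ⟨hQA, hQc⟩ := hQ i hi
    have hj : o q ≠ Fin.last M := hol q hqY (hQA hqQ)
    have hoq : ∀ v ∈ Y, v ∈ Q i → o v = o q := by
      intro v hv hvQ
      by_cases hvq : v = q
      · rw [hvq]
      · exact hoa v hv q hqY (hQc v hvQ q hqQ hvq)
    refine hw Q (univ.filter (fun l => l (o q) = false ∧
      ¬ Good Γ Q (σ.erase i) (lab_part Y o l))) hQ ?_ ?_ ?_
    · intro l hl
      exact (mem_filter.1 hl).2.2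
    · intro l hl v hv hvQ
      rw [hoq v hv hvQ]
      exact (mem_filter.1 hl).2.1
    · have h1 : (univ : Finset (Fin (M + 1) → Bool)).card ≤
          2 * (univ.filter (fun l : Fin (M + 1) → Bool => l (o q) = false)).card := by
        refine lab_count _ _ (fun l => Function.update l (o q) (!l (o q))) ?_ ?_
        · intro l l' hl
          funext k
          have h2 := congrFun hl k
          simp only at h2
          by_cases hk : k = o q
          · subst hk
            rw [Function.update_self, Function.update_self] at h2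
            exact Bool.not_inj h2
          · rwa [Function.update_of_ne hk, Function.update_of_ne hk] at h2
        · intro l _
          rcases Bool.eq_false_or_eq_true (l (o q)) with h2 | h2
          · right
            rw [mem_filter]
            refine ⟨mem_univ _, ?_⟩
            rw [Function.update_self, h2]
            rfl
          · left
            exact mem_filter.2 ⟨mem_univ _, h2⟩
      have h3 : (univ.filter (fun l : Fin (M + 1) → Bool => l (o q) = false)).card ≤
          2 * (univ.filter (fun l => l (o q) = false ∧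
            ¬ Good Γ Q (σ.erase i) (lab_part Y o l))).card := by
        refine lab_count _ _ (fun l k => if k = o q then l k else !l k) ?_ ?_
        · intro l l' hl
          funext k
          have h2 := congrFun hl k
          simp only at h2
          by_cases hk : k = o q
          · rwa [if_pos hk, if_pos hk] at h2
          · rw [if_neg hk, if_neg hk] at h2
            exact Bool.not_inj h2
        · intro l hl
          have hlj : l (o q) = false := (mem_filter.1 hl).2
          by_contra hcon
          rw [mem_filter, mem_filter] at hcon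
          push Not at hcon
          obtain ⟨hc1, hc2⟩ := hcon
          have hg1 := hc1 (mem_univ _) hlj
          have hg2 := hc2 (mem_univ _) (by rw [if_pos rfl]; exact hlj)
          refine hng (Good.insert hi (C := Y.filter (fun v => o v = o q)) (filter_subset _ _)
            (hoc _ hj) (Or.inr ⟨q, mem_inter.2 ⟨mem_filter.2 ⟨hqY, rfl⟩, hqQ⟩⟩) ?_)
          have hU : Y \ Y.filter (fun v => o v = o q) =
              lab_part Y o l ∪ lab_part Y o (fun k => if k = o q then l k else !l k) := by
            ext v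
            unfold lab_part
            simp only [mem_sdiff, mem_filter, mem_union]
            constructor
            · rintro ⟨hv, hv2⟩
              have hv3 : o v ≠ o q := fun h => hv2 ⟨hv, h⟩
              rw [if_neg hv3]
              rcases Bool.eq_false_or_eq_true (l (o v)) with h2 | h2
              · exact Or.inl ⟨hv, h2⟩
              · exact Or.inr ⟨hv, by rw [h2]; rfl⟩
            · rintro (⟨hv, hv2⟩ | ⟨hv, hv2⟩)
              · refine ⟨hv, fun h => ?_⟩
                rw [h.2, hlj] at hv2
                exact Bool.false_ne_true hv2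
              · refine ⟨hv, fun h => ?_⟩
                rw [if_pos h.2, h.2, hlj] at hv2
                exact Bool.false_ne_true hv2
          rw [hU]
          refine Good.union hclq ?_ hg1 hg2
          rw [disjoint_left]
          intro v hv1 hv2
          unfold lab_part at hv1 hv2
          rw [mem_filter] at hv1 hv2
          have h5 := hv1.2
          have h6 : (if o v = o q then l (o v) else !l (o v)) = true := hv2.2
          by_cases hk : o v = o q
          · rw [hk, hlj] at h5
            exact Bool.false_ne_true h5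
          · rw [if_neg hk, h5] at h6
            exact Bool.false_ne_true h6
      rw [← hcard]
      omega
  · -- the clique misses `Y`
    refine hw Q (univ.filter (fun l => ¬ Good Γ Q (σ.erase i) (lab_part Y o l))) hQ ?_ ?_ ?_
    · intro l hl
      exact (mem_filter.1 hl).2
    · intro l _ v hv hvQ
      exact absurd ⟨v, mem_inter.2 ⟨hvQ, hv⟩⟩ hne
    · have h1 : (univ : Finset (Fin (M + 1) → Bool)).card ≤
          2 * (univ.filter (fun l => ¬ Good Γ Q (σ.erase i) (lab_part Y o l))).card := by
        refine lab_count _ _ (fun l k => !l k) ?_ ?_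
        · intro l l' hl
          funext k
          exact Bool.not_inj (congrFun hl k)
        · intro l _
          by_contra hcon
          rw [mem_filter, mem_filter] at hcon
          push Not at hcon
          obtain ⟨hc1, hc2⟩ := hcon
          have hg1 := hc1 (mem_univ _)
          have hg2 := hc2 (mem_univ _)
          refine hng (Good.insert hi (C := ∅) (empty_subset _) (Conn.empty _) (Or.inl rfl) ?_)
          have hU : Y \ ∅ = lab_part Y o l ∪ lab_part Y o (fun k => !l k) := by
            ext v
            unfold lab_part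
            simp only [mem_sdiff, mem_filter, mem_union, notMem_empty, not_false_eq_true,
              and_true]
            constructor
            · intro hv
              rcases Bool.eq_false_or_eq_true (l (o v)) with h2 | h2
              · exact Or.inl ⟨hv, h2⟩
              · exact Or.inr ⟨hv, by rw [h2]; rfl⟩
            · rintro (⟨hv, -⟩ | ⟨hv, -⟩) <;> exact hv
          rw [hU]
          refine Good.union hclq ?_ hg1 hg2
          rw [disjoint_left]
          intro v hv1 hv2
          unfold lab_part at hv1 hv2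
          rw [mem_filter] at hv1 hv2
          have h5 := hv1.2
          have h6 : (!l (o v)) = true := hv2.2
          rw [h5] at h6
          exact Bool.false_ne_true h6
      rw [← hcard]
      omega

end LAB

end Pool.Agent.MP5f1228
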