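import Mathlib
import Pool.Agent.Lib.MP_5f1228_co.Defs
import Pool.Agent.Lib.MP_5f1228_co.Lab
import Pool.Agent.Lib.MP_5f1228_co.Fb
import Pool.Agent.Lib.MP_5f1228_co.Ch
import Pool.Agent.Lib.MP_5f1228_co.Ctwo

/-!
# MP_5f1228_co: certificates for all numbers of colours
-/

set_option autoImplicit false

namespace Pool.Agent.MP5f1228

open Finset

theorem cert_main (M k : ℕ) (hk : 1 ≤ k) : ∃ N : ℕ, ∀ (ι V : Type) [Fintype V] [DecidableEq V]
    [DecidableEq ι] (Γ : ι → SimpleGraph V) (Act : ι → Finset V)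
    (_ : ∀ i v w, (Γ i).Adj v w → v ∈ Act i)
    (_ : ∀ i, ∀ S : Finset V, S ⊆ Act i → (∀ v ∈ S, ∀ w ∈ S, ¬ (Γ i).Adj v w) → S.card ≤ M)
    (σ : Finset ι), σ.card = k → Cert Γ Act σ (T k) N := by
  have hpick : ∀ {ι : Type} (σ : Finset ι), 1 ≤ σ.card → ∃ i, i ∈ σ := fun σ h =>
    Finset.card_pos.mp h
  obtain ⟨m, rfl⟩ : ∃ m, k = m + 1 := ⟨k - 1, by omega⟩
  clear hk
  have hbig : ∀ m : ℕ, ∃ N : ℕ, ∀ (ι V : Type) [Fintype V] [DecidableEq V]
      [DecidableEq ι] (Γ : ι → SimpleGraph V) (Act : ι → Finset V)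
      (_ : ∀ i v w, (Γ i).Adj v w → v ∈ Act i)
      (_ : ∀ i, ∀ S : Finset V, S ⊆ Act i → (∀ v ∈ S, ∀ w ∈ S, ¬ (Γ i).Adj v w) → S.card ≤ M)
      (σ : Finset ι), σ.card = m + 4 → Cert Γ Act σ (T (m + 4)) N := by
    intro m
    induction m with
    | zero =>
      refine ⟨2 * (3 * 4 + 1), ?_⟩
      intro ι V _ _ _ Γ Act _ _ σ hσ
      obtain ⟨i, hi⟩ := hpick σ (by omega)
      have h3 : (σ.erase i).card = 3 := by rw [Finset.card_erase_of_mem hi, hσ]
      have h4 : CCert Γ Act (σ.erase i) ((σ.erase i).card * 4 + 1) ((σ.erase i).card * 4 + 1) := by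
        apply ccert_step
        intro j hj
        apply ccert_two
        rw [Finset.card_erase_of_mem hj, h3]
      rw [h3] at h4
      have h5 := cert_of_ccert hi h4
      have e : ((T (0 + 4) : ℕ) : ℝ) = 2 * ((3 : ℕ) * 4 + 1) := by
        norm_num [T]
      rw [e]
      exact h5
    | succ m ih =>
      obtain ⟨N, hN⟩ := ih
      refine ⟨2 ^ (M + 1) * N, ?_⟩
      intro ι V _ _ _ Γ Act hA hM σ hσ
      obtain ⟨i, hi⟩ := hpick σ (by omega)
      have h3 : (σ.erase i).card = m + 4 := by rw [Finset.card_erase_of_mem hi, hσ]; omega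
      have h5 := cert_label (M := M) hi (hA i) (hM i) (hN ι V Γ Act hA hM (σ.erase i) h3)
      have e : ((T (m + 1 + 4) : ℕ) : ℝ) = 4 * (T (m + 4) : ℝ) := by
        have : T (m + 1 + 4) = 4 * T (m + 4) := rfl
        rw [this]
        push_cast
        ring
      rw [e]
      exact h5
  rcases m with _ | _ | _ | m
  · refine ⟨2 * 1, ?_⟩
    intro ι V _ _ _ Γ Act _ _ σ hσ
    obtain ⟨i, hi⟩ := hpick σ (by omega)
    have h3 : (σ.erase i).card = 0 := by rw [Finset.card_erase_of_mem hi, hσ]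
    rw [Finset.card_eq_zero] at h3
    have h4 : CCert Γ Act (σ.erase i) 1 1 := by
      rw [h3]
      exact ccert_zero
    have h5 := cert_of_ccert hi h4
    have e : ((T (0 + 1) : ℕ) : ℝ) = 2 * 1 := by norm_num [T]
    rw [e]
    exact h5
  · refine ⟨2 * (1 * 1 + 1), ?_⟩
    intro ι V _ _ _ Γ Act _ _ σ hσ
    obtain ⟨i, hi⟩ := hpick σ (by omega)
    have h3 : (σ.erase i).card = 1 := by rw [Finset.card_erase_of_mem hi, hσ]
    have h4 : CCert Γ Act (σ.erase i) ((σ.erase i).card * 1 + 1) ((σ.erase i).card * 1 + 1) := by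
      apply ccert_step
      intro j hj
      have h0 : ((σ.erase i).erase j).card = 0 := by rw [Finset.card_erase_of_mem hj, h3]
      rw [Finset.card_eq_zero] at h0
      rw [h0]
      exact ccert_zero
    rw [h3] at h4
    have h5 := cert_of_ccert hi h4
    have e : ((T (0 + 1 + 1) : ℕ) : ℝ) = 2 * ((1 : ℕ) * 1 + 1) := by norm_num [T]
    rw [e]
    exact h5
  · refine ⟨2 * 4, ?_⟩
    intro ι V _ _ _ Γ Act _ _ σ hσ
    obtain ⟨i, hi⟩ := hpick σ (by omega)
    have h3 : (σ.erase i).card = 2 := by rw [Finset.card_erase_of_mem hi, hσ]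
    have h5 := cert_of_ccert hi (ccert_two (Γ := Γ) (Act := Act) h3)
    have e : ((T (0 + 1 + 1 + 1) : ℕ) : ℝ) = 2 * 4 := by norm_num [T]
    rw [e]
    exact h5
  · exact hbig m

end Pool.Agent.MP5f1228
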