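import Mathlib
import Pool.Agent.Lib.MP_5f1228_co.Defs
import Pool.Agent.Lib.MP_5f1228_co.Cm
import Pool.Agent.Lib.MP_5f1228_co.Ind
import Pool.Agent.Lib.MP_5f1228_co.Avg
import Pool.Agent.Lib.MP_5f1228_co.Ext
import Pool.Agent.Lib.MP_5f1228_co.Res
import Pool.Agent.Lib.MP_5f1228_co.Tree
import Pool.Agent.Lib.MP_5f1228_co.Num

set_option autoImplicit false

namespace Pool.Agent.MP5f1228

open Finset

theorem T_pos : ∀ k, 0 < T k
  | 0 => by norm_num [T]
  | 1 => by norm_num [T]
  | 2 => by norm_num [T]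
  | 3 => by norm_num [T]
  | 4 => by norm_num [T]
  | (k + 5) => by
    have := T_pos (k + 4)
    rw [T]
    omega

theorem main_act {V : Type} [Fintype V] [DecidableEq V] {r : ℕ} (G : SimpleGraph V)
    (c : Sym2 V → Fin r) (b t : ℕ) (i : Fin r) (W : Finset V) (hW : Conn (Str G c b t i) W)
    (h2 : 1 < W.card) : W ⊆ ActG G c b i := by
  intro v hv
  obtain ⟨w, hw, hne⟩ := exists_mem_ne h2 v
  have hr := hW ⟨v, by exact_mod_cast hv⟩ ⟨w, by exact_mod_cast hw⟩
  obtain ⟨p⟩ := hr
  cases p with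
  | nil => exact absurd rfl hne
  | cons h q =>
    have h' : (Str G c b t i).Adj v _ := h
    exact h'.2.1

theorem tp_threshold (r : ℕ) (hr : 1 ≤ r) (ε : ℝ) (hε : ε < 1 / T r) :
    ∃ n₀ : ℕ, ∀ (V : Type) [Fintype V] [DecidableEq V] (G : SimpleGraph V)
      [DecidableRel G.Adj] (c : Sym2 V → Fin r), n₀ ≤ Fintype.card V →
      (∀ v, (1 - ε) * (Fintype.card V : ℝ) ≤ (G.degree v : ℝ)) →
      ∃ H : Fin r → G.Subgraph, (∀ i, H i = ⊥ ∨ (H i).coe.IsTree) ∧
        (∀ i v w, (H i).Adj v w → c s(v, w) = i) ∧ ∀ v, ∃! i, v ∈ (H i).verts := by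
  choose N hN using fun M => cert_main M r hr
  have hT : (0 : ℝ) < T r := by exact_mod_cast T_pos r
  obtain ⟨M, n₀, hM, hn⟩ := exists_params r hr (T r) ε hT hε N
  refine ⟨n₀, ?_⟩
  intro V _ _ G _ c hcard hdeg
  obtain ⟨b, t, m, h1, h2, h3, h4⟩ := hn (Fintype.card V) hcard
  have hind := fun i => indep_bound G c h1 i
  have hcert := hN M (Fin r) V (Str G c b t) (ActG G c b) (fun i v w h => h.2.1)
    (fun i S hS h => hind i S hS h) univ (by simp)
  have hdeg' : ∀ v, ((univ.filter (fun w => ¬ G.Adj v w)).card : ℝ) ≤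
      ε * (Fintype.card V : ℝ) := by
    intro v
    have h5 : (univ.filter (fun w => ¬ G.Adj v w)).card + G.degree v = Fintype.card V := by
      have h6 := card_filter_add_card_filter_not (s := (univ : Finset V)) (fun w => G.Adj v w)
      rw [card_univ] at h6
      have h7 : (univ.filter (fun w => G.Adj v w)).card = G.degree v := by
        rw [← SimpleGraph.card_neighborFinset_eq_degree]
        congr 1
        ext w
        simp
      omega
    have h6 := hdeg v
    have h7 : ((univ.filter (fun w => ¬ G.Adj v w)).card : ℝ) + G.degree v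
        = Fintype.card V := by exact_mod_cast h5
    linarith
  obtain ⟨Q, hQ, W, hW, hWd, hWu⟩ := exists_good G c hdeg' hcert h2
  have hdomi : ∀ i, ∃ W0 ⊆ W i, Conn (Str G c b t i) W0 ∧ W0.card ≤ 2 * M ∧
      ∀ v ∈ W i, v ∈ W0 ∨ ∃ u ∈ W0, (Str G c b t i).Adj v u := by
    intro i
    refine exists_dom (Str G c b t i) (W i) (hW i (mem_univ i)).1 ?_
    intro S hS hSi
    by_cases h5 : (W i).card ≤ 1
    · exact ((card_le_card hS).trans h5).trans hM
    · exact hind i S (hS.trans (main_act G c b t i (W i) (hW i (mem_univ i)).1 (by omega))) hSi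
  choose V0 hV0 hV1 hV2 hV3 using hdomi
  obtain ⟨F, hF⟩ := exists_partition G c (m := m) V0 hV1
    (fun i j hij => (hWd i (mem_univ i) j (mem_univ j) hij).mono (hV0 i) (hV0 j))
    (by
      intro v
      have hv : v ∈ univ.biUnion W := by rw [hWu]; exact mem_univ v
      rw [mem_biUnion] at hv
      obtain ⟨i, -, hi⟩ := hv
      exact ⟨i, hV3 i v hi⟩)
    (by
      have h5 : ∑ i, (V0 i).card ≤ r * (2 * M) := by
        have := sum_le_card_nsmul (univ : Finset (Fin r)) (fun i => (V0 i).card) (2 * M)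
          (fun i _ => hV2 i)
        simpa using this
      omega) h4
  exact trees_of_partition G c F hF

end Pool.Agent.MP5f1228
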